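import Pool.Agent.Run7.h340.Mid

set_option autoImplicit false
set_option linter.unusedSectionVars false
set_option linter.unusedVariables false

/-!
# Counting maximal chains, and faces with few vertices
-/

namespace Run7.h340

open Finset Pool.Agent.Helper715 Pool.Agent.Helper715.CP

variable {W : Type*} [NormedAddCommGroup W] [InnerProductSpace ℝ W] [FiniteDimensional ℝ W]

/-- chains of `n` consecutive covers starting at a closed set, inside of `B` -/
noncomputable def chn (P : CP W) (B : Finset W) : ℕ → Finset W → ℕ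
  | 0, _ => 1
  | (n + 1), X => ∑ Y ∈ P.fs X B (dm X + 1), chn P B n Y

/-- the number of maximal chains between `X` and `B` -/
noncomputable def mc (P : CP W) (B X : Finset W) : ℕ := chn P B (dm B - dm X) X

variable {P : CP W}

theorem mc_step {B X : Finset W} (h : dm X < dm B) :
    mc P B X = ∑ Y ∈ P.fs X B (dm X + 1), mc P B Y := by
  obtain ⟨n, hn⟩ : ∃ n, dm B - dm X = n + 1 := ⟨dm B - dm X - 1, by omega⟩
  rw [mc, hn, chn]
  apply Finset.sum_congr rfl
  intro Y hY
  rw [mc, (mem_fs.1 hY).2.2.2]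
  congr 1
  omega

theorem mc_pos {B : Finset W} (hB : P.Cl B) {X : Finset W} (hX : P.Cl X) (hXB : X ⊆ B) :
    1 ≤ mc P B X := by
  induction hn : dm B - dm X generalizing X with
  | zero => rw [mc, hn, chn]
  | succ n ih =>
    rw [mc_step (by omega)]
    obtain ⟨C, hC, g1, g2, g3⟩ := exists_cover hX hB hXB (by rintro rfl; omega)
    have hmem : C ∈ P.fs X B (dm X + 1) := mem_fs.2 ⟨hC, g1, g2, g3⟩
    exact (ih hC g2 (by omega)).trans
      (Finset.single_le_sum (f := fun Y => mc P B Y) (fun _ _ => Nat.zero_le _) hmem)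

theorem dcount {A B : Finset W} {j k : ℕ} (w : Finset W → ℕ) :
    ∑ X ∈ P.fs A B j, ∑ Y ∈ P.fs X B k, w Y = ∑ Y ∈ P.fs A B k, (P.fs A Y j).card * w Y := by
  classical
  rw [Finset.sum_comm' (s' := fun Y => P.fs A Y j) (t' := P.fs A B k)]
  · apply Finset.sum_congr rfl
    intro Y _
    rw [Finset.sum_const, smul_eq_mul]
  · intro X Y
    rw [mem_fs, mem_fs, mem_fs, mem_fs]
    constructor
    · rintro ⟨⟨h1, h2, h3, h4⟩, ⟨g1, g2, g3, g4⟩⟩
      exact ⟨⟨h1, h2, g2, h4⟩, ⟨g1, h2.trans g2, g3, g4⟩⟩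
    · rintro ⟨⟨h1, h2, h3, h4⟩, ⟨g1, g2, g3, g4⟩⟩
      exact ⟨⟨h1, h2, h3.trans g3, h4⟩, ⟨g1, h3, g3, g4⟩⟩

theorem mc_flow {B : Finset W} (hB : P.Cl B) {j : ℕ} (hj : j ≤ dm B) {E : Finset W}
    (hE : P.Cl E) (hEB : E ⊆ B) (h : dm E ≤ j) : ∑ F ∈ P.fs E B j, mc P B F ≤ mc P B E := by
  classical
  induction hn : j - dm E generalizing E with
  | zero =>
    have : j = dm E := by omega
    rw [this, fs_self_left hE hEB, Finset.sum_singleton]
  | succ n ih =>
    rw [mc_step (X := E) (by omega)]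
    calc ∑ F ∈ P.fs E B j, mc P B F
        ≤ ∑ F ∈ P.fs E B j, (P.fs E F (dm E + 1)).card * mc P B F := by
          apply Finset.sum_le_sum
          intro F hF
          rw [mem_fs] at hF
          obtain ⟨C, hC, g1, g2, g3⟩ := exists_cover hE hF.1 hF.2.1 (by rintro rfl; omega)
          have : 1 ≤ (P.fs E F (dm E + 1)).card :=
            Finset.card_pos.2 ⟨C, mem_fs.2 ⟨hC, g1, g2, g3⟩⟩
          exact Nat.le_mul_of_pos_left _ this
      _ = ∑ Y ∈ P.fs E B (dm E + 1), ∑ F ∈ P.fs Y B j, mc P B F := (dcount _).symm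
      _ ≤ ∑ Y ∈ P.fs E B (dm E + 1), mc P B Y := by
          apply Finset.sum_le_sum
          intro Y hY
          rw [mem_fs] at hY
          exact ih hY.1 hY.2.2.1 (by omega) (by omega)

/-- the main estimate: the number of maximal chains is bounded by the chains through the level
`k + 3` -/
theorem main_est (r : ℕ) : ∀ (k : ℕ) (A B : Finset W) (M : ℕ), P.Cl A → P.Cl B → A ⊆ B →
    dm B = dm A + (r + 2 ^ (r + 1) * k + 4) →
    (∀ G, P.Cl G → A ⊆ G → G ⊆ B → dm G = dm A + r + 1 → mc P B G ≤ M) →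
    mc P B A ≤ 2 ^ (r + 1) * M * ∑ F ∈ P.fs A B (dm A + k + 3), mc P B F := by
  induction r with
  | zero =>
    intro k A B M hA hB hAB hd hM
    rw [mc_step (by omega)]
    have h1 : ∑ Y ∈ P.fs A B (dm A + 1), mc P B Y ≤ (P.fs A B (dm A + 1)).card * M := by
      rw [← smul_eq_mul, ← Finset.sum_const]
      apply Finset.sum_le_sum
      intro Y hY
      rw [mem_fs] at hY
      exact hM Y hY.1 hY.2.1 hY.2.2.1 (by omega)
    have h2 := covers_le hA hB hAB (m := k + 2) (by rw [hd]; ring)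
    have h3 : (P.fs A B (dm A + k + 3)).card ≤ ∑ F ∈ P.fs A B (dm A + k + 3), mc P B F := by
      rw [Finset.card_eq_sum_ones]
      apply Finset.sum_le_sum
      intro F hF
      rw [mem_fs] at hF
      exact mc_pos hB hF.1 hF.2.2.1
    have h4 : dm A + (k + 2) + 1 = dm A + k + 3 := by ring
    rw [h4] at h2
    calc ∑ Y ∈ P.fs A B (dm A + 1), mc P B Y ≤ (P.fs A B (dm A + 1)).card * M := h1
      _ ≤ (2 * (P.fs A B (dm A + k + 3)).card) * M := Nat.mul_le_mul_right _ h2
      _ ≤ (2 * ∑ F ∈ P.fs A B (dm A + k + 3), mc P B F) * M :=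
          Nat.mul_le_mul_right _ (Nat.mul_le_mul_left _ h3)
      _ = 2 ^ (0 + 1) * M * ∑ F ∈ P.fs A B (dm A + k + 3), mc P B F := by ring
  | succ r ih =>
    intro k A B M hA hB hAB hd hM
    have hpow : 2 ^ (r + 1 + 1) * k = 2 ^ (r + 1) * (2 * k) := by ring
    rw [hpow] at hd
    have hk2 : 2 * k ≤ 2 ^ (r + 1) * (2 * k) := Nat.le_mul_of_pos_left _ (by positivity)
    rw [mc_step (X := A) (by omega)]
    have hlvl : ∀ Y : Finset W, dm Y = dm A + 1 → dm Y + 2 * k + 3 = dm A + 2 * k + 4 := by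
      intro Y h; omega
    have h1 : ∀ Y ∈ P.fs A B (dm A + 1), mc P B Y ≤
        2 ^ (r + 1) * M * ∑ F ∈ P.fs Y B (dm A + 2 * k + 4), mc P B F := by
      intro Y hY
      rw [mem_fs] at hY
      have h := ih (2 * k) Y B M hY.1 hB hY.2.2.1 (by omega) (by
        intro G hG g1 g2 g3
        exact hM G hG (hY.2.1.trans g1) g2 (by omega))
      rwa [hlvl Y hY.2.2.2] at h
    have h2 : ∀ F ∈ P.fs A B (dm A + 2 * k + 4), (P.fs A F (dm A + 1)).card ≤
        2 * (P.fs A F (dm A + k + 3)).card := by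
      intro F hF
      rw [mem_fs] at hF
      have h := covers_le hA hF.1 hF.2.1 (m := k + 2) (by omega)
      have h4 : dm A + (k + 2) + 1 = dm A + k + 3 := by ring
      rwa [h4] at h
    calc ∑ Y ∈ P.fs A B (dm A + 1), mc P B Y
        ≤ ∑ Y ∈ P.fs A B (dm A + 1),
            2 ^ (r + 1) * M * ∑ F ∈ P.fs Y B (dm A + 2 * k + 4), mc P B F :=
          Finset.sum_le_sum h1
      _ = 2 ^ (r + 1) * M * ∑ F ∈ P.fs A B (dm A + 2 * k + 4),
            (P.fs A F (dm A + 1)).card * mc P B F := by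
          rw [← Finset.mul_sum, dcount]
      _ ≤ 2 ^ (r + 1) * M * ∑ F ∈ P.fs A B (dm A + 2 * k + 4),
            (2 * (P.fs A F (dm A + k + 3)).card) * mc P B F := by
          apply Nat.mul_le_mul_left
          apply Finset.sum_le_sum
          intro F hF
          exact Nat.mul_le_mul_right _ (h2 F hF)
      _ = 2 ^ (r + 1 + 1) * M * ∑ F ∈ P.fs A B (dm A + 2 * k + 4),
            (P.fs A F (dm A + k + 3)).card * mc P B F := by
          simp only [mul_assoc, ← Finset.mul_sum]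
          ring
      _ = 2 ^ (r + 1 + 1) * M * ∑ F ∈ P.fs A B (dm A + k + 3),
            ∑ H ∈ P.fs F B (dm A + 2 * k + 4), mc P B H := by
          rw [dcount]
      _ ≤ 2 ^ (r + 1 + 1) * M * ∑ F ∈ P.fs A B (dm A + k + 3), mc P B F := by
          apply Nat.mul_le_mul_left
          apply Finset.sum_le_sum
          intro F hF
          rw [mem_fs] at hF
          exact mc_flow hB (by omega) hF.1 hF.2.2.1 (by omega)

/-- some closed set of dimension `k + 3` in `B` has few atoms -/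
theorem few_atoms {r k M : ℕ} {B : Finset W} (hB : P.Cl B)
    (hd : dm B = r + 2 ^ (r + 1) * k + 4)
    (hM : ∀ G ∈ P.fs P.bot B (r + 1), mc P B G ≤ M) :
    ∃ F ∈ P.fs P.bot B (k + 3), (P.fs P.bot F 1).card ≤ 2 ^ (r + 1) * M := by
  classical
  by_contra hcon
  push Not at hcon
  have hk : k ≤ 2 ^ (r + 1) * k := Nat.le_mul_of_pos_left _ (by positivity)
  have h1 := main_est (P := P) r k P.bot B M bot_cl hB (bot_le hB) (by rw [dm_bot, zero_add, hd]) (by
    intro G hG g1 g2 g3
    exact hM G (mem_fs.2 ⟨hG, g1, g2, by rw [g3, dm_bot, zero_add]⟩))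
  rw [dm_bot, zero_add] at h1
  set T := ∑ F ∈ P.fs P.bot B (k + 3), mc P B F with hS
  have h2 : ∑ F ∈ P.fs P.bot B (k + 3), (P.fs P.bot F 1).card * mc P B F ≤ mc P B P.bot := by
    rw [← dcount, mc_step (by rw [dm_bot]; omega), dm_bot, zero_add]
    apply Finset.sum_le_sum
    intro v hv
    rw [mem_fs] at hv
    exact mc_flow hB (by omega) hv.1 hv.2.2.1 (by omega)
  have h3 : ∑ F ∈ P.fs P.bot B (k + 3), (2 ^ (r + 1) * M + 1) * mc P B F ≤
      ∑ F ∈ P.fs P.bot B (k + 3), (P.fs P.bot F 1).card * mc P B F := by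
    apply Finset.sum_le_sum
    intro F hF
    exact Nat.mul_le_mul_right _ (hcon F hF)
  rw [← Finset.mul_sum, ← hS] at h3
  have h4 : 1 ≤ T := by
    obtain ⟨F, hF, g1, g2, g3⟩ := exists_mid (P := P) bot_cl hB (bot_le hB) (j := k + 3)
      (by rw [dm_bot]; omega) (by omega)
    have hmem : F ∈ P.fs P.bot B (k + 3) := mem_fs.2 ⟨hF, g1, g2, g3⟩
    exact (mc_pos hB hF g2).trans
      (Finset.single_le_sum (f := fun Y => mc P B Y) (fun _ _ => Nat.zero_le _) hmem)
  have h5 : (2 ^ (r + 1) * M + 1) * T ≤ 2 ^ (r + 1) * M * T := h3.trans (h2.trans h1)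
  rw [add_mul, one_mul] at h5
  omega

theorem mc_le {B : Finset W} {Q : ℕ} {G : Finset W} (hG : P.Cl G) (hGB : G ⊆ B)
    (hQ : ∀ X, P.Cl X → G ⊆ X → X ⊆ B → ∀ j, (P.fs X B j).card ≤ Q) :
    mc P B G ≤ Q ^ (dm B - dm G) := by
  induction hn : dm B - dm G generalizing G with
  | zero => rw [mc, hn, chn, pow_zero]
  | succ n ih =>
    rw [mc_step (by omega)]
    calc ∑ Y ∈ P.fs G B (dm G + 1), mc P B Y ≤ ∑ Y ∈ P.fs G B (dm G + 1), Q ^ n := by
          apply Finset.sum_le_sum
          intro Y hY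
          rw [mem_fs] at hY
          exact ih hY.1 hY.2.2.1 (fun X hX g1 g2 => hQ X hX (hY.2.1.trans g1) g2) (by omega)
      _ = (P.fs G B (dm G + 1)).card * Q ^ n := by rw [Finset.sum_const, smul_eq_mul]
      _ ≤ Q * Q ^ n := Nat.mul_le_mul_right _ (hQ G hG (Finset.Subset.refl _) hGB _)
      _ = Q ^ (n + 1) := by ring

/-- closed sets are determined by the facets that contain them -/
theorem fs_card_le {G B : Finset W} (hG : P.Cl G) (hB : P.Cl B) (j : ℕ) :
    (P.fs G B j).card ≤ 2 ^ (P.fs G B (dm B - 1)).card := by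
  classical
  rw [← Finset.card_powerset]
  apply Finset.card_le_card_of_injOn
    (fun X => (P.fs G B (dm B - 1)).filter (fun K => X ⊆ K))
  · intro X _
    exact Finset.mem_coe.2 (Finset.mem_powerset.2 (Finset.filter_subset _ _))
  · have key : ∀ X ∈ P.fs G B j, ∀ Y ∈ P.fs G B j,
        (P.fs G B (dm B - 1)).filter (fun K => Y ⊆ K) ⊆
          (P.fs G B (dm B - 1)).filter (fun K => X ⊆ K) → X ⊆ Y := by
      intro X hX Y hY h
      by_contra hcon
      obtain ⟨x, hx, hxY⟩ := Finset.not_subset.1 hcon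
      rw [mem_fs] at hX hY
      obtain ⟨K, hK, g1, g2, g3, g4⟩ := cocover hY.1 hB hY.2.2.1 (hX.2.2.1 hx) hxY
      have hmem : K ∈ (P.fs G B (dm B - 1)).filter (fun K => Y ⊆ K) :=
        Finset.mem_filter.2 ⟨mem_fs.2 ⟨hK, hY.2.1.trans g1, g2, by omega⟩, g1⟩
      exact g4 ((Finset.mem_filter.1 (h hmem)).2 hx)
    intro X hX Y hY hXY
    have e : (P.fs G B (dm B - 1)).filter (fun K => X ⊆ K) =
      (P.fs G B (dm B - 1)).filter (fun K => Y ⊆ K) := hXY
    exact Finset.Subset.antisymm (key X hX Y hY e.symm.subset) (key Y hY X hX e.subset)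

/-- many facets contain a given closed set -/
theorem co_ge {B : Finset W} (hB : P.Cl B) :
    dm P.V - dm B ≤ (P.fs B P.V (dm P.V - 1)).card := by
  classical
  have e0 := dm_add hB
  have h0 := card_cov_ge (P := P.swap) (A := P.swap.bot) (B := perp P.G B) bot_cl (Cl_perp hB.sub)
    (bot_le (Cl_perp hB.sub))
  rw [dm_bot, zero_add, Nat.sub_zero] at h0
  have h1 : dm P.V = Module.finrank ℝ W := dm_top
  have h2 : dm P.V - dm B = dm (perp P.G B) := by omega
  rw [h2]
  refine h0.trans ?_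
  apply Finset.card_le_card_of_injOn (fun C => perp P.V C)
  · intro C hC
    have hC := mem_fs.1 hC
    have e1 := dm_add (P := P.swap) hC.1
    simp only [swap_G] at e1
    refine Finset.mem_coe.2 (mem_fs.2 ⟨Cl_perpV hC.1.sub, ?_, perp_sub _ _, ?_⟩)
    · have := perp_anti (G := P.V) hC.2.2.1
      rwa [show perp P.V (perp P.G B) = B from hB] at this
    · have := hC.2.2.2
      change dm (perp P.V C) = dm P.V - 1
      omega
  · intro C hC C' hC' h
    have hC := mem_fs.1 hC
    have hC' := mem_fs.1 hC'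
    have h : perp P.V C = perp P.V C' := h
    rw [← (show perp P.G (perp P.V C) = C from hC.1), h]
    exact hC'.1

/-- the facets of a face, through `G` -/
theorem facets_in {G B : Finset W} (hG : P.Cl G) (hB : P.Cl B) (hGB : G ⊆ B) (hd : 1 ≤ dm B) :
    (P.fs G B (dm B - 1)).card + (dm P.V - dm B) ≤ (P.fs G P.V (dm P.V - 1)).card := by
  classical
  have key : ∀ H ∈ P.fs G B (dm B - 1), ∃ K, K ∈ P.fs G P.V (dm P.V - 1) ∧ ¬ B ⊆ K ∧ H = K ∩ B := by
    intro H hH
    rw [mem_fs] at hH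
    obtain ⟨b, hb, hbH⟩ := exists_not_mem hH.1 hB hH.2.2.1 (by omega)
    obtain ⟨K, hK, g1, g2, g3, g4⟩ := cocover hH.1 top_cl hH.1.sub (hB.sub hb) hbH
    refine ⟨K, mem_fs.2 ⟨hK, hH.2.1.trans g1, g2, by omega⟩, fun h => g4 (h hb), ?_⟩
    have hint : P.Cl (K ∩ B) := Cl_inter hK hB
    apply eq_of_dm_le hH.1 hint (Finset.subset_inter g1 hH.2.2.1)
    have hlt := dm_lt hint hB Finset.inter_subset_right (by
      intro h
      apply g4
      have : b ∈ K ∩ B := by rw [h]; exact hb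
      exact (Finset.mem_inter.1 this).1)
    omega
  choose! K hK using key
  have c1 : (P.fs G B (dm B - 1)).card ≤
      ((P.fs G P.V (dm P.V - 1)).filter (fun K => ¬ B ⊆ K)).card := by
    apply Finset.card_le_card_of_injOn K
    · intro H hH
      have := hK H hH
      exact Finset.mem_coe.2 (Finset.mem_filter.2 ⟨this.1, this.2.1⟩)
    · intro H hH H' hH' h
      have g1 := (hK H hH).2.2
      have g2 := (hK H' hH').2.2
      have h : K H = K H' := h
      rw [g1, g2, h]
  have c2 : (P.fs B P.V (dm P.V - 1)).card ≤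
      ((P.fs G P.V (dm P.V - 1)).filter (fun K => B ⊆ K)).card := by
    apply Finset.card_le_card
    intro H hH
    rw [mem_fs] at hH
    exact Finset.mem_filter.2 ⟨mem_fs.2 ⟨hH.1, hGB.trans hH.2.1, hH.2.2.1, hH.2.2.2⟩, hH.2.1⟩
  have c3 := Finset.card_filter_add_card_filter_not (s := P.fs G P.V (dm P.V - 1))
    (fun K => B ⊆ K)
  have c4 := co_ge hB
  omega

/-- closed sets are determined by the covers that they contain -/
theorem fs_card_le' {G B : Finset W} (hG : P.Cl G) (hB : P.Cl B) (j : ℕ) :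
    (P.fs G B j).card ≤ 2 ^ (P.fs G B (dm G + 1)).card := by
  classical
  rw [← Finset.card_powerset]
  apply Finset.card_le_card_of_injOn
    (fun X => (P.fs G B (dm G + 1)).filter (fun K => K ⊆ X))
  · intro X _
    exact Finset.mem_coe.2 (Finset.mem_powerset.2 (Finset.filter_subset _ _))
  · have key : ∀ X ∈ P.fs G B j, ∀ Y ∈ P.fs G B j,
        (P.fs G B (dm G + 1)).filter (fun K => K ⊆ X) ⊆
          (P.fs G B (dm G + 1)).filter (fun K => K ⊆ Y) → X ⊆ Y := by
      intro X hX Y hY h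
      by_contra hcon
      obtain ⟨x, hx, hxY⟩ := Finset.not_subset.1 hcon
      rw [mem_fs] at hX hY
      obtain ⟨K, hK, g1, g2, g3, c, hc, hc0⟩ := cover_up hG hX.1 hX.2.1 (y := P.gs Y)
        (fun a ha => gs_zero (hY.2.1 ha)) ⟨x, hx, gs_pos hY.1 (hX.1.sub hx) hxY⟩
      have hmem : K ∈ (P.fs G B (dm G + 1)).filter (fun K => K ⊆ X) :=
        Finset.mem_filter.2 ⟨mem_fs.2 ⟨hK, g1, g2.trans hX.2.2.1, g3⟩, g2⟩
      have := (Finset.mem_filter.1 (h hmem)).2 hc
      rw [gs_zero this] at hc0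
      exact lt_irrefl _ hc0
    intro X hX Y hY hXY
    have e : (P.fs G B (dm G + 1)).filter (fun K => K ⊆ X) =
      (P.fs G B (dm G + 1)).filter (fun K => K ⊆ Y) := hXY
    exact Finset.Subset.antisymm (key X hX Y hY e.subset) (key Y hY X hX e.symm.subset)

/-- the bound for the number of vertices -/
def bnd (r c k : ℕ) : ℕ :=
  2 ^ (r + 1) * (2 ^ (2 ^ (r + 1) * k + 3 + c)) ^ (2 ^ (r + 1) * k + 3)

/-- if the closed sets of dimension `r + 1` lie in few facets or have few covers, then some closed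
set of dimension `k + 3` has few atoms -/
theorem few {r c k d : ℕ} (hV : dm P.V = d + 1) (hd : r + 2 ^ (r + 1) * k + 3 ≤ d)
    (h : ∀ G ∈ P.fs P.bot P.V (r + 1), (P.fs G P.V d).card ≤ d - r + c ∨
      (P.fs G P.V (r + 2)).card ≤ d - r + c) :
    ∃ F ∈ P.fs P.bot P.V (k + 3), (P.fs P.bot F 1).card ≤ bnd r c k := by
  obtain ⟨B, hB, g1, g2, g3⟩ := exists_mid (P := P) bot_cl top_cl (bot_le top_cl)
    (j := r + 2 ^ (r + 1) * k + 4) (by rw [dm_bot]; omega) (by omega)
  obtain ⟨F, hF, hF1⟩ := few_atoms (P := P) hB g3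
    (M := (2 ^ (2 ^ (r + 1) * k + 3 + c)) ^ (2 ^ (r + 1) * k + 3)) (by
      intro G hG
      have hG' := mem_fs.1 hG
      have hq := h G (mem_fs.2 ⟨hG'.1, hG'.2.1, hG'.2.2.1.trans g2, hG'.2.2.2⟩)
      have hsm : ∀ j, (P.fs G B j).card ≤ 2 ^ (2 ^ (r + 1) * k + 3 + c) := by
        intro j
        rcases hq with hq | hq
        · have hf := facets_in hG'.1 hB hG'.2.2.1 (by omega)
          have hV1 : dm P.V - 1 = d := by omega
          rw [hV1] at hf
          refine (fs_card_le hG'.1 hB j).trans ?_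
          apply Nat.pow_le_pow_right (by norm_num)
          omega
        · have hf := card_cov_add hG'.1 hB top_cl hG'.2.2.1 hB.sub
          have hG2 := hG'.2.2.2
          have e2 : r + 1 + 1 = r + 2 := rfl
          rw [hG2, e2] at hf
          refine (fs_card_le' hG'.1 hB j).trans ?_
          apply Nat.pow_le_pow_right (by norm_num)
          rw [hG2, e2]
          omega
      have hmc := mc_le (P := P) (B := B) (Q := 2 ^ (2 ^ (r + 1) * k + 3 + c)) hG'.1 hG'.2.2.1 (by
        intro X hX k1 k2 j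
        refine le_trans ?_ (hsm j)
        apply Finset.card_le_card
        intro H hH
        rw [mem_fs] at hH ⊢
        exact ⟨hH.1, k1.trans hH.2.1, hH.2.2.1, hH.2.2.2⟩)
      have he : dm B - dm G = 2 ^ (r + 1) * k + 3 := by rw [g3, hG'.2.2.2]; omega
      rwa [he] at hmc)
  exact ⟨F, mem_fs.2 ⟨(mem_fs.1 hF).1, (mem_fs.1 hF).2.1, (mem_fs.1 hF).2.2.1.trans g2,
    (mem_fs.1 hF).2.2.2⟩, hF1⟩

end Run7.h340
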