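import Pool.Agent.Run7.h340.Gtwo
import Pool.Agent.Run7.h340.Chains

set_option autoImplicit false
set_option linter.unusedSectionVars false
set_option linter.unusedVariables false

/-!
# Polytopes of dimension seven have faces of dimension three with at most 96 vertices
-/

namespace Run7.h340

open Finset Pool.Agent.Helper715 Pool.Agent.Helper715.CP

variable {W : Type*} [NormedAddCommGroup W] [InnerProductSpace ℝ W] [FiniteDimensional ℝ W]

/-- the number of chains with given steps -/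
noncomputable def fl (P : CP W) (B : Finset W) : List ℕ → Finset W → ℕ
  | [], _ => 1
  | (s :: w), A => ∑ C ∈ P.fs A B (dm A + s), fl P B w C

/-- linear combinations of words -/
abbrev Fm := List (ℤ × List ℕ)

/-- evaluation of a linear combination -/
def evl (f : List ℕ → ℤ) (L : Fm) : ℤ := (L.map (fun p => p.1 * f p.2)).sum

/-- product of linear combinations -/
def mulf (L M : Fm) : Fm := L.flatMap (fun p => M.map (fun q => (p.1 * q.1, p.2 ++ q.2)))

/-- multiples -/
def smulf (c : ℤ) (L : Fm) : Fm := L.map (fun p => (c * p.1, p.2))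

theorem evl_nil (f : List ℕ → ℤ) : evl f [] = 0 := rfl

theorem evl_cons (f : List ℕ → ℤ) (p : ℤ × List ℕ) (L : Fm) :
    evl f (p :: L) = p.1 * f p.2 + evl f L := by
  rw [evl, evl, List.map_cons, List.sum_cons]

theorem evl_append (f : List ℕ → ℤ) (L M : Fm) : evl f (L ++ M) = evl f L + evl f M := by
  rw [evl, evl, evl, List.map_append, List.sum_append]

theorem evl_smulf (f : List ℕ → ℤ) (c : ℤ) (L : Fm) : evl f (smulf c L) = c * evl f L := by
  induction L with
  | nil => simp [smulf, evl]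
  | cons p L ih =>
    have : smulf c (p :: L) = (c * p.1, p.2) :: smulf c L := rfl
    rw [this, evl_cons, evl_cons, ih]
    ring

/-- coefficient sum of a word -/
def cs (w : List ℕ) (L : Fm) : ℤ := ((L.filter (fun q => q.2 = w)).map Prod.fst).sum

/-- test for a trivial linear combination -/
def chk : ℕ → Fm → Bool
  | 0, L => L.isEmpty
  | _ + 1, [] => true
  | k + 1, p :: L => (cs p.2 (p :: L) == 0) && chk k (L.filter (fun q => q.2 ≠ p.2))

theorem evl_split (f : List ℕ → ℤ) (w : List ℕ) (L : Fm) :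
    evl f L = cs w L * f w + evl f (L.filter (fun q => q.2 ≠ w)) := by
  induction L with
  | nil => simp [evl, cs]
  | cons p L ih =>
    rw [evl_cons, ih]
    by_cases h : p.2 = w
    · have h1 : (p :: L).filter (fun q => q.2 ≠ w) = L.filter (fun q => q.2 ≠ w) := by
        simp [List.filter_cons, h]
      have h2 : cs w (p :: L) = p.1 + cs w L := by
        simp [cs, List.filter_cons, h]
      rw [h1, h2, h]
      ring
    · have h1 : (p :: L).filter (fun q => q.2 ≠ w) = p :: L.filter (fun q => q.2 ≠ w) := by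
        simp [List.filter_cons, h]
      have h2 : cs w (p :: L) = cs w L := by
        simp [cs, List.filter_cons, h]
      rw [h1, h2, evl_cons]
      ring

theorem evl_chk (f : List ℕ → ℤ) (k : ℕ) : ∀ L : Fm, chk k L = true → evl f L = 0 := by
  induction k with
  | zero =>
    intro L h
    rw [chk, List.isEmpty_iff] at h
    rw [h, evl_nil]
  | succ k ih =>
    intro L h
    cases L with
    | nil => rfl
    | cons p L =>
      rw [chk, Bool.and_eq_true, beq_iff_eq] at h
      rw [evl_split f p.2, h.1, zero_mul, zero_add]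
      have h1 : (p :: L).filter (fun q => q.2 ≠ p.2) = L.filter (fun q => q.2 ≠ p.2) := by
        simp [List.filter_cons]
      rw [h1]
      exact ih _ h.2

variable {P : CP W}

theorem fl_append {B : Finset W} (u : List ℕ) : ∀ (v : List ℕ) (A : Finset W), P.Cl A → A ⊆ B →
    fl P B (u ++ v) A = ∑ C ∈ P.fs A B (dm A + u.sum), fl P C u A * fl P B v C := by
  induction u with
  | nil =>
    intro v A hA hAB
    rw [List.sum_nil, add_zero, fs_self_left hA hAB, Finset.sum_singleton, List.nil_append, fl,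
      one_mul]
  | cons s u ih =>
    intro v A hA hAB
    rw [List.cons_append, fl, List.sum_cons]
    have h1 : ∀ D ∈ P.fs A B (dm A + s), fl P B (u ++ v) D =
        ∑ C ∈ P.fs D B (dm A + (s + u.sum)), fl P C u D * fl P B v C := by
      intro D hD
      rw [mem_fs] at hD
      rw [ih v D hD.1 hD.2.2.1, hD.2.2.2, add_assoc]
    rw [Finset.sum_congr rfl h1,
      Finset.sum_comm' (t' := P.fs A B (dm A + (s + u.sum))) (s' := fun C => P.fs A C (dm A + s))]
    · apply Finset.sum_congr rfl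
      intro C hC
      rw [← Finset.sum_mul, fl]
    · intro X Y
      rw [mem_fs, mem_fs, mem_fs, mem_fs]
      constructor
      · rintro ⟨⟨h1, h2, h3, h4⟩, ⟨g1, g2, g3, g4⟩⟩
        exact ⟨⟨h1, h2, g2, h4⟩, ⟨g1, h2.trans g2, g3, g4⟩⟩
      · rintro ⟨⟨h1, h2, h3, h4⟩, ⟨g1, g2, g3, g4⟩⟩
        exact ⟨⟨h1, h2, h3.trans g3, h4⟩, ⟨g1, h3, g3, g4⟩⟩

/-- evaluation on an interval -/
noncomputable def ev (P : CP W) (A B : Finset W) (L : Fm) : ℤ := evl (fun w => (fl P B w A : ℤ)) L

theorem ev_mul1 {A B : Finset W} (hA : P.Cl A) (hAB : A ⊆ B) (c : ℤ) (u : List ℕ) (M : Fm) :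
    ev P A B (M.map (fun q => (c * q.1, u ++ q.2))) =
      ∑ C ∈ P.fs A B (dm A + u.sum), (c * fl P C u A) * ev P C B M := by
  induction M with
  | nil => simp [ev, evl]
  | cons q M ih =>
    rw [List.map_cons, ev, evl_cons]
    rw [ev] at ih
    rw [ih]
    simp only [ev, evl_cons]
    rw [fl_append u q.2 A hA hAB, Nat.cast_sum, Finset.mul_sum, ← Finset.sum_add_distrib]
    apply Finset.sum_congr rfl
    intro C _
    rw [Nat.cast_mul]
    ring

theorem ev_mul {A B : Finset W} (hA : P.Cl A) (hAB : A ⊆ B) {n : ℕ} (L M : Fm)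
    (hL : ∀ p ∈ L, p.2.sum = n) :
    ev P A B (mulf L M) = ∑ C ∈ P.fs A B (dm A + n), ev P A C L * ev P C B M := by
  induction L with
  | nil => simp [ev, evl, mulf]
  | cons p L ih =>
    have h1 : mulf (p :: L) M = M.map (fun q => (p.1 * q.1, p.2 ++ q.2)) ++ mulf L M := by
      simp [mulf]
    have h2 : ev P A B (mulf (p :: L) M) =
        ev P A B (M.map (fun q => (p.1 * q.1, p.2 ++ q.2))) + ev P A B (mulf L M) := by
      rw [h1, ev, evl_append]
      rfl
    rw [h2, ev_mul1 hA hAB, ih (fun p hp => hL p (List.mem_cons_of_mem _ hp)),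
      hL p (List.mem_cons_self ..), ← Finset.sum_add_distrib]
    apply Finset.sum_congr rfl
    intro C _
    have h3 : ev P A C (p :: L) = p.1 * fl P C p.2 A + ev P A C L := by
      rw [ev, evl_cons]
      rfl
    rw [h3]
    ring

/-- nonnegative linear combinations of rank `n` -/
def NN (P : CP W) (n : ℕ) (L : Fm) : Prop := (∀ p ∈ L, p.2.sum = n) ∧
  ∀ A B, P.Cl A → P.Cl B → A ⊆ B → dm B = dm A + n → 0 ≤ ev P A B L

theorem NN.mul {n m : ℕ} {L M : Fm} (hL : NN P n L) (hM : NN P m M) : NN P (n + m) (mulf L M) := by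
  constructor
  · intro p hp
    rw [mulf, List.mem_flatMap] at hp
    obtain ⟨a, ha, hp⟩ := hp
    rw [List.mem_map] at hp
    obtain ⟨b, hb, rfl⟩ := hp
    simp only [List.sum_append]
    rw [hL.1 a ha, hM.1 b hb]
  · intro A B hA hB hAB hd
    rw [ev_mul hA hAB L M hL.1]
    apply Finset.sum_nonneg
    intro C hC
    rw [mem_fs] at hC
    exact mul_nonneg (hL.2 A C hA hC.1 hC.2.1 hC.2.2.2)
      (hM.2 C B hC.1 hB hC.2.2.1 (by rw [hd, hC.2.2.2]; ring))

theorem NN.add {n : ℕ} {L M : Fm} (hL : NN P n L) (hM : NN P n M) : NN P n (L ++ M) := by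
  constructor
  · intro p hp
    rcases List.mem_append.1 hp with h | h
    · exact hL.1 p h
    · exact hM.1 p h
  · intro A B hA hB hAB hd
    rw [ev, evl_append]
    exact add_nonneg (hL.2 A B hA hB hAB hd) (hM.2 A B hA hB hAB hd)

theorem NN.smul {n : ℕ} {L : Fm} (hL : NN P n L) (c : ℕ) : NN P n (smulf c L) := by
  constructor
  · intro p hp
    rw [smulf, List.mem_map] at hp
    obtain ⟨a, ha, rfl⟩ := hp
    exact hL.1 a ha
  · intro A B hA hB hAB hd
    rw [ev, evl_smulf]
    exact mul_nonneg (Int.natCast_nonneg _) (hL.2 A B hA hB hAB hd)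

theorem NN.nil (n : ℕ) : NN P n [] :=
  ⟨fun p hp => absurd hp (by simp), fun A B _ _ _ _ => le_refl _⟩

theorem fl_one {A B : Finset W} (hB : P.Cl B) (hAB : A ⊆ B) {n : ℕ} (hd : dm B = dm A + n) :
    fl P B [n] A = 1 := by
  rw [fl, ← hd, fs_self_right hB hAB, Finset.sum_singleton, fl]

theorem fl_two {A B : Finset W} (hB : P.Cl B) {s t : ℕ} (hd : dm B = dm A + s + t) :
    fl P B [s, t] A = (P.fs A B (dm A + s)).card := by
  rw [fl, Finset.card_eq_sum_ones]
  apply Finset.sum_congr rfl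
  intro C hC
  rw [mem_fs] at hC
  exact fl_one hB hC.2.2.1 (by rw [hd, hC.2.2.2])

/-- basic linear combinations -/
inductive Bs
  | g (n : ℕ) | a (n : ℕ) | c (n : ℕ) | q | h | e (n : ℕ) | e' (n : ℕ)

/-- the Euler relation of rank `n + 1` -/
def eu (n : ℕ) : Fm := (1, [n + 1]) :: ((-1) ^ (n + 1), [n + 1]) ::
  (List.range n).map (fun k => ((-1) ^ (k + 1), [k + 1, n - k]))

/-- the linear combination of a basic one -/
def Bs.den : Bs → Fm
  | g n => [(1, [n])]
  | a n => [(1, [1, n]), (-(n + 1 : ℤ), [n + 1])]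
  | c n => [(1, [n, 1]), (-(n + 1 : ℤ), [n + 1])]
  | q => [(1, [2, 3]), (1, [1, 2, 2]), (-3, [3, 2]), (-4, [1, 4]), (10, [5])]
  | h => [(2, [4, 2]), (-1, [1, 5])]
  | e n => eu n
  | e' n => smulf (-1) (eu n)

/-- the rank -/
def Bs.rk : Bs → ℕ
  | g n => n
  | a n => n + 1
  | c n => n + 1
  | q => 5
  | h => 6
  | e n => n + 1
  | e' n => n + 1

theorem eu_sum (n : ℕ) : ∀ p ∈ eu n, p.2.sum = n + 1 := by
  intro p hp
  rw [eu, List.mem_cons, List.mem_cons, List.mem_map] at hp
  rcases hp with rfl | rfl | ⟨k, hk, rfl⟩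
  · simp
  · simp
  · rw [List.mem_range] at hk
    simp only [List.sum_cons, List.sum_nil]
    omega

theorem evl_map_range (f : List ℕ → ℤ) (n : ℕ) (c : ℕ → ℤ) (w : ℕ → List ℕ) :
    evl f ((List.range n).map (fun k => (c k, w k))) = ∑ k ∈ Finset.range n, c k * f (w k) := by
  induction n with
  | zero => simp [evl]
  | succ n ih =>
    rw [List.range_succ, List.map_append, evl_append, ih, Finset.sum_range_succ]
    simp [evl]

theorem ev_eu {A B : Finset W} (hA : P.Cl A) (hB : P.Cl B) (hAB : A ⊆ B) {n : ℕ}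
    (hd : dm B = dm A + (n + 1)) : ev P A B (eu n) = 0 := by
  have h := euler_range hA hB hAB hd
  rw [Finset.sum_range_succ, Finset.sum_range_succ', add_zero, fs_self_left hA hAB, ← hd,
    fs_self_right hB hAB] at h
  rw [eu, ev, evl_cons, evl_cons, evl_map_range, fl_one hB hAB hd]
  have h1 : ∀ k ∈ Finset.range n, (-1 : ℤ) ^ (k + 1) * (fl P B [k + 1, n - k] A : ℤ) =
      (-1 : ℤ) ^ (k + 1) * ((P.fs A B (dm A + (k + 1))).card : ℤ) := by
    intro k hk
    rw [Finset.mem_range] at hk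
    rw [fl_two hB (by omega)]
  rw [Finset.sum_congr rfl h1]
  simp only [Finset.card_singleton] at h
  push_cast at h ⊢
  linarith

theorem NN_den (b : Bs) : NN P b.rk b.den := by
  classical
  cases b with
  | g n =>
    refine ⟨fun p hp => ?_, fun A B hA hB hAB hd => ?_⟩
    · simp only [Bs.den, List.mem_singleton] at hp
      rw [hp]
      simp [Bs.rk]
    · simp [ev, Bs.den, evl]
  | a n =>
    refine ⟨fun p hp => ?_, fun A B hA hB hAB hd => ?_⟩
    · simp only [Bs.den, List.mem_cons, List.not_mem_nil, or_false] at hp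
      rcases hp with rfl | rfl
      · simp [Bs.rk, add_comm]
      · simp [Bs.rk]
    · rw [Bs.rk] at hd
      simp only [ev, Bs.den, evl_cons, evl_nil]
      rw [fl_one hB hAB hd, fl_two hB (by omega)]
      have := card_cov_ge hA hB hAB
      push_cast
      have h2 : n + 1 ≤ (P.fs A B (dm A + 1)).card := by omega
      have h3 : ((n + 1 : ℕ) : ℤ) ≤ ((P.fs A B (dm A + 1)).card : ℤ) := by exact_mod_cast h2
      push_cast at h3
      linarith
  | c n =>
    refine ⟨fun p hp => ?_, fun A B hA hB hAB hd => ?_⟩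
    · simp only [Bs.den, List.mem_cons, List.not_mem_nil, or_false] at hp
      rcases hp with rfl | rfl
      · simp [Bs.rk]
      · simp [Bs.rk]
    · rw [Bs.rk] at hd
      simp only [ev, Bs.den, evl_cons, evl_nil]
      rw [fl_one hB hAB hd, fl_two hB (by omega)]
      have h1 := co_ge (P := quo P hA hB hAB) (B := (quo P hA hB hAB).bot) bot_cl
      have hl := Finset.Subset.refl A
      have hr := Finset.Subset.refl B
      have hf := q_finrank hA hB hAB
      rw [dm_bot, Nat.sub_zero, dm_top, q_bot hA hB hAB, quo_V,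
        q_card hA hB hAB hA hl hAB hB hAB hr] at h1
      have e1 : Module.finrank ℝ (qsp A B) = n + 1 := by omega
      rw [e1] at h1
      have e2 : n + 1 - 1 = n := by omega
      rw [e2] at h1
      have h3 : ((n + 1 : ℕ) : ℤ) ≤ ((P.fs A B (dm A + n)).card : ℤ) := by exact_mod_cast h1
      push_cast at h3 ⊢
      linarith
  | q =>
    refine ⟨fun p hp => ?_, fun A B hA hB hAB hd => ?_⟩
    · simp only [Bs.den, List.mem_cons, List.not_mem_nil, or_false] at hp
      rcases hp with rfl | rfl | rfl | rfl | rfl <;> rfl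
    · rw [Bs.rk] at hd
      simp only [ev, Bs.den, evl_cons, evl_nil]
      have h1 : fl P B [1, 2, 2] A = ∑ F ∈ P.fs A B (dm A + 3), (P.fs A F (dm A + 1)).card := by
        rw [fl, ← double_count]
        apply Finset.sum_congr rfl
        intro C hC
        rw [mem_fs] at hC
        rw [fl_two hB (by omega), hC.2.2.2]
      rw [h1, fl_one hB hAB hd, fl_two hB (s := 2) (t := 3) (by omega),
        fl_two hB (s := 3) (t := 2) (by omega), fl_two hB (s := 1) (t := 4) (by omega)]
      have h2 := g2_four hA hB hAB hd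
      have h3 : (4 * ((P.fs A B (dm A + 1)).card : ℤ) + 3 * ((P.fs A B (dm A + 3)).card : ℤ)) ≤
          ((P.fs A B (dm A + 2)).card : ℤ) +
          ((∑ F ∈ P.fs A B (dm A + 3), (P.fs A F (dm A + 1)).card : ℕ) : ℤ) + 10 := by
        exact_mod_cast h2
      push_cast at h3 ⊢
      linarith
  | h =>
    refine ⟨fun p hp => ?_, fun A B hA hB hAB hd => ?_⟩
    · simp only [Bs.den, List.mem_cons, List.not_mem_nil, or_false] at hp
      rcases hp with rfl | rfl <;> rfl
    · rw [Bs.rk] at hd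
      simp only [ev, Bs.den, evl_cons, evl_nil]
      rw [fl_two hB (s := 4) (t := 2) (by omega), fl_two hB (s := 1) (t := 5) (by omega)]
      have h2 := covers_le hA hB hAB (m := 3) (by omega)
      have e : dm A + 3 + 1 = dm A + 4 := by ring
      rw [e] at h2
      have h3 : ((P.fs A B (dm A + 1)).card : ℤ) ≤ 2 * ((P.fs A B (dm A + 4)).card : ℤ) := by
        exact_mod_cast h2
      linarith
  | e n =>
    exact ⟨eu_sum n, fun A B hA hB hAB hd => by rw [Bs.den, ev_eu hA hB hAB hd]⟩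
  | e' n =>
    refine ⟨fun p hp => ?_, fun A B hA hB hAB hd => ?_⟩
    · rw [Bs.den, smulf, List.mem_map] at hp
      obtain ⟨a, ha, rfl⟩ := hp
      exact eu_sum n a ha
    · rw [Bs.den, ev, evl_smulf]
      have := ev_eu hA hB hAB hd
      rw [ev] at this
      rw [this]
      norm_num

/-- products of basic linear combinations -/
def denL : List Bs → Fm
  | [] => [(1, [])]
  | b :: l => mulf b.den (denL l)

/-- rank of a product -/
def rkL : List Bs → ℕ
  | [] => 0
  | b :: l => b.rk + rkL l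

theorem NN_denL (l : List Bs) : NN P (rkL l) (denL l) := by
  induction l with
  | nil =>
    refine ⟨fun p hp => ?_, fun A B hA hB hAB hd => ?_⟩
    · simp only [denL, List.mem_singleton] at hp
      rw [hp]
      rfl
    · simp [ev, denL, evl]
  | cons b l ih => exact (NN_den b).mul ih

/-- nonnegative combinations of products -/
def tot (L : List (ℕ × List Bs)) : Fm := L.flatMap (fun c => smulf c.1 (denL c.2))

theorem NN_tot {n : ℕ} (L : List (ℕ × List Bs)) (h : ∀ c ∈ L, rkL c.2 = n) : NN P n (tot L) := by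
  induction L with
  | nil => exact NN.nil n
  | cons c L ih =>
    have h1 : tot (c :: L) = smulf c.1 (denL c.2) ++ tot L := by simp [tot]
    rw [h1]
    refine NN.add ?_ (ih fun c hc => h c (List.mem_cons_of_mem _ hc))
    have h2 := NN_denL (P := P) c.2
    rw [h c (List.mem_cons_self ..)] at h2
    exact h2.smul c.1

/-- the certificate -/
def cert : List (ℕ × List Bs) := [
  (8726508, [.g 1, .g 1, .a 2, .g 3]),
  (16040696, [.g 1, .g 1, .a 2, .a 2]),
  (21575904, [.a 2, .q]),
  (15538236, [.g 1, .q, .g 2]),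
  (13688640, [.g 6, .g 2]),
  (231170400, [.a 6, .g 1]),
  (970915680, [.g 7, .g 1]),
  (7437948, [.g 1, .g 3, .a 2, .g 1]),
  (11635344, [.g 3, .g 1, .a 2, .g 1]),
  (10929184, [.g 1, .a 2, .g 1, .a 2]),
  (87265080, [.g 1, .a 6]),
  (12319776, [.g 4, .g 4]),
  (5203080, [.g 1, .c 6]),
  (13623456, [.a 2, .a 2, .g 2]),
  (1030722, [.g 1, .g 1, .g 1, .q]),
  (303105600, [.g 5, .g 3]),
  (316794240, [.g 5, .a 2]),
  (74961600, [.h, .g 2]),
  (647277120, [.e' 7]),
  (323638560, [.e 1, .g 6]),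
  (317478672, [.e 3, .g 4]),
  (316794240, [.e 5, .g 2]),
  (118186740, [.g 1, .g 1, .e 5]),
  (107879520, [.g 1, .e' 1, .g 5]),
  (158739336, [.g 1, .g 3, .e 3]),
  (118186740, [.g 1, .g 5, .e 1]),
  (118186740, [.g 1, .e' 5, .g 1]),
  (158739336, [.e' 1, .g 2, .g 4]),
  (158397120, [.e' 1, .g 4, .g 2]),
  (29283912, [.g 3, .g 1, .e 3]),
  (32363856, [.g 3, .e 1, .g 3]),
  (61647768, [.e' 3, .g 1, .g 3]),
  (233358720, [.e' 3, .g 2, .g 2]),
  (64189944, [.e' 3, .g 3, .g 1]),
  (138463038, [.g 1, .g 1, .e' 1, .g 4]),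
  (107215458, [.g 1, .g 1, .e' 3, .g 2]),
  (43151808, [.g 1, .e 1, .g 1, .g 4]),
  (10787952, [.g 1, .e' 1, .g 2, .g 3]),
  (45029922, [.g 1, .e 1, .g 3, .g 2]),
  (59093370, [.g 1, .e 1, .g 4, .g 1]),
  (172741674, [.g 1, .g 3, .e' 1, .g 2]),
  (59093370, [.g 1, .e 3, .g 2, .g 1]),
  (30823884, [.e 1, .g 2, .g 1, .g 3]),
  (116679360, [.e 1, .g 2, .g 2, .g 2]),
  (32094972, [.e 1, .g 2, .g 3, .g 1]),
  (78522276, [.g 3, .g 1, .e' 1, .g 2]),
  (20549256, [.e 3, .g 1, .g 1, .g 2]),
  (69608364, [.e 3, .g 1, .g 2, .g 1]),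
  (45594171, [.g 1, .g 1, .g 1, .g 1, .e' 3]),
  (13788453, [.g 1, .g 1, .g 1, .e 1, .g 3]),
  (29546685, [.g 1, .g 1, .g 1, .g 3, .e' 1]),
  (29546685, [.g 1, .g 1, .g 1, .e 3, .g 1]),
  (31805718, [.g 1, .g 1, .e 1, .g 1, .g 3]),
  (104178291, [.g 1, .g 1, .e 1, .g 2, .g 2]),
  (16047486, [.g 1, .g 1, .e 1, .g 3, .g 1]),
  (29546685, [.g 1, .g 1, .g 3, .g 1, .e' 1]),
  (29546685, [.g 1, .g 1, .g 3, .e 1, .g 1]),
  (17599680, [.g 1, .e' 1, .g 1, .g 2, .g 2]),
  (29546685, [.g 1, .e' 1, .g 2, .g 2, .g 1]),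
  (59914281, [.g 1, .g 3, .g 1, .g 1, .e' 1]),
  (59914281, [.g 1, .g 3, .g 1, .e 1, .g 1]),
  (10274628, [.e' 1, .g 2, .g 1, .g 1, .g 2]),
  (34804182, [.e' 1, .g 2, .g 1, .g 2, .g 1]),
  (28986510, [.g 3, .g 1, .g 1, .g 1, .e' 1]),
  (28986510, [.g 3, .g 1, .g 1, .e 1, .g 1]),
  (65571030, [.g 1, .g 1, .g 1, .g 1, .e 1, .g 2]),
  (8020348, [.g 1, .g 1, .g 1, .e' 1, .g 1, .g 2]),
  (29546685, [.g 1, .g 1, .g 1, .e' 1, .g 2, .g 1]),
  (10601906, [.g 1, .g 1, .e' 1, .g 1, .g 1, .g 2]),
  (17402091, [.g 1, .g 1, .e' 1, .g 1, .g 2, .g 1]),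
  (23474388, [.g 1, .g 1, .g 1, .g 1, .g 1, .g 1, .e 1]),
  (23474388, [.g 1, .g 1, .g 1, .g 1, .g 1, .e' 1, .g 1])
]

/-- the part of the certificate with many vertices -/
def certv : List (ℕ × List Bs) := [
  (423696, [.g 1, .a 2]),
  (1435224, [.a 2, .g 1]),
  (2982168, [.g 3, .g 1])
]

/-- more than 96 vertices -/
def Vf : Fm := [(1, [1, 3]), (-97, [4])]

/-- combinations with `Vf` in the front -/
def totv (L : List (ℕ × List Bs)) : Fm := L.flatMap (fun c => smulf c.1 (mulf Vf (denL c.2)))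

theorem cert_rk : ∀ c ∈ cert, rkL c.2 = 8 := by decide

theorem certv_rk : ∀ c ∈ certv, rkL c.2 = 4 := by decide

theorem cert_chk : chk 200 (tot cert ++ (totv certv ++ [(1294554240, [8])])) = true := by decide +kernel

theorem totv_nonneg {A B : Finset W} (hA : P.Cl A) (hB : P.Cl B) (hAB : A ⊆ B)
    (hd : dm B = dm A + 8) (h : ∀ C ∈ P.fs A B (dm A + 4), 97 ≤ (P.fs A C (dm A + 1)).card)
    (L : List (ℕ × List Bs)) (hL : ∀ c ∈ L, rkL c.2 = 4) : 0 ≤ ev P A B (totv L) := by
  induction L with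
  | nil => exact le_refl _
  | cons c L ih =>
    have h1 : totv (c :: L) = smulf c.1 (mulf Vf (denL c.2)) ++ totv L := by simp [totv]
    have h2 := ih fun c hc => hL c (List.mem_cons_of_mem _ hc)
    rw [ev] at h2 ⊢
    rw [h1, evl_append, evl_smulf]
    refine add_nonneg (mul_nonneg (Int.natCast_nonneg _) ?_) h2
    have h3 : ∀ p ∈ Vf, p.2.sum = 4 := by
      intro p hp
      simp only [Vf, List.mem_cons, List.not_mem_nil, or_false] at hp
      rcases hp with rfl | rfl <;> rfl
    have h4 := ev_mul (B := B) hA hAB Vf (denL c.2) h3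
    rw [ev] at h4
    rw [h4]
    apply Finset.sum_nonneg
    intro C hC
    have h5 := h C hC
    rw [mem_fs] at hC
    have h6 := NN_denL (P := P) c.2
    rw [hL c (List.mem_cons_self ..)] at h6
    refine mul_nonneg ?_ (h6.2 C B hC.1 hB hC.2.2.1 (by omega))
    simp only [ev, Vf, evl_cons, evl_nil]
    rw [fl_one hC.1 hC.2.1 hC.2.2.2, fl_two hC.1 (s := 1) (t := 3) (by omega)]
    have h7 : (97 : ℤ) ≤ ((P.fs A C (dm A + 1)).card : ℤ) := by exact_mod_cast h5
    push_cast
    linarith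

/-- polytopes of dimension seven have a face of dimension three with at most 96 vertices -/
theorem face_three {A B : Finset W} (hA : P.Cl A) (hB : P.Cl B) (hAB : A ⊆ B)
    (hd : dm B = dm A + 8) : ∃ C ∈ P.fs A B (dm A + 4), (P.fs A C (dm A + 1)).card ≤ 96 := by
  by_contra hcon
  push Not at hcon
  have h1 := (NN_tot (P := P) cert cert_rk).2 A B hA hB hAB hd
  have h2 := totv_nonneg hA hB hAB hd (fun C hC => hcon C hC) certv certv_rk
  have h3 := evl_chk (fun w => (fl P B w A : ℤ)) 200 _ cert_chk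
  rw [evl_append, evl_append, evl_cons, evl_nil] at h3
  rw [ev] at h1 h2
  simp only [fl_one hB hAB hd] at h3
  push_cast at h3
  linarith

end Run7.h340
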