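import Pool.Agent.Run7.h340.Star

set_option autoImplicit false
set_option linter.unusedSectionVars false
set_option linter.unusedVariables false

/-!
# Infinitesimal motions of 3-polytopes do not bend the faces
-/

namespace Run7.h340

open Finset Pool.Agent.Helper715 Pool.Agent.Helper715.CP

variable {W : Type*} [NormedAddCommGroup W] [InnerProductSpace ℝ W] [FiniteDimensional ℝ W]

/-- skew operators -/
def Skew (T : W →ₗ[ℝ] W) : Prop := ∀ y z, inner ℝ (T y) z = - inner ℝ (T z) y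

/-- the operator `z ↦ ⟨a,z⟩ b - ⟨b,z⟩ a` -/
noncomputable def wd (a b : W) : W →ₗ[ℝ] W :=
  (innerSL ℝ a).toLinearMap.smulRight b - (innerSL ℝ b).toLinearMap.smulRight a

theorem wd_apply (a b z : W) : wd a b z = (inner ℝ a z : ℝ) • b - (inner ℝ b z : ℝ) • a := by
  simp [wd]

theorem inner_wd (a b y z : W) :
    inner ℝ (wd a b y) z = inner ℝ a y * inner ℝ b z - inner ℝ b y * inner ℝ a z := by
  rw [wd_apply, inner_sub_left, real_inner_smul_left, real_inner_smul_left]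

theorem skew_wd (a b : W) : Skew (wd a b) := by
  intro y z
  rw [inner_wd, inner_wd]
  ring

theorem Skew.add {S T : W →ₗ[ℝ] W} (hS : Skew S) (hT : Skew T) : Skew (S + T) := by
  intro y z
  rw [LinearMap.add_apply, LinearMap.add_apply, inner_add_left, inner_add_left, hS y z, hT y z]
  ring

theorem Skew.smul {T : W →ₗ[ℝ] W} (hT : Skew T) (c : ℝ) : Skew (c • T) := by
  intro y z
  rw [LinearMap.smul_apply, LinearMap.smul_apply, real_inner_smul_left, real_inner_smul_left, hT y z]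
  ring

theorem Skew.sub {S T : W →ₗ[ℝ] W} (hS : Skew S) (hT : Skew T) : Skew (S - T) := by
  intro y z
  rw [LinearMap.sub_apply, LinearMap.sub_apply, inner_sub_left, inner_sub_left, hS y z, hT y z]
  ring

theorem Skew.self {T : W →ₗ[ℝ] W} (hT : Skew T) (y : W) : inner ℝ (T y) y = 0 := by
  have := hT y y
  linarith

variable {P : CP W} {x φ : Finset W → W}

theorem Mot.add (hm : Mot P x φ) {T : W →ₗ[ℝ] W} (hT : Skew T) :
    Mot P x (fun X => φ X + T (x X)) where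
  mem := hm.mem
  nz := hm.nz
  self := fun X hX hd => by
    rw [inner_add_left, hm.self X hX hd, hT.self, add_zero]
  anti := fun X Y F hX hY hF dX dY dF hXF hYF => by
    rw [inner_add_left, inner_add_left, hm.anti X Y F hX hY hF dX dY dF hXF hYF, hT (x X) (x Y)]
    ring

theorem Mot.neg (hm : Mot P x φ) : Mot P x (fun X => - φ X) where
  mem := hm.mem
  nz := hm.nz
  self := fun X hX hd => by
    rw [inner_neg_left, hm.self X hX hd, neg_zero]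
  anti := fun X Y F hX hY hF dX dY dF hXF hYF => by
    rw [inner_neg_left, inner_neg_left, hm.anti X Y F hX hY hF dX dY dF hXF hYF]

theorem exists_eps {ι : Type*} (s : Finset ι) (a b : ι → ℝ) :
    ∃ ε : ℝ, 0 < ε ∧ ∀ i ∈ s, (0 < a i → 0 < a i + ε * b i) ∧ (a i < 0 → a i + ε * b i < 0) := by
  have h1 : ∀ᶠ ε : ℝ in nhdsWithin 0 (Set.Ioi 0), ∀ i ∈ s,
      (0 < a i → 0 < a i + ε * b i) ∧ (a i < 0 → a i + ε * b i < 0) := by
    rw [Filter.eventually_all_finset]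
    intro i _
    have hcont : Filter.Tendsto (fun e : ℝ => a i + e * b i) (nhdsWithin 0 (Set.Ioi 0))
        (nhds (a i)) := by
      have h1 : Filter.Tendsto (fun e : ℝ => a i + e * b i) (nhds 0) (nhds (a i + 0 * b i)) :=
        (continuous_const.add (continuous_id.mul continuous_const)).tendsto 0
      rw [zero_mul, add_zero] at h1
      exact h1.mono_left nhdsWithin_le_nhds
    rcases lt_trichotomy (a i) 0 with h | h | h
    · filter_upwards [hcont.eventually_lt_const h] with e he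
      exact ⟨fun h' => absurd h' (not_lt.2 h.le), fun _ => he⟩
    · filter_upwards with e
      exact ⟨fun h' => absurd h' (by rw [h]; exact lt_irrefl _),
        fun h' => absurd h' (by rw [h]; exact lt_irrefl _)⟩
    · filter_upwards [hcont.eventually_const_lt h] with e he
      exact ⟨fun _ => he, fun h' => absurd h' (not_lt.2 h.le)⟩
  obtain ⟨ε, h2, h3⟩ := (h1.and self_mem_nhdsWithin).exists
  exact ⟨ε, h3, h2⟩

/-- a functional that is positive somewhere on a closed set is positive at the representative of an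
atom -/
theorem pos_atom (hm : Mot P x φ) {F : Finset W} (hF : P.Cl F) {z : W}
    (h : ∃ y ∈ F, 0 < inner ℝ z y) :
    ∃ Z, P.Cl Z ∧ dm Z = 1 ∧ Z ⊆ F ∧ 0 < inner ℝ z (x Z) := by
  obtain ⟨Z, hZ, _, hZF, hd, c, hc, hc0⟩ := cover_up bot_cl hF (bot_le hF) (inner_bot z) h
  rw [dm_bot, zero_add] at hd
  refine ⟨Z, hZ, hd, hZF, ?_⟩
  obtain ⟨ρ, hρ⟩ := exists_ratio bot_cl (atom_cov hZ hd) (inner_bot z)
  rw [hρ c hc] at hc0
  rw [hρ _ (hm.mem Z hZ hd)]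
  have h1 := gs_nonneg (P := P) P.bot (hZ.sub hc)
  have h2 := hm.pos hZ hd
  have h3 : 0 < ρ := by
    by_contra hcon
    push Not at hcon
    have := mul_nonneg (neg_nonneg.2 hcon) h1
    linarith
  exact mul_pos h3 h2

theorem gs_atom_pos (hm : Mot P x φ) {F Z : Finset W} (hF : P.Cl F) (hZ : P.Cl Z) (hd : dm Z = 1)
    (h : ¬ Z ⊆ F) : 0 < inner ℝ (P.gs F) (x Z) :=
  gs_pos hF (hZ.sub (hm.mem Z hZ hd)) (fun h' => h (atom_sub hZ hd hF (hm.mem Z hZ hd)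
    (hm.nz Z hZ hd) h'))

theorem not_sub_atom {Z S : Finset W} (hZ : P.Cl Z) (dZ : dm Z = 1) (hS : P.Cl S) (dS : dm S = 1)
    (h : Z ≠ S) : ¬ Z ⊆ S := fun h' => h (eq_of_dm_le hZ hS h' (by rw [dZ, dS]))

/-- a generic skew operator -/
theorem exists_generic_skew (hm : Mot P x φ) : ∃ T : W →ₗ[ℝ] W, Skew T ∧
    ∀ Z Z', P.Cl Z → dm Z = 1 → P.Cl Z' → dm Z' = 1 → Z ≠ Z' → inner ℝ (T (x Z)) (x Z') ≠ 0 := by
  obtain ⟨q, r, _, hr, _, _, hinj⟩ := exists_perturb (P := P) (A := P.bot) (B := P.V) bot_cl top_cl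
    (z := P.gs P.bot) (fun a ha => gs_zero ha)
    (fun Y hY => by
      obtain ⟨y, hy, hyA⟩ := hY.exists_nm bot_cl
      exact ⟨y, hy, (gs_pos bot_cl (hY.cl.sub hy) hyA).ne'⟩)
  refine ⟨wd (P.gs P.bot) q, skew_wd _ _, ?_⟩
  intro Z Z' hZ dZ hZ' dZ' hne h
  have c1 : P.Cov P.bot P.V Z := ⟨hZ, bot_le hZ, hZ.sub, by rw [dm_bot, dZ]⟩
  have c2 : P.Cov P.bot P.V Z' := ⟨hZ', bot_le hZ', hZ'.sub, by rw [dm_bot, dZ']⟩
  rw [inner_wd, hr Z c1 _ (hm.mem Z hZ dZ), hr Z' c2 _ (hm.mem Z' hZ' dZ')] at h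
  have p1 := hm.pos hZ dZ
  have p2 := hm.pos hZ' dZ'
  have h2 : (inner ℝ (P.gs P.bot) (x Z) * inner ℝ (P.gs P.bot) (x Z')) * (r Z' - r Z) = 0 := by
    linarith
  rcases mul_eq_zero.1 h2 with h3 | h3
  · exact absurd h3 (mul_pos p1 p2).ne'
  · exact hne (hinj Z Z' c1 c2 (by linarith))

/-- the other atom of an edge -/
theorem other_atom {X E : Finset W} (hX : P.Cl X) (dX : dm X = 1) (hE : P.Cl E) (dE : dm E = 2)
    (hXE : X ⊆ E) : ∃ Y, P.Cl Y ∧ dm Y = 1 ∧ Y ⊆ E ∧ Y ≠ X ∧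
      ∀ Z, P.Cl Z → dm Z = 1 → Z ⊆ E → Z = X ∨ Z = Y := by
  classical
  have h := card_ends hE dE
  have hmem : X ∈ P.fs P.bot E 1 := mem_fs.2 ⟨hX, bot_le hX, hXE, dX⟩
  obtain ⟨a, b, hab, hs⟩ := Finset.card_eq_two.1 h
  have hall : ∀ Z, P.Cl Z → dm Z = 1 → Z ⊆ E → Z = a ∨ Z = b := by
    intro Z hZ dZ hZE
    have : Z ∈ P.fs P.bot E 1 := mem_fs.2 ⟨hZ, bot_le hZ, hZE, dZ⟩
    rw [hs, Finset.mem_insert, Finset.mem_singleton] at this
    exact this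
  have ha : a ∈ P.fs P.bot E 1 := by rw [hs]; simp
  have hb : b ∈ P.fs P.bot E 1 := by rw [hs]; simp
  rw [mem_fs] at ha hb
  rcases hall X hX dX hXE with rfl | rfl
  · exact ⟨b, hb.1, hb.2.2.2, hb.2.2.1, hab.symm, hall⟩
  · exact ⟨a, ha.1, ha.2.2.2, ha.2.2.1, hab, fun Z h1 h2 h3 => (hall Z h1 h2 h3).symm⟩

/-- the key contradiction -/
theorem key_bend (hW : Module.finrank ℝ W = 4) (hm : Mot P x φ) {F₀ : Finset W} (hF : P.Cl F₀)
    (dF : dm F₀ = 3) (H : Finset W → ℝ)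
    (hH : ∀ Z, P.Cl Z → dm Z = 1 → Z ⊆ F₀ → φ Z = H Z • P.gs F₀)
    {E S X Y T : Finset W} (hE : P.Cl E) (dE : dm E = 2) (hEF : E ⊆ F₀)
    (hX : P.Cl X) (dX : dm X = 1) (hXE : X ⊆ E) (hY : P.Cl Y) (dY : dm Y = 1) (hYE : Y ⊆ E)
    (hS : P.Cl S) (dS : dm S = 1) (hSF : S ⊆ F₀) (hT : P.Cl T) (dT : dm T = 1) (hTF : T ⊆ F₀)
    (hXY : X ≠ Y) (hST : S ≠ T) (hSX : S ≠ X) (hSY : S ≠ Y) (hTX : T ≠ X) (hTY : T ≠ Y)
    {cS cX cY cT : ℝ} (pS : 0 < cS) (pX : 0 < cX) (pY : 0 < cY) (pT : 0 < cT)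
    (hrel : cS • x S + cY • x Y = cX • x X + cT • x T)
    (h1 : H S < 0) (h2 : H Y < 0) (h3 : 0 < H X) (h4 : 0 < H T) : False := by
  classical
  have hV : dm P.V = 4 := by rw [dm_top, hW]
  -- the first operator
  set T₁ : W →ₗ[ℝ] W := wd (P.gs S) (P.gs T) with hT₁
  obtain ⟨T₂, hT₂, hgen⟩ := exists_generic_skew hm
  set Va := P.fs P.bot P.V 1 with hVa
  have memVa : ∀ Z, Z ∈ Va ↔ P.Cl Z ∧ dm Z = 1 := by
    intro Z
    rw [hVa, mem_fs]
    exact ⟨fun h => ⟨h.1, h.2.2.2⟩, fun h => ⟨h.1, bot_le h.1, h.1.sub, h.2⟩⟩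
  obtain ⟨δ, hδ, hδ'⟩ := exists_eps (Va ×ˢ Va) (fun p => inner ℝ (T₁ (x p.1)) (x p.2))
    (fun p => inner ℝ (T₂ (x p.1)) (x p.2))
  set T' : W →ₗ[ℝ] W := T₁ + δ • T₂ with hT'
  have skT' : Skew T' := (skew_wd _ _).add (hT₂.smul δ)
  have evT' : ∀ y z, inner ℝ (T' y) z = inner ℝ (T₁ y) z + δ * inner ℝ (T₂ y) z := by
    intro y z
    rw [hT', LinearMap.add_apply, LinearMap.smul_apply, inner_add_left, real_inner_smul_left]
  have T'pos : ∀ Z Z', P.Cl Z → dm Z = 1 → P.Cl Z' → dm Z' = 1 →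
      0 < inner ℝ (T₁ (x Z)) (x Z') → 0 < inner ℝ (T' (x Z)) (x Z') := by
    intro Z Z' a b c d h
    rw [evT']
    exact (hδ' (Z, Z') (Finset.mem_product.2 ⟨(memVa Z).2 ⟨a, b⟩, (memVa Z').2 ⟨c, d⟩⟩)).1 h
  have T'neg : ∀ Z Z', P.Cl Z → dm Z = 1 → P.Cl Z' → dm Z' = 1 →
      inner ℝ (T₁ (x Z)) (x Z') < 0 → inner ℝ (T' (x Z)) (x Z') < 0 := by
    intro Z Z' a b c d h
    rw [evT']
    exact (hδ' (Z, Z') (Finset.mem_product.2 ⟨(memVa Z).2 ⟨a, b⟩, (memVa Z').2 ⟨c, d⟩⟩)).2 h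
  have T'ne : ∀ Z Z', P.Cl Z → dm Z = 1 → P.Cl Z' → dm Z' = 1 → Z ≠ Z' →
      inner ℝ (T' (x Z)) (x Z') ≠ 0 := by
    intro Z Z' a b c d h
    rcases lt_trichotomy (inner ℝ (T₁ (x Z)) (x Z')) 0 with g | g | g
    · exact (T'neg Z Z' a b c d g).ne
    · rw [evT', g, zero_add]
      exact mul_ne_zero hδ.ne' (hgen Z Z' a b c d h)
    · exact (T'pos Z Z' a b c d g).ne'
  obtain ⟨ε, hε, hε'⟩ := exists_eps (Va ×ˢ Va) (fun p => inner ℝ (φ p.1) (x p.2))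
    (fun p => inner ℝ (T' (x p.1)) (x p.2))
  have hm' : Mot P x (fun Z => φ Z + (ε • T') (x Z)) := hm.add (skT'.smul ε)
  set φ' : Finset W → W := fun Z => φ Z + (ε • T') (x Z) with hφ'
  have evφ : ∀ Z z, inner ℝ (φ' Z) z = inner ℝ (φ Z) z + ε * inner ℝ (T' (x Z)) z := by
    intro Z z
    rw [hφ']
    simp only
    rw [inner_add_left, LinearMap.smul_apply, real_inner_smul_left]
  have φpos : ∀ Z Z', P.Cl Z → dm Z = 1 → P.Cl Z' → dm Z' = 1 →
      0 < inner ℝ (φ Z) (x Z') → 0 < inner ℝ (φ' Z) (x Z') := by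
    intro Z Z' a b c d h
    rw [evφ]
    exact (hε' (Z, Z') (Finset.mem_product.2 ⟨(memVa Z).2 ⟨a, b⟩, (memVa Z').2 ⟨c, d⟩⟩)).1 h
  have φneg : ∀ Z Z', P.Cl Z → dm Z = 1 → P.Cl Z' → dm Z' = 1 →
      inner ℝ (φ Z) (x Z') < 0 → inner ℝ (φ' Z) (x Z') < 0 := by
    intro Z Z' a b c d h
    rw [evφ]
    exact (hε' (Z, Z') (Finset.mem_product.2 ⟨(memVa Z).2 ⟨a, b⟩, (memVa Z').2 ⟨c, d⟩⟩)).2 h
  have φne : ∀ Z Z', P.Cl Z → dm Z = 1 → P.Cl Z' → dm Z' = 1 → Z ≠ Z' →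
      inner ℝ (φ' Z) (x Z') ≠ 0 := by
    intro Z Z' a b c d h
    rcases lt_trichotomy (inner ℝ (φ Z) (x Z')) 0 with g | g | g
    · exact (φneg Z Z' a b c d g).ne
    · rw [evφ, g, zero_add]
      exact mul_ne_zero hε.ne' (T'ne Z Z' a b c d h)
    · exact (φpos Z Z' a b c d g).ne'
  -- values on the face
  have hn0 : ∀ Z, P.Cl Z → dm Z = 1 → Z ⊆ F₀ → inner ℝ (P.gs F₀) (x Z) = 0 :=
    fun Z a b c => gs_zero (c (hm.mem Z a b))
  have hn1 : ∀ Z, P.Cl Z → dm Z = 1 → ¬ Z ⊆ F₀ → 0 < inner ℝ (P.gs F₀) (x Z) :=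
    fun Z a b c => gs_atom_pos hm hF a b c
  have gSS : inner ℝ (P.gs S) (x S) = 0 := gs_zero (hm.mem S hS dS)
  have gTT : inner ℝ (P.gs T) (x T) = 0 := gs_zero (hm.mem T hT dT)
  have gSp : ∀ Z, P.Cl Z → dm Z = 1 → Z ≠ S → 0 < inner ℝ (P.gs S) (x Z) :=
    fun Z a b c => gs_atom_pos hm hS a b (not_sub_atom a b hS dS c)
  have gTp : ∀ Z, P.Cl Z → dm Z = 1 → Z ≠ T → 0 < inner ℝ (P.gs T) (x Z) :=
    fun Z a b c => gs_atom_pos hm hT a b (not_sub_atom a b hT dT c)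
  -- the relation
  have rS : cY * inner ℝ (P.gs S) (x Y) = cX * inner ℝ (P.gs S) (x X) + cT * inner ℝ (P.gs S) (x T) := by
    have := congrArg (fun v => inner ℝ (P.gs S) v) hrel
    simp only [inner_add_right, real_inner_smul_right] at this
    rw [gSS] at this
    linarith
  have rT : cS * inner ℝ (P.gs T) (x S) + cY * inner ℝ (P.gs T) (x Y) =
      cX * inner ℝ (P.gs T) (x X) := by
    have := congrArg (fun v => inner ℝ (P.gs T) v) hrel
    simp only [inner_add_right, real_inner_smul_right] at this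
    rw [gTT] at this
    linarith
  have hXYneg : inner ℝ (T₁ (x X)) (x Y) < 0 := by
    rw [hT₁, inner_wd]
    have q1 := gSp X hX dX hSX.symm
    have q2 := gSp Y hY dY hSY.symm
    have q3 := gSp T hT dT hST.symm
    have q4 := gTp X hX dX hTX.symm
    have q5 := gTp Y hY dY hTY.symm
    have q6 := gTp S hS dS hST
    have e : (cX * cY) * (inner ℝ (P.gs S) (x X) * inner ℝ (P.gs T) (x Y) -
        inner ℝ (P.gs T) (x X) * inner ℝ (P.gs S) (x Y)) =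
        -(cS * inner ℝ (P.gs T) (x S) * (cX * inner ℝ (P.gs S) (x X)) +
          cS * inner ℝ (P.gs T) (x S) * (cT * inner ℝ (P.gs S) (x T)) +
          cY * inner ℝ (P.gs T) (x Y) * (cT * inner ℝ (P.gs S) (x T))) := by
      have e1 : (cX * cY) * (inner ℝ (P.gs S) (x X) * inner ℝ (P.gs T) (x Y) -
        inner ℝ (P.gs T) (x X) * inner ℝ (P.gs S) (x Y)) =
          cX * inner ℝ (P.gs S) (x X) * (cY * inner ℝ (P.gs T) (x Y)) -
          (cX * inner ℝ (P.gs T) (x X)) * (cY * inner ℝ (P.gs S) (x Y)) := by ring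
      rw [e1, rS, ← rT]
      ring
    have hpos : 0 < cS * inner ℝ (P.gs T) (x S) * (cX * inner ℝ (P.gs S) (x X)) +
          cS * inner ℝ (P.gs T) (x S) * (cT * inner ℝ (P.gs S) (x T)) +
          cY * inner ℝ (P.gs T) (x Y) * (cT * inner ℝ (P.gs S) (x T)) := by positivity
    by_contra hcon
    push Not at hcon
    have := mul_nonneg (mul_pos pX pY).le hcon
    linarith
  have hYXpos : 0 < inner ℝ (T₁ (x Y)) (x X) := by
    have := skew_wd (P.gs S) (P.gs T) (x Y) (x X)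
    rw [← hT₁] at this
    linarith
  -- the other face at `E`
  obtain ⟨F₁, hF₁, dF₁, hEF₁, hne⟩ : ∃ F₁, P.Cl F₁ ∧ dm F₁ = 3 ∧ E ⊆ F₁ ∧ F₁ ≠ F₀ := by
    have h := euler2 hE top_cl hE.sub (by rw [hV, dE])
    rw [dE] at h
    obtain ⟨a, b, hab, hs⟩ := Finset.card_eq_two.1 h
    have ha : a ∈ P.fs E P.V (2 + 1) := by rw [hs]; simp
    have hb : b ∈ P.fs E P.V (2 + 1) := by rw [hs]; simp
    rw [mem_fs] at ha hb
    by_cases haF : a = F₀
    · exact ⟨b, hb.1, hb.2.2.2, hb.2.1, by rw [← haF]; exact hab.symm⟩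
    · exact ⟨a, ha.1, ha.2.2.2, ha.2.1, haF⟩
  have hinter : ∀ Z, P.Cl Z → dm Z = 1 → Z ⊆ F₁ → Z ⊆ F₀ → Z = X ∨ Z = Y := by
    intro Z a b c d
    have hI : P.Cl (F₀ ∩ F₁) := Cl_inter hF hF₁
    have hI2 : dm (F₀ ∩ F₁) < 3 := by
      rw [← dF₁]
      apply dm_lt hI hF₁ Finset.inter_subset_right
      intro h
      apply hne
      have : F₁ ⊆ F₀ := by rw [← h]; exact Finset.inter_subset_left
      exact eq_of_dm_le hF₁ hF this (by rw [dF, dF₁])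
    have hEI : E ⊆ F₀ ∩ F₁ := Finset.subset_inter hEF hEF₁
    have hEq : E = F₀ ∩ F₁ := eq_of_dm_le hE hI hEI (by omega)
    have hZE : Z ⊆ E := by rw [hEq]; exact Finset.subset_inter d c
    obtain ⟨Y', g1, g2, g3, g4, g5⟩ := other_atom hX dX hE dE hXE
    have hYY : Y = Y' := (g5 Y hY dY hYE).resolve_left hXY.symm
    rw [hYY]
    exact g5 Z a b hZE
  obtain ⟨Z₁, hZ₁, dZ₁, hZ₁F, hZ₁E⟩ : ∃ Z₁, P.Cl Z₁ ∧ dm Z₁ = 1 ∧ Z₁ ⊆ F₁ ∧ ¬ Z₁ ⊆ E := by
    by_contra hcon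
    push Not at hcon
    have : F₁ ⊆ E := by
      apply sub_of_atoms hF₁ hE
      intro v hv
      rw [mem_fs] at hv
      exact hcon v hv.1 hv.2.2.2 hv.2.2.1
    have := dm_mono this
    omega
  have hZ₁F₀ : ¬ Z₁ ⊆ F₀ := by
    intro h
    rcases hinter Z₁ hZ₁ dZ₁ hZ₁F h with rfl | rfl
    · exact hZ₁E hXE
    · exact hZ₁E hYE
  -- events
  have sNeg : ∀ Z, P.Cl Z → dm Z = 1 → Z ≠ S → inner ℝ (φ' S) (x Z) < 0 := by
    intro Z a b c
    by_cases hZ : Z ⊆ F₀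
    · have e0 : inner ℝ (φ S) (x Z) = 0 := by
        rw [hH S hS dS hSF, real_inner_smul_left, hn0 Z a b hZ, mul_zero]
      rw [evφ, e0, zero_add]
      apply mul_neg_of_pos_of_neg hε
      apply T'neg S Z hS dS a b
      rw [hT₁, inner_wd, gSS, zero_mul, zero_sub, neg_lt_zero]
      exact mul_pos (gTp S hS dS hST) (gSp Z a b c)
    · apply φneg S Z hS dS a b
      rw [hH S hS dS hSF, real_inner_smul_left]
      exact mul_neg_of_neg_of_pos h1 (hn1 Z a b hZ)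
  have tPos : ∀ Z, P.Cl Z → dm Z = 1 → Z ≠ T → 0 < inner ℝ (φ' T) (x Z) := by
    intro Z a b c
    by_cases hZ : Z ⊆ F₀
    · have e0 : inner ℝ (φ T) (x Z) = 0 := by
        rw [hH T hT dT hTF, real_inner_smul_left, hn0 Z a b hZ, mul_zero]
      rw [evφ, e0, zero_add]
      apply mul_pos hε
      apply T'pos T Z hT dT a b
      rw [hT₁, inner_wd, gTT, zero_mul, sub_zero]
      exact mul_pos (gSp T hT dT hST.symm) (gTp Z a b c)
    · apply φpos T Z hT dT a b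
      rw [hH T hT dT hTF, real_inner_smul_left]
      exact mul_pos h4 (hn1 Z a b hZ)
  have hstar := star (P := P) (x := x) (φ := φ') hW hm' (by
    intro Z E' hZ hE' dZ dE' hZE'
    obtain ⟨Z', g1, g2, g3, g4, _⟩ := other_atom hZ dZ hE' dE' hZE'
    exact ⟨x Z', g3 (hm.mem Z' g1 g2), φne Z Z' hZ dZ g1 g2 g4.symm⟩) {S, T} {F₁} (by
    intro Z hZ
    rw [Finset.mem_insert, Finset.mem_singleton] at hZ
    rcases hZ with rfl | rfl
    · refine ⟨(memVa _).2 ⟨hS, dS⟩, fun hmix => ?_⟩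
      obtain ⟨Z', g1, g2, _, g4⟩ := pos_atom hm top_cl hmix.1
      by_cases hZZ : Z' = Z
      · rw [hZZ, hm'.self Z hS dS] at g4
        exact lt_irrefl _ g4
      · linarith [sNeg Z' g1 g2 hZZ]
    · refine ⟨(memVa _).2 ⟨hT, dT⟩, fun hmix => ?_⟩
      obtain ⟨y, hy, hy0⟩ := hmix.2
      obtain ⟨Z', g1, g2, _, g4⟩ := pos_atom hm top_cl (z := -(φ' Z))
        ⟨y, hy, by rw [inner_neg_left]; linarith⟩
      rw [inner_neg_left] at g4
      by_cases hZZ : Z' = Z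
      · rw [hZZ, hm'.self Z hT dT] at g4
        simp at g4
      · linarith [tPos Z' g1 g2 hZZ]) (by
    intro F hFm
    rw [Finset.mem_singleton] at hFm
    subst hFm
    refine ⟨mem_fs.2 ⟨hF₁, bot_le hF₁, hF₁.sub, dF₁⟩, ?_⟩
    intro Z hZ
    rw [mem_fs] at hZ
    obtain ⟨hZc, _, hZF₁, dZ⟩ := hZ
    by_cases hZX : Z = X
    · subst hZX
      refine ⟨⟨x Z₁, hZ₁F (hm.mem Z₁ hZ₁ dZ₁), ?_⟩, ⟨x Y, hEF₁ (hYE (hm.mem Y hY dY)), ?_⟩⟩
      · apply φpos Z Z₁ hZc dZ hZ₁ dZ₁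
        rw [hH Z hZc dZ (hXE.trans hEF), real_inner_smul_left]
        exact mul_pos h3 (hn1 Z₁ hZ₁ dZ₁ hZ₁F₀)
      · have e0 : inner ℝ (φ Z) (x Y) = 0 := by
          rw [hH Z hZc dZ (hXE.trans hEF), real_inner_smul_left, hn0 Y hY dY (hYE.trans hEF),
            mul_zero]
        rw [evφ, e0, zero_add]
        exact mul_neg_of_pos_of_neg hε (T'neg Z Y hZc dZ hY dY hXYneg)
    by_cases hZY : Z = Y
    · subst hZY
      refine ⟨⟨x X, hEF₁ (hXE (hm.mem X hX dX)), ?_⟩, ⟨x Z₁, hZ₁F (hm.mem Z₁ hZ₁ dZ₁), ?_⟩⟩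
      · have e0 : inner ℝ (φ Z) (x X) = 0 := by
          rw [hH Z hZc dZ (hYE.trans hEF), real_inner_smul_left, hn0 X hX dX (hXE.trans hEF),
            mul_zero]
        rw [evφ, e0, zero_add]
        exact mul_pos hε (T'pos Z X hZc dZ hX dX hYXpos)
      · apply φneg Z Z₁ hZc dZ hZ₁ dZ₁
        rw [hH Z hZc dZ (hYE.trans hEF), real_inner_smul_left]
        exact mul_neg_of_neg_of_pos h2 (hn1 Z₁ hZ₁ dZ₁ hZ₁F₀)
    have hZF₀ : ¬ Z ⊆ F₀ := by
      intro h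
      rcases hinter Z hZc dZ hZF₁ h with h' | h'
      · exact hZX h'
      · exact hZY h'
    have hp := hn1 Z hZc dZ hZF₀
    refine ⟨⟨x Y, hEF₁ (hYE (hm.mem Y hY dY)), ?_⟩, ⟨x X, hEF₁ (hXE (hm.mem X hX dX)), ?_⟩⟩
    · apply φpos Z Y hZc dZ hY dY
      rw [hm.anti Z Y F hZc hY hF₁ dZ dY dF₁ hZF₁ (hYE.trans hEF₁), hH Y hY dY (hYE.trans hEF),
        real_inner_smul_left]
      have := mul_pos (neg_pos.2 h2) hp
      linarith
    · apply φneg Z X hZc dZ hX dX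
      rw [hm.anti Z X F hZc hX hF₁ dZ dX dF₁ hZF₁ (hXE.trans hEF₁), hH X hX dX (hXE.trans hEF),
        real_inner_smul_left]
      have := mul_pos h3 hp
      linarith)
  rw [Finset.card_pair hST, Finset.card_singleton] at hstar
  omega

end Run7.h340
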