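import Pool.Agent.Run7.h340.Types

set_option autoImplicit false
set_option linter.unusedSectionVars false
set_option linter.unusedVariables false

/-!
# From closed sets to faces of polytopes
-/

namespace Run7.h340

open Finset Pool.Agent.Helper715 Pool.Agent.Helper715.CP

variable {E : Type*} [NormedAddCommGroup E] [InnerProductSpace ℝ E] [FiniteDimensional ℝ E]
variable {C : CP (WithLp 2 (E × ℝ))} {S : Finset E}
variable (hP : (C.V : Set (WithLp 2 (E × ℝ))) = hm '' (S : Set E))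
include hP

theorem toF_inter_sub {A : Finset (WithLp 2 (E × ℝ))} (hA : C.Cl A) {s : E} (hs : s ∈ S) :
    s ∈ toF C S A ↔ hm s ∈ A := by
  constructor
  · intro h
    rw [← toA_toF hP hA, mem_toA]
    exact ⟨(hm_mem_V hP).2 hs, s, h, rfl⟩
  · intro h
    exact ⟨subset_convexHull ℝ _ hs, gs_zero h⟩

theorem toA_cl_trans {F G : Set E} (hF : IsExposed ℝ (convexHull ℝ (S : Set E)) F)
    (hG : IsExposed ℝ F G) (hne : G.Nonempty) : C.Cl (toA C G) := by
  obtain ⟨l, hl⟩ := hG hne
  have hneF : F.Nonempty := hne.mono hG.subset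
  obtain ⟨g, hg⟩ := dual_inner l
  obtain ⟨x0, hx0⟩ := hne
  have hx0' := hx0
  rw [hl] at hx0'
  have hz : ∀ x, inner ℝ (WithLp.toLp 2 (-g, l x0) : WithLp 2 (E × ℝ)) (hm x) = l x0 - l x := by
    intro x
    rw [inner_hm]
    change inner ℝ (-g) x + l x0 = l x0 - l x
    rw [inner_neg_left, ← hg]
    ring
  apply CP.Cl_filter (toA_cl hP hF hneF) (z := WithLp.toLp 2 (-g, l x0))
  · intro v hv
    rw [mem_toA] at hv
    obtain ⟨_, x, hx, rfl⟩ := hv
    rw [hz]
    linarith [hx0'.2 x hx]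
  · intro v
    rw [mem_toA, mem_toA]
    constructor
    · rintro ⟨hv, x, hx, rfl⟩
      refine ⟨⟨hv, x, hG.subset hx, rfl⟩, ?_⟩
      rw [hz]
      rw [hl] at hx
      linarith [hx.2 x0 hx0'.1, hx0'.2 x hx.1]
    · rintro ⟨⟨hv, x, hx, rfl⟩, h0⟩
      refine ⟨hv, x, ?_, rfl⟩
      rw [hz] at h0
      rw [hl]
      exact ⟨hx, fun y hy => by linarith [hx0'.2 y hy]⟩

theorem toF_toA_trans {F G : Set E} (hF : IsExposed ℝ (convexHull ℝ (S : Set E)) F)
    (hG : IsExposed ℝ F G) (hne : G.Nonempty) : toF C S (toA C G) = G := by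
  classical
  have hcl := toA_cl_trans hP hF hG hne
  have hFc : Convex ℝ F := hF.convex (convex_convexHull ℝ _)
  have hGc : Convex ℝ G := hG.convex hFc
  have hSG : ∀ s ∈ S, (s ∈ toF C S (toA C G) ↔ s ∈ G) := by
    intro s hs
    rw [toF_inter_sub hP hcl hs, mem_toA]
    constructor
    · rintro ⟨_, x, hx, h⟩
      rwa [← hm_inj h]
    · intro h
      exact ⟨(hm_mem_V hP).2 hs, s, h, rfl⟩
  apply Set.Subset.antisymm
  · intro x hx
    have h1 := mem_exposed_hull (toF_exposed hP (toA C G)) hx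
    refine convexHull_min ?_ hGc h1
    rintro s ⟨hs, hsF⟩
    exact (hSG s hs).1 hsF
  · intro x hx
    have hFe : F = convexHull ℝ ((S.filter (fun s => s ∈ F) : Finset E) : Set E) := by
      conv_lhs => rw [exposed_eq_hull hF]
      congr 1
      ext s
      simp
    rw [hFe] at hG
    have h1 := mem_exposed_hull hG hx
    refine convexHull_min ?_ ((toF_exposed hP _).convex (convex_convexHull ℝ _)) h1
    rintro s ⟨hs, hsG⟩
    have hs' : s ∈ S := (Finset.mem_filter.1 (Finset.mem_coe.1 hs)).1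
    exact (hSG s hs').2 hsG

/-- the number of exposed faces of a face with few vertices -/
theorem card_exposed_le {F : Set E} (hF : IsExposed ℝ (convexHull ℝ (S : Set E)) F)
    (hne : F.Nonempty) {N : ℕ} (hN : (C.fs C.bot (toA C F) 1).card ≤ N) :
    Finite {G : Set E | IsExposed ℝ F G} ∧ Nat.card {G : Set E | IsExposed ℝ F G} ≤ 2 ^ N := by
  classical
  set T := C.fs C.bot (toA C F) 1 with hT
  let f : {G : Set E | IsExposed ℝ F G} → {x // x ∈ T.powerset} := fun G =>
    ⟨T.filter (fun v => v ⊆ toA C G.1), Finset.mem_powerset.2 (Finset.filter_subset _ _)⟩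
  have hatom : ∀ G : Set E, IsExposed ℝ F G → G.Nonempty → ∃ v ∈ T, v ⊆ toA C G := by
    intro G hG hGne
    have hcl := toA_cl_trans hP hF hG hGne
    have hG' : IsExposed ℝ (convexHull ℝ (S : Set E)) G := by
      rw [← toF_toA_trans hP hF hG hGne]
      exact toF_exposed hP _
    have hd := dm_toA hP hG' hGne
    obtain ⟨v, hv, g1, g2, g3⟩ := exists_mid bot_cl hcl (bot_le hcl) (j := 1)
      (by rw [dm_bot]; omega) (by omega)
    exact ⟨v, mem_fs.2 ⟨hv, g1, g2.trans (toA_mono hP hG.subset), g3⟩, g2⟩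
  have hempty : ∀ v ∈ T, ¬ v ⊆ toA C (∅ : Set E) := by
    intro v hv hsub
    rw [hT, mem_fs] at hv
    have hv0 : v = ∅ := by
      rw [Finset.eq_empty_iff_forall_notMem]
      intro w hw
      have := hsub hw
      rw [mem_toA] at this
      obtain ⟨_, x, hx, _⟩ := this
      exact hx
    rw [hv0] at hv
    have h1 := hv.2.2.2
    rw [dm, Finset.coe_empty, Submodule.span_empty, finrank_bot] at h1
    omega
  have key : ∀ G G' : Set E, IsExposed ℝ F G → IsExposed ℝ F G' →
      T.filter (fun v => v ⊆ toA C G) ⊆ T.filter (fun v => v ⊆ toA C G') → G ⊆ G' := by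
    intro G G' hG hG' h
    rcases Set.eq_empty_or_nonempty G with h0 | hGne
    · rw [h0]; exact Set.empty_subset _
    obtain ⟨v, hv, hvG⟩ := hatom G hG hGne
    have hvG' := (Finset.mem_filter.1 (h (Finset.mem_filter.2 ⟨hv, hvG⟩))).2
    have hGne' : G'.Nonempty := by
      rw [Set.nonempty_iff_ne_empty]
      rintro rfl
      exact hempty v hv hvG'
    have hcl := toA_cl_trans hP hF hG hGne
    have hcl' := toA_cl_trans hP hF hG' hGne'
    have hsub : toA C G ⊆ toA C G' := by
      apply sub_of_atoms hcl hcl'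
      intro v hv
      rw [mem_fs] at hv
      have hvT : v ∈ T := mem_fs.2 ⟨hv.1, hv.2.1, hv.2.2.1.trans (toA_mono hP hG.subset), hv.2.2.2⟩
      exact (Finset.mem_filter.1 (h (Finset.mem_filter.2 ⟨hvT, hv.2.2.1⟩))).2
    rw [← toF_toA_trans hP hF hG hGne, ← toF_toA_trans hP hF hG' hGne']
    exact toF_mono hP hsub
  have hf : Function.Injective f := by
    intro G G' h
    have h' : T.filter (fun v => v ⊆ toA C G.1) = T.filter (fun v => v ⊆ toA C G'.1) :=
      congrArg Subtype.val h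
    apply Subtype.ext
    exact Set.Subset.antisymm (key _ _ G.2 G'.2 h'.subset) (key _ _ G'.2 G.2 h'.symm.subset)
  refine ⟨Finite.of_injective f hf, (Nat.card_le_card_of_injective f hf).trans ?_⟩
  rw [Nat.card_eq_fintype_card, Fintype.card_coe, Finset.card_powerset]
  exact Nat.pow_le_pow_right (by norm_num) hN

/-- faces of given dimension through a face -/
theorem above_ncard {A : Finset (WithLp 2 (E × ℝ))} (hA : C.Cl A) (hA1 : 1 ≤ dm A) (d : ℕ) :
    (C.fs A C.V (d + 1)).card ≤ {H : Set E | (IsExposed ℝ (convexHull ℝ (S : Set E)) H ∧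
      H.Nonempty ∧ Module.finrank ℝ (vectorSpan ℝ H) = d) ∧ toF C S A ⊆ H}.ncard := by
  classical
  have hinj : Set.InjOn (toF C S) (C.fs A C.V (d + 1) : Set (Finset (WithLp 2 (E × ℝ)))) := by
    intro X hX Y hY hXY
    have hX := (mem_fs.1 (Finset.mem_coe.1 hX)).1
    have hY := (mem_fs.1 (Finset.mem_coe.1 hY)).1
    rw [← toA_toF hP hX, ← toA_toF hP hY, hXY]
  rw [← Finset.card_image_of_injOn hinj, ← Set.ncard_coe_finset]
  apply Set.ncard_le_ncard
  · intro H hH
    rw [Finset.mem_coe, Finset.mem_image] at hH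
    obtain ⟨X, hX, rfl⟩ := hH
    rw [mem_fs] at hX
    have h1 := isF_toF hP (k := d) hX.1 hX.2.2.2
    exact ⟨⟨h1.2.1, h1.1, h1.2.2⟩, toF_mono hP hX.2.1⟩
  · refine (finite_faces hP d).subset ?_
    rintro H ⟨⟨h1, h2, h3⟩, h4⟩
    exact ⟨h2, h1, h3⟩

omit hP in
theorem atoms_one {v : Finset (WithLp 2 (E × ℝ))} (hv : C.Cl v) (hd : dm v = 1) :
    (C.fs C.bot v 1).card = 1 := by
  have := fs_self_right (P := C) hv (bot_le hv)
  rw [hd] at this
  rw [this, Finset.card_singleton]

omit hP in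
/-- a face of dimension `k` with few vertices -/
theorem exists_few {r c k d : ℕ} (hV : dm C.V = d + 1) (hd : r + 2 ^ (r + 1) * (k - 2) + 3 ≤ d)
    (h : ∀ G ∈ C.fs C.bot C.V (r + 1), (C.fs G C.V d).card ≤ d - r + c ∨
      (C.fs G C.V (r + 2)).card ≤ d - r + c) :
    ∃ F ∈ C.fs C.bot C.V (k + 1), (C.fs C.bot F 1).card ≤ bnd r c (k - 2) + 2 := by
  have hk : k - 2 ≤ 2 ^ (r + 1) * (k - 2) := Nat.le_mul_of_pos_left _ (by positivity)
  rcases Nat.lt_or_ge k 2 with h2 | h2
  · obtain ⟨F, hF, g1, g2, g3⟩ := exists_mid (P := C) bot_cl top_cl (bot_le top_cl)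
      (j := k + 1) (by rw [dm_bot]; omega) (by omega)
    refine ⟨F, mem_fs.2 ⟨hF, g1, g2, g3⟩, ?_⟩
    interval_cases k
    · rw [atoms_one hF g3]
      omega
    · rw [card_ends hF g3]
      omega
  · obtain ⟨F, hF, hF1⟩ := few (P := C) hV hd h
    have e : k - 2 + 3 = k + 1 := by omega
    rw [e] at hF
    exact ⟨F, hF, by omega⟩

end Run7.h340
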