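import Pool.Agent.Run7.h340.Bend

set_option autoImplicit false
set_option linter.unusedSectionVars false
set_option linter.unusedVariables false

/-!
# Infinitesimal motions of 3-polytopes are rigid on each face
-/

namespace Run7.h340

open Finset Pool.Agent.Helper715 Pool.Agent.Helper715.CP

variable {W : Type*} [NormedAddCommGroup W] [InnerProductSpace ℝ W] [FiniteDimensional ℝ W]

/-- an edge of a polygon with its two atoms, and a third atom -/
structure Frame (P : CP W) (F E S X Y : Finset W) : Prop where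
  hF : P.Cl F
  dF : dm F = 3
  hE : P.Cl E
  dE : dm E = 2
  hEF : E ⊆ F
  hX : P.Cl X
  dX : dm X = 1
  hXE : X ⊆ E
  hY : P.Cl Y
  dY : dm Y = 1
  hYE : Y ⊆ E
  hS : P.Cl S
  dS : dm S = 1
  hSF : S ⊆ F
  hSE : ¬ S ⊆ E
  hXY : X ≠ Y

variable {P : CP W} {x φ : Finset W → W}

theorem Frame.flip {F E S X Y : Finset W} (f : Frame P F E S X Y) : Frame P F E S Y X where
  hF := f.hF
  dF := f.dF
  hE := f.hE
  dE := f.dE
  hEF := f.hEF
  hX := f.hY
  dX := f.dY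
  hXE := f.hYE
  hY := f.hX
  dY := f.dX
  hYE := f.hXE
  hS := f.hS
  dS := f.dS
  hSF := f.hSF
  hSE := f.hSE
  hXY := f.hXY.symm

theorem Frame.hSX {F E S X Y : Finset W} (f : Frame P F E S X Y) : S ≠ X := by
  rintro rfl
  exact f.hSE f.hXE

theorem Frame.hSY {F E S X Y : Finset W} (f : Frame P F E S X Y) : S ≠ Y := by
  rintro rfl
  exact f.hSE f.hYE

theorem exists_third {A B : Finset W} (hA : P.Cl A) (hB : P.Cl B) (h : ¬ B ⊆ A) :
    ∃ S, P.Cl S ∧ dm S = 1 ∧ S ⊆ B ∧ ¬ S ⊆ A := by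
  by_contra hcon
  push Not at hcon
  apply h
  apply sub_of_atoms hB hA
  intro v hv
  rw [mem_fs] at hv
  exact hcon v hv.1 hv.2.2.2 hv.2.2.1

theorem not_sub_of_dm {A B : Finset W} (h : dm A < dm B) : ¬ B ⊆ A := fun h' => by
  have := dm_mono h'
  omega

theorem exists_frame {F : Finset W} (hF : P.Cl F) (dF : dm F = 3) :
    ∃ E S X Y, Frame P F E S X Y := by
  obtain ⟨X, hX, _, hXF, dX⟩ := exists_mid (P := P) bot_cl hF (bot_le hF) (j := 1)
    (by rw [dm_bot]; omega) (by omega)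
  obtain ⟨E, hE, hXE, hEF, dE⟩ := exists_mid (P := P) hX hF hXF (j := 2) (by omega) (by omega)
  obtain ⟨Y, hY, dY, hYE, hYX, _⟩ := other_atom hX dX hE dE hXE
  obtain ⟨S, hS, dS, hSF, hSE⟩ := exists_third hE hF (not_sub_of_dm (by omega))
  exact ⟨E, S, X, Y, hF, dF, hE, dE, hEF, hX, dX, hXE, hY, dY, hYE, hS, dS, hSF, hSE, hYX.symm⟩

theorem prescribe (hm : Mot P x φ) {F E S X Y : Finset W} (f : Frame P F E S X Y) (s p q : ℝ) :
    ∃ a : W, inner ℝ a (x S) = s ∧ inner ℝ a (x X) = p ∧ inner ℝ a (x Y) = q := by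
  have e1 : inner ℝ (P.gs E) (x X) = 0 := gs_zero (f.hXE (hm.mem X f.hX f.dX))
  have e2 : inner ℝ (P.gs E) (x Y) = 0 := gs_zero (f.hYE (hm.mem Y f.hY f.dY))
  have e3 : 0 < inner ℝ (P.gs E) (x S) := gs_atom_pos hm f.hE f.hS f.dS f.hSE
  have e4 : inner ℝ (P.gs X) (x X) = 0 := gs_zero (hm.mem X f.hX f.dX)
  have e5 : inner ℝ (P.gs Y) (x Y) = 0 := gs_zero (hm.mem Y f.hY f.dY)
  have e6 : 0 < inner ℝ (P.gs X) (x Y) := gs_atom_pos hm f.hX f.hY f.dY
    (not_sub_atom f.hY f.dY f.hX f.dX f.hXY.symm)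
  have e7 : 0 < inner ℝ (P.gs Y) (x X) := gs_atom_pos hm f.hY f.hX f.dX
    (not_sub_atom f.hX f.dX f.hY f.dY f.hXY)
  refine ⟨((s - q / inner ℝ (P.gs X) (x Y) * inner ℝ (P.gs X) (x S) -
    p / inner ℝ (P.gs Y) (x X) * inner ℝ (P.gs Y) (x S)) / inner ℝ (P.gs E) (x S)) • P.gs E +
    (q / inner ℝ (P.gs X) (x Y)) • P.gs X + (p / inner ℝ (P.gs Y) (x X)) • P.gs Y, ?_, ?_, ?_⟩
  · simp only [inner_add_left, real_inner_smul_left]
    rw [div_mul_cancel₀ _ e3.ne']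
    ring
  · simp only [inner_add_left, real_inner_smul_left]
    rw [e1, e4, div_mul_cancel₀ _ e7.ne']
    ring
  · simp only [inner_add_left, real_inner_smul_left]
    rw [e2, e5, div_mul_cancel₀ _ e6.ne']
    ring

theorem rep3 (hm : Mot P x φ) {F E S X Y : Finset W} (f : Frame P F E S X Y) {v : W}
    (hv : v ∈ Submodule.span ℝ (F : Set W)) :
    ∃ α β γ : ℝ, v = α • x S + β • x X + γ • x Y := by
  rw [← span_cover f.hE f.hF f.hEF (by rw [f.dF, f.dE]) (f.hSF (hm.mem S f.hS f.dS))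
    (fun h => f.hSE (atom_sub f.hS f.dS f.hE (hm.mem S f.hS f.dS) (hm.nz S f.hS f.dS) h)),
    Submodule.mem_span_insert] at hv
  obtain ⟨α, w, hw, rfl⟩ := hv
  rw [← span_cover f.hX f.hE f.hXE (by rw [f.dX, f.dE]) (f.hYE (hm.mem Y f.hY f.dY))
    (atom_ne f.hY f.dY f.hX f.dX f.hXY.symm (hm.mem Y f.hY f.dY) (hm.nz Y f.hY f.dY)),
    Submodule.mem_span_insert] at hw
  obtain ⟨γ, u, hu, rfl⟩ := hw
  rw [← span_cover (P := P) bot_cl f.hX (bot_le f.hX) (by rw [f.dX, dm_bot]) (hm.mem X f.hX f.dX)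
    (not_bot (hm.nz X f.hX f.dX)), Submodule.mem_span_insert] at hu
  obtain ⟨β, t, ht, rfl⟩ := hu
  have ht0 : t = 0 := by
    have : Submodule.span ℝ (P.bot : Set W) = ⊥ := by
      rw [Submodule.span_eq_bot]
      intro x hx
      exact mem_bot hx
    rw [this] at ht
    exact (Submodule.mem_bot ℝ).1 ht
  refine ⟨α, β, γ, ?_⟩
  rw [ht0]
  abel

theorem orth_of_atoms {F : Finset W} (hF : P.Cl F) {z : W} (x : Finset W → W)
    (hx : ∀ X, P.Cl X → dm X = 1 → X ⊆ F → x X ∈ X ∧ x X ≠ 0 ∧ inner ℝ z (x X) = 0) :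
    ∀ y ∈ F, inner ℝ z y = 0 := by
  have key : ∀ z : W, (∀ X, P.Cl X → dm X = 1 → X ⊆ F → ∀ y ∈ X, inner ℝ z y = 0) →
      ∀ y ∈ F, inner ℝ z y ≤ 0 := by
    intro z hz y hy
    by_contra hcon
    push Not at hcon
    obtain ⟨C, hC, _, hCF, dC, c, hc, hc0⟩ := cover_up (P := P) bot_cl hF (bot_le hF) (inner_bot z)
      ⟨y, hy, hcon⟩
    rw [dm_bot, zero_add] at dC
    rw [hz C hC dC hCF c hc] at hc0
    exact lt_irrefl _ hc0
  have h0 : ∀ X, P.Cl X → dm X = 1 → X ⊆ F → ∀ y ∈ X, inner ℝ z y = 0 := by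
    intro X hX dX hXF
    obtain ⟨h1, h2, h3⟩ := hx X hX dX hXF
    exact zero_atom hX dX h1 h2 h3
  intro y hy
  apply le_antisymm (key z h0 y hy)
  have := key (-z) (fun X hX dX hXF y hy => by rw [inner_neg_left, h0 X hX dX hXF y hy, neg_zero]) y hy
  rw [inner_neg_left] at this
  linarith

/-- normals of a facet are multiples of `gs` -/
theorem normal_unique {F : Finset W} (hF : P.Cl F) (hd : dm F + 1 = Module.finrank ℝ W) {z : W}
    (hz : ∀ y ∈ F, inner ℝ z y = 0) : ∃ c : ℝ, z = c • P.gs F := by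
  have h1 := span_perp hF
  have h2 := dm_add hF
  have h3 : dm (perp P.G F) = 1 := by omega
  have hg : P.gs F ∈ Submodule.span ℝ (perp P.G F : Set W) :=
    Submodule.sum_mem _ fun g hg => Submodule.subset_span hg
  have hg0 : P.gs F ≠ 0 := by
    intro h
    have : F = P.V := by
      by_contra hne
      obtain ⟨b, hb, hbF⟩ : ∃ b ∈ P.V, b ∉ F := by
        by_contra hcon
        push Not at hcon
        exact hne (Finset.Subset.antisymm hF.sub hcon)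
      have := gs_pos hF hb hbF
      rw [h, inner_zero_left] at this
      exact lt_irrefl _ this
    rw [this, dm_top] at hd
    omega
  have hz' : z ∈ Submodule.span ℝ (perp P.G F : Set W) := by
    rw [h1]
    exact mem_orth.2 hz
  obtain ⟨c, hc⟩ := (finrank_eq_one_iff_of_nonzero' (⟨P.gs F, hg⟩ :
    Submodule.span ℝ (perp P.G F : Set W)) (by
      intro h
      exact hg0 (congrArg Subtype.val h))).1 h3 ⟨z, hz'⟩
  refine ⟨c, ?_⟩
  have := congrArg Subtype.val hc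
  simpa using this.symm

theorem coef_signs (hm : Mot P x φ) {F E S X Y T : Finset W} (f : Frame P F E S X Y) (hT : P.Cl T)
    (dT : dm T = 1) (hTF : T ⊆ F) (hTS : T ≠ S) (hTX : T ≠ X) (hTY : T ≠ Y) {α β γ : ℝ}
    (h : x T = α • x S + β • x X + γ • x Y) :
    0 < α ∧ ((0 < β ∧ γ < 0) ∨ (β < 0 ∧ 0 < γ)) := by
  have hTE : ¬ T ⊆ E := by
    intro h'
    obtain ⟨Y', g1, g2, g3, g4, g5⟩ := other_atom f.hX f.dX f.hE f.dE f.hXE
    have e1 := (g5 Y f.hY f.dY f.hYE).resolve_left f.hXY.symm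
    rcases g5 T hT dT h' with h | h
    · exact hTX h
    · exact hTY (h.trans e1.symm)
  have ev : ∀ z : W, inner ℝ z (x T) = α * inner ℝ z (x S) + β * inner ℝ z (x X) +
      γ * inner ℝ z (x Y) := by
    intro z
    rw [h]
    simp only [inner_add_right, real_inner_smul_right]
  have e1 : inner ℝ (P.gs E) (x X) = 0 := gs_zero (f.hXE (hm.mem X f.hX f.dX))
  have e2 : inner ℝ (P.gs E) (x Y) = 0 := gs_zero (f.hYE (hm.mem Y f.hY f.dY))
  have e3 : 0 < inner ℝ (P.gs E) (x S) := gs_atom_pos hm f.hE f.hS f.dS f.hSE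
  have e4 : 0 < inner ℝ (P.gs E) (x T) := gs_atom_pos hm f.hE hT dT hTE
  have hα : 0 < α := by
    have := ev (P.gs E)
    rw [e1, e2] at this
    by_contra hcon
    push Not at hcon
    have := mul_nonneg (neg_nonneg.2 hcon) e3.le
    linarith
  have t1 : inner ℝ (P.gs T) (x T) = 0 := gs_zero (hm.mem T hT dT)
  have t2 := gs_atom_pos hm hT f.hS f.dS (not_sub_atom f.hS f.dS hT dT hTS.symm)
  have t3 := gs_atom_pos hm hT f.hX f.dX (not_sub_atom f.hX f.dX hT dT hTX.symm)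
  have t4 := gs_atom_pos hm hT f.hY f.dY (not_sub_atom f.hY f.dY hT dT hTY.symm)
  have s1 : inner ℝ (P.gs S) (x S) = 0 := gs_zero (hm.mem S f.hS f.dS)
  have s2 := gs_atom_pos hm f.hS hT dT (not_sub_atom hT dT f.hS f.dS hTS)
  have s3 := gs_atom_pos hm f.hS f.hX f.dX (not_sub_atom f.hX f.dX f.hS f.dS f.hSX.symm)
  have s4 := gs_atom_pos hm f.hS f.hY f.dY (not_sub_atom f.hY f.dY f.hS f.dS f.hSY.symm)
  have E1 := ev (P.gs T)
  have E2 := ev (P.gs S)
  rw [t1] at E1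
  rw [s1] at E2
  have p1 := mul_pos hα t2
  refine ⟨hα, ?_⟩
  rcases le_or_gt β 0 with hβ | hβ
  · right
    have hγ : 0 < γ := by
      by_contra hcon
      push Not at hcon
      have q1 := mul_nonneg (neg_nonneg.2 hβ) s3.le
      have q2 := mul_nonneg (neg_nonneg.2 hcon) s4.le
      linarith
    refine ⟨?_, hγ⟩
    rcases eq_or_lt_of_le hβ with h0 | h0
    · exfalso
      rw [h0] at E1
      have := mul_pos hγ t4
      linarith
    · exact h0
  · left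
    refine ⟨hβ, ?_⟩
    by_contra hcon
    push Not at hcon
    have q1 := mul_pos hβ t3
    have q2 := mul_nonneg hcon t4.le
    linarith

theorem no_bend_aux (hW : Module.finrank ℝ W = 4) (hm : Mot P x φ) {F E S X Y T : Finset W}
    (f : Frame P F E S X Y) (k : Finset W → ℝ)
    (hk : ∀ Z, P.Cl Z → dm Z = 1 → Z ⊆ F → φ Z = k Z • P.gs F) (kS : k S = 0) (kX : k X = 0)
    (kY : k Y = 0) (hT : P.Cl T) (dT : dm T = 1) (hTF : T ⊆ F) (hTS : T ≠ S) (hTX : T ≠ X)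
    (hTY : T ≠ Y) {α β γ : ℝ} (h : x T = α • x S + β • x X + γ • x Y) (hα : 0 < α) (hβ : 0 < β)
    (hγ : γ < 0) (hkT : k T < 0) : False := by
  set c : ℝ := α + β - γ with hc
  have hc0 : 0 < c := by linarith
  set η : ℝ := -k T / (2 * c) with hη
  have hη0 : 0 < η := div_pos (by linarith) (by linarith)
  obtain ⟨b, b1, b2, b3⟩ := prescribe hm f η η (-η)
  have hm' := hm.add (skew_wd b (P.gs F))
  have bT : inner ℝ b (x T) = - k T / 2 := by
    rw [h]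
    simp only [inner_add_right, real_inner_smul_right]
    rw [b1, b2, b3]
    have : α * η + β * η + γ * -η = c * η := by rw [hc]; ring
    rw [this, hη]
    field_simp
  refine key_bend hW hm' f.hF f.dF (fun Z => k Z + inner ℝ b (x Z)) ?_ f.hE f.dE f.hEF f.hX f.dX
    f.hXE f.hY f.dY f.hYE (S := T) (T := S) hT dT hTF f.hS f.dS f.hSF f.hXY hTS hTX hTY f.hSX
    f.hSY (cS := 1) (cY := -γ) (cX := β) (cT := α) one_pos hβ (by linarith) hα ?_ ?_ ?_ ?_ ?_
  · intro Z hZ dZ hZF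
    try simp only
    rw [wd_apply, hk Z hZ dZ hZF, gs_zero (hZF (hm.mem Z hZ dZ)), zero_smul, sub_zero, add_smul]
  · rw [h, one_smul, neg_smul]
    abel
  · try simp only
    rw [bT]
    linarith
  · try simp only
    rw [kY, b3]
    linarith
  · try simp only
    rw [kX, b2]
    linarith
  · try simp only
    rw [kS, b1]
    linarith

theorem no_bend (hW : Module.finrank ℝ W = 4) (hm : Mot P x φ) {F E S X Y T : Finset W}
    (f : Frame P F E S X Y) (k : Finset W → ℝ)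
    (hk : ∀ Z, P.Cl Z → dm Z = 1 → Z ⊆ F → φ Z = k Z • P.gs F) (kS : k S = 0) (kX : k X = 0)
    (kY : k Y = 0) (hT : P.Cl T) (dT : dm T = 1) (hTF : T ⊆ F) : k T = 0 := by
  by_contra hkT
  have hTS : T ≠ S := by rintro rfl; exact hkT kS
  have hTX : T ≠ X := by rintro rfl; exact hkT kX
  have hTY : T ≠ Y := by rintro rfl; exact hkT kY
  obtain ⟨α, β, γ, h⟩ := rep3 hm f (v := x T) (Submodule.subset_span (hTF (hm.mem T hT dT)))
  obtain ⟨hα, hsg⟩ := coef_signs hm f hT dT hTF hTS hTX hTY h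
  have h' : x T = α • x S + γ • x Y + β • x X := by rw [h]; abel
  rcases lt_or_gt_of_ne hkT with hlt | hgt
  · rcases hsg with ⟨hβ, hγ⟩ | ⟨hβ, hγ⟩
    · exact no_bend_aux hW hm f k hk kS kX kY hT dT hTF hTS hTX hTY h hα hβ hγ hlt
    · exact no_bend_aux hW hm f.flip k hk kS kY kX hT dT hTF hTS hTY hTX h' hα hγ hβ hlt
  · have hm' := hm.neg
    have hk' : ∀ Z, P.Cl Z → dm Z = 1 → Z ⊆ F → - φ Z = (- k Z) • P.gs F := by
      intro Z hZ dZ hZF
      rw [hk Z hZ dZ hZF, neg_smul]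
    rcases hsg with ⟨hβ, hγ⟩ | ⟨hβ, hγ⟩
    · exact no_bend_aux hW hm' f (fun Z => - k Z) hk' (by simp [kS]) (by simp [kX]) (by simp [kY])
        hT dT hTF hTS hTX hTY h hα hβ hγ (by linarith)
    · exact no_bend_aux hW hm' f.flip (fun Z => - k Z) hk' (by simp [kS]) (by simp [kY])
        (by simp [kX]) hT dT hTF hTS hTY hTX h' hα hγ hβ (by linarith)

/-- a motion is rigid on each face -/
theorem bend (hW : Module.finrank ℝ W = 4) (hm : Mot P x φ) {F : Finset W} (hF : P.Cl F)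
    (dF : dm F = 3) : ∃ B : W →ₗ[ℝ] W, Skew B ∧ ∀ Z, P.Cl Z → dm Z = 1 → Z ⊆ F → φ Z = B (x Z) := by
  obtain ⟨E, S, X, Y, f⟩ := exists_frame hF dF
  obtain ⟨aS, a1, a2, a3⟩ := prescribe hm f 1 0 0
  obtain ⟨aX, b1, b2, b3⟩ := prescribe hm f 0 1 0
  obtain ⟨aY, c1, c2, c3⟩ := prescribe hm f 0 0 1
  set mSX := inner ℝ (φ S) (x X) with hmSX
  set mSY := inner ℝ (φ S) (x Y) with hmSY
  set mXY := inner ℝ (φ X) (x Y) with hmXY
  set B₀ : W →ₗ[ℝ] W := mSX • wd aS aX + mSY • wd aS aY + mXY • wd aX aY with hB₀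
  have skB₀ : Skew B₀ := (((skew_wd _ _).smul _).add ((skew_wd _ _).smul _)).add ((skew_wd _ _).smul _)
  have evB₀ : ∀ y z, inner ℝ (B₀ y) z = mSX * (inner ℝ aS y * inner ℝ aX z - inner ℝ aX y *
      inner ℝ aS z) + mSY * (inner ℝ aS y * inner ℝ aY z - inner ℝ aY y * inner ℝ aS z) +
      mXY * (inner ℝ aX y * inner ℝ aY z - inner ℝ aY y * inner ℝ aX z) := by
    intro y z
    rw [hB₀]
    simp only [LinearMap.add_apply, LinearMap.smul_apply, inner_add_left, real_inner_smul_left,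
      inner_wd]
  have hEX := f.hXE.trans f.hEF
  have hEY := f.hYE.trans f.hEF
  have hXS : inner ℝ (φ X) (x S) = - mSX := hm.anti X S F f.hX f.hS hF f.dX f.dS dF hEX f.hSF
  have hYS : inner ℝ (φ Y) (x S) = - mSY := hm.anti Y S F f.hY f.hS hF f.dY f.dS dF hEY f.hSF
  have hYX : inner ℝ (φ Y) (x X) = - mXY := hm.anti Y X F f.hY f.hX hF f.dY f.dX dF hEY hEX
  have hSS := hm.self S f.hS f.dS
  have hXX := hm.self X f.hX f.dX
  have hYY := hm.self Y f.hY f.dY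
  have hm₁ : Mot P x (fun Z => φ Z + ((-1 : ℝ) • B₀) (x Z)) := hm.add (skB₀.smul (-1))
  set φ₁ : Finset W → W := fun Z => φ Z + ((-1 : ℝ) • B₀) (x Z) with hφ₁
  have evφ₁ : ∀ Z z, inner ℝ (φ₁ Z) z = inner ℝ (φ Z) z - inner ℝ (B₀ (x Z)) z := by
    intro Z z
    rw [hφ₁]
    simp only
    rw [inner_add_left, LinearMap.smul_apply, real_inner_smul_left]
    ring
  have orth3 : ∀ z : W, inner ℝ z (x S) = 0 → inner ℝ z (x X) = 0 → inner ℝ z (x Y) = 0 →
      ∀ y ∈ F, inner ℝ z y = 0 := by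
    intro z h1 h2 h3 y hy
    obtain ⟨α, β, γ, h⟩ := rep3 hm f (v := y) (Submodule.subset_span hy)
    rw [h]
    simp only [inner_add_right, real_inner_smul_right, h1, h2, h3]
    ring
  have oS : ∀ y ∈ F, inner ℝ (φ₁ S) y = 0 := by
    apply orth3
    · rw [evφ₁, evB₀, hSS, a1, b1, c1]; ring
    · rw [evφ₁, evB₀, a1, b1, c1, a2, b2, c2]; ring
    · rw [evφ₁, evB₀, a1, b1, c1, a3, b3, c3]; ring
  have oX : ∀ y ∈ F, inner ℝ (φ₁ X) y = 0 := by
    apply orth3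
    · rw [evφ₁, evB₀, hXS, a1, b1, c1, a2, b2, c2]; ring
    · rw [evφ₁, evB₀, hXX, a2, b2, c2]; ring
    · rw [evφ₁, evB₀, a2, b2, c2, a3, b3, c3]; ring
  have oY : ∀ y ∈ F, inner ℝ (φ₁ Y) y = 0 := by
    apply orth3
    · rw [evφ₁, evB₀, hYS, a1, b1, c1, a3, b3, c3]; ring
    · rw [evφ₁, evB₀, hYX, a2, b2, c2, a3, b3, c3]; ring
    · rw [evφ₁, evB₀, hYY, a3, b3, c3]; ring
  have oZ : ∀ Z, P.Cl Z → dm Z = 1 → Z ⊆ F → ∃ c : ℝ, φ₁ Z = c • P.gs F := by
    intro Z hZ dZ hZF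
    apply normal_unique hF (by rw [dF, hW])
    have hz := hZF (hm.mem Z hZ dZ)
    apply orth3
    · rw [hm₁.anti Z S F hZ f.hS hF dZ f.dS dF hZF f.hSF, oS _ hz, neg_zero]
    · rw [hm₁.anti Z X F hZ f.hX hF dZ f.dX dF hZF hEX, oX _ hz, neg_zero]
    · rw [hm₁.anti Z Y F hZ f.hY hF dZ f.dY dF hZF hEY, oY _ hz, neg_zero]
  have oZ' : ∀ Z, ∃ c : ℝ, P.Cl Z → dm Z = 1 → Z ⊆ F → φ₁ Z = c • P.gs F := by
    intro Z
    by_cases h : P.Cl Z ∧ dm Z = 1 ∧ Z ⊆ F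
    · obtain ⟨c, hc⟩ := oZ Z h.1 h.2.1 h.2.2
      exact ⟨c, fun _ _ _ => hc⟩
    · exact ⟨0, fun h1 h2 h3 => absurd ⟨h1, h2, h3⟩ h⟩
  choose h hh using oZ'
  obtain ⟨a, p1, p2, p3⟩ := prescribe hm f (-h S) (-h X) (-h Y)
  have hm₂ := hm₁.add (skew_wd a (P.gs F))
  have hk : ∀ Z, P.Cl Z → dm Z = 1 → Z ⊆ F → φ₁ Z + wd a (P.gs F) (x Z) =
      (h Z + inner ℝ a (x Z)) • P.gs F := by
    intro Z hZ dZ hZF
    rw [wd_apply, hh Z hZ dZ hZF, gs_zero (hZF (hm.mem Z hZ dZ)), zero_smul, sub_zero, add_smul]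
  refine ⟨B₀ - wd a (P.gs F), skB₀.sub (skew_wd _ _), ?_⟩
  intro Z hZ dZ hZF
  have h0 := no_bend hW hm₂ f (fun Z => h Z + inner ℝ a (x Z)) hk (by simp [p1]) (by simp [p2])
    (by simp [p3]) hZ dZ hZF
  try simp only at h0
  have h1 := hk Z hZ dZ hZF
  rw [h0, zero_smul, hφ₁] at h1
  simp only at h1
  rw [LinearMap.smul_apply, neg_smul, one_smul] at h1
  rw [LinearMap.sub_apply]
  have h2 : φ Z = φ Z + -B₀ (x Z) + wd a (P.gs F) (x Z) + (B₀ (x Z) - wd a (P.gs F) (x Z)) := by abel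
  rw [h2, h1, zero_add]

end Run7.h340
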