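import Pool.Agent.Run7.h340.Rigid

set_option autoImplicit false
set_option linter.unusedSectionVars false
set_option linter.unusedVariables false

/-!
# Nonnegativity of `g_2` of general polytopes
-/

namespace Run7.h340

open Finset Pool.Agent.Helper715 Pool.Agent.Helper715.CP

variable {W : Type*} [NormedAddCommGroup W] [InnerProductSpace ℝ W] [FiniteDimensional ℝ W]

/-- the space of skew operators -/
def skews (W : Type*) [NormedAddCommGroup W] [InnerProductSpace ℝ W] [FiniteDimensional ℝ W] :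
    Submodule ℝ (W →ₗ[ℝ] W) where
  carrier := {T | Skew T}
  zero_mem' := fun y z => by simp
  add_mem' := fun h1 h2 => Skew.add h1 h2
  smul_mem' := fun c _ h => Skew.smul h c

theorem finrank_skews {n : ℕ} (hW : Module.finrank ℝ W = n) :
    Module.finrank ℝ (skews W) ≤ Fintype.card {p : Fin n × Fin n // p.1 < p.2} := by
  let b : OrthonormalBasis (Fin n) ℝ W := (stdOrthonormalBasis ℝ W).reindex (finCongr hW)
  let f : skews W →ₗ[ℝ] ({p : Fin n × Fin n // p.1 < p.2} → ℝ) :=
    { toFun := fun T p => inner ℝ (T.1 (b p.1.1)) (b p.1.2)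
      map_add' := fun S T => by
        funext p
        simp [inner_add_left]
      map_smul' := fun c T => by
        funext p
        simp [real_inner_smul_left] }
  have hf : Function.Injective f := by
    rw [← LinearMap.ker_eq_bot, LinearMap.ker_eq_bot']
    intro T hT
    have h1 : ∀ i j, i < j → inner ℝ (T.1 (b i)) (b j) = 0 := fun i j hij =>
      congrFun hT ⟨(i, j), hij⟩
    have h2 : ∀ i j, inner ℝ (T.1 (b i)) (b j) = 0 := by
      intro i j
      rcases lt_trichotomy i j with h | h | h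
      · exact h1 i j h
      · rw [h]; exact T.2.self _
      · rw [T.2, h1 j i h, neg_zero]
    apply Subtype.ext
    apply b.toBasis.ext
    intro i
    apply InnerProductSpace.ext_inner_right_basis (𝕜 := ℝ) b.toBasis
    intro j
    simp only [OrthonormalBasis.coe_toBasis]
    rw [h2]
    simp
  have := LinearMap.finrank_le_finrank_of_injective hf
  rwa [Module.finrank_fintype_fun_eq_card] at this

variable {P : CP W}

theorem exists_rep' (P : CP W) : ∃ x : Finset W → W, Rep P x := by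
  classical
  have : ∀ X : Finset W, ∃ v : W, P.Cl X → dm X = 1 → v ∈ X ∧ v ≠ 0 := by
    intro X
    by_cases h : P.Cl X ∧ dm X = 1
    · obtain ⟨v, hv, hvb⟩ := (atom_cov h.1 h.2).exists_nm bot_cl
      refine ⟨v, fun _ _ => ⟨hv, ?_⟩⟩
      rintro rfl
      apply hvb
      rw [bot, mem_perp]
      exact ⟨h.1.sub hv, fun g _ => inner_zero_left _⟩
    · exact ⟨0, fun h1 h2 => absurd ⟨h1, h2⟩ h⟩
  choose x hx using this
  exact ⟨x, hx⟩

/-- extension by zero -/
noncomputable def xt (Va : Finset (Finset W)) (φ : Va → W) : Finset W → W := by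
  classical exact fun X => if h : X ∈ Va then φ ⟨X, h⟩ else 0

theorem xt_apply {Va : Finset (Finset W)} (φ : Va → W) {X : Finset W} (h : X ∈ Va) :
    xt Va φ X = φ ⟨X, h⟩ := by
  classical
  rw [xt, dif_pos h]

theorem xt_add {Va : Finset (Finset W)} (φ ψ : Va → W) (X : Finset W) :
    xt Va (φ + ψ) X = xt Va φ X + xt Va ψ X := by
  classical
  by_cases h : X ∈ Va
  · rw [xt_apply _ h, xt_apply _ h, xt_apply _ h]; rfl
  · simp [xt, h]

theorem xt_smul {Va : Finset (Finset W)} (c : ℝ) (φ : Va → W) (X : Finset W) :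
    xt Va (c • φ) X = c • xt Va φ X := by
  classical
  by_cases h : X ∈ Va
  · rw [xt_apply _ h, xt_apply _ h]; rfl
  · simp [xt, h]

/-- the constraints -/
noncomputable def Lc (x : Finset W → W) (Va : Finset (Finset W)) (K : Finset (Finset W × Finset W)) :
    (Va → W) →ₗ[ℝ] (K → ℝ) where
  toFun := fun φ p => inner ℝ (xt Va φ p.1.1) (x p.1.2) + inner ℝ (xt Va φ p.1.2) (x p.1.1)
  map_add' := fun φ ψ => by
    funext p
    simp only [xt_add, inner_add_left, Pi.add_apply]
    ring
  map_smul' := fun c φ => by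
    funext p
    simp only [xt_smul, real_inner_smul_left, Pi.smul_apply, RingHom.id_apply, smul_eq_mul]
    ring

/-- trivial motions -/
noncomputable def Mt (x : Finset W → W) (Va : Finset (Finset W)) :
    (W →ₗ[ℝ] W) →ₗ[ℝ] (Va → W) where
  toFun := fun T X => T (x X.1)
  map_add' := fun S T => by funext X; rfl
  map_smul' := fun c T => by funext X; rfl

/-- the rank inequality -/
theorem rank_count {n : ℕ} (hn : 4 ≤ n) (hW : Module.finrank ℝ W = n) (x : Finset W → W)
    (K : Finset (Finset W × Finset W))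
    (hK : ∀ φ : Finset W → W, (∀ p ∈ K, inner ℝ (φ p.1) (x p.2) + inner ℝ (φ p.2) (x p.1) = 0) →
      Pre P x φ) :
    n * (P.fs P.bot P.V 1).card ≤ K.card + Fintype.card {p : Fin n × Fin n // p.1 < p.2} := by
  classical
  set Va := P.fs P.bot P.V 1 with hVa
  have h1 := LinearMap.finrank_range_add_finrank_ker (Lc x Va K)
  have h2 : Module.finrank ℝ (Va → W) = Va.card * n := by
    rw [Module.finrank_pi_fintype, Finset.sum_const, hW, Finset.card_univ, Fintype.card_coe,
      smul_eq_mul]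
  have h3 : Module.finrank ℝ (LinearMap.range (Lc x Va K)) ≤ K.card := by
    refine (Submodule.finrank_le _).trans ?_
    rw [Module.finrank_fintype_fun_eq_card, Fintype.card_coe]
  have h4 : LinearMap.ker (Lc x Va K) ≤ (skews W).map (Mt x Va) := by
    intro φ hφ
    rw [LinearMap.mem_ker] at hφ
    have hpre : Pre P x (xt Va φ) := by
      apply hK
      intro p hp
      exact congrFun hφ ⟨p, hp⟩
    obtain ⟨B, hB, hB'⟩ := rigid n W hn hW P x _ hpre.mot
    refine ⟨B, hB, ?_⟩
    funext X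
    have hX : X.1 ∈ P.fs P.bot P.V 1 := X.2
    rw [mem_fs] at hX
    have := hB' X.1 hX.1 hX.2.2.2
    rw [xt_apply φ X.2] at this
    exact this.symm
  have h5 := Submodule.finrank_mono h4
  have h6 := Submodule.finrank_map_le (Mt x Va) (skews W)
  have h7 := finrank_skews hW
  rw [h2] at h1
  have : n * Va.card = Va.card * n := mul_comm _ _
  omega

theorem g2_top {n : ℕ} (hn : 4 ≤ n) (hW : Module.finrank ℝ W = n) :
    n * (P.fs P.bot P.V 1).card + 3 * (P.fs P.bot P.V 3).card ≤
      (P.fs P.bot P.V 1).card + (P.fs P.bot P.V 2).card +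
      ∑ F ∈ P.fs P.bot P.V 3, (P.fs P.bot F 1).card +
      Fintype.card {p : Fin n × Fin n // p.1 < p.2} := by
  classical
  obtain ⟨x, hx⟩ := exists_rep' P
  -- ends of edges
  have hends : ∀ E : Finset W, ∃ a b : Finset W, P.Cl E → dm E = 2 →
      ∀ Z, P.Cl Z → dm Z = 1 → Z ⊆ E → Z = a ∨ Z = b := by
    intro E
    by_cases h : P.Cl E ∧ dm E = 2
    · obtain ⟨X, hX, _, hXE, dX⟩ := exists_mid (P := P) bot_cl h.1 (bot_le h.1) (j := 1)
        (by rw [dm_bot]; omega) (by omega)
      obtain ⟨Y, hY, dY, hYE, hYX, hall⟩ := other_atom hX dX h.1 h.2 hXE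
      exact ⟨X, Y, fun _ _ => hall⟩
    · exact ⟨∅, ∅, fun h1 h2 => absurd ⟨h1, h2⟩ h⟩
  choose a b hab using hends
  -- a vertex of each polygon, and the diagonals from it
  have hfan : ∀ F : Finset W, ∃ (v : Finset W) (D : Finset (Finset W)), P.Cl F → dm F = 3 →
      P.Cl v ∧ dm v = 1 ∧ v ⊆ F ∧ D.card + 3 ≤ (P.fs P.bot F 1).card ∧
      ∀ Z, P.Cl Z → dm Z = 1 → Z ⊆ F → Z ∈ D ∨ ∃ E, P.Cl E ∧ dm E = 2 ∧ v ⊆ E ∧ Z ⊆ E := by
    intro F
    by_cases h : P.Cl F ∧ dm F = 3
    · obtain ⟨X, hX, _, hXF, dX⟩ := exists_mid (P := P) bot_cl h.1 (bot_le h.1) (j := 1)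
        (by rw [dm_bot]; omega) (by omega)
      obtain ⟨E, E', S, Y, f, hE', dE', hXE', hSE'⟩ := frame_at hX dX h.1 h.2 hXF
      refine ⟨X, (((P.fs P.bot F 1).erase X).erase Y).erase S, fun _ _ => ⟨hX, dX, hXF, ?_, ?_⟩⟩
      · have m1 : X ∈ P.fs P.bot F 1 := mem_fs.2 ⟨hX, bot_le hX, hXF, dX⟩
        have m2 : Y ∈ (P.fs P.bot F 1).erase X := Finset.mem_erase.2 ⟨f.hXY.symm,
          mem_fs.2 ⟨f.hY, bot_le f.hY, f.hYE.trans f.hEF, f.dY⟩⟩
        have m3 : S ∈ ((P.fs P.bot F 1).erase X).erase Y := Finset.mem_erase.2 ⟨f.hSY,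
          Finset.mem_erase.2 ⟨f.hSX, mem_fs.2 ⟨f.hS, bot_le f.hS, f.hSF, f.dS⟩⟩⟩
        have e1 := Finset.card_erase_add_one m1
        have e2 := Finset.card_erase_add_one m2
        have e3 := Finset.card_erase_add_one m3
        omega
      · intro Z hZ dZ hZF
        by_cases hZX : Z = X
        · right
          rw [hZX]
          exact ⟨E, f.hE, f.dE, f.hXE, f.hXE⟩
        by_cases hZY : Z = Y
        · right
          rw [hZY]
          exact ⟨E, f.hE, f.dE, f.hXE, f.hYE⟩
        by_cases hZS : Z = S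
        · right
          rw [hZS]
          exact ⟨E', hE', dE', hXE', hSE'⟩
        left
        rw [Finset.mem_erase, Finset.mem_erase, Finset.mem_erase, mem_fs]
        exact ⟨hZS, hZY, hZX, hZ, bot_le hZ, hZF, dZ⟩
    · exact ⟨∅, ∅, fun h1 h2 => absurd ⟨h1, h2⟩ h⟩
  choose v D hvD using hfan
  set K : Finset (Finset W × Finset W) := (P.fs P.bot P.V 1).image (fun X => (X, X)) ∪
    (P.fs P.bot P.V 2).image (fun E => (a E, b E)) ∪
    (P.fs P.bot P.V 3).biUnion (fun F => (D F).image (fun Z => (v F, Z))) with hK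
  have hcard : K.card + 3 * (P.fs P.bot P.V 3).card ≤ (P.fs P.bot P.V 1).card +
      (P.fs P.bot P.V 2).card + ∑ F ∈ P.fs P.bot P.V 3, (P.fs P.bot F 1).card := by
    have c1 : K.card ≤ _ := Finset.card_union_le _ _
    have c2 := Finset.card_union_le ((P.fs P.bot P.V 1).image (fun X => (X, X)))
      ((P.fs P.bot P.V 2).image (fun E => (a E, b E)))
    have c3 : ((P.fs P.bot P.V 1).image (fun X => (X, X))).card ≤ (P.fs P.bot P.V 1).card :=
      Finset.card_image_le
    have c4 : ((P.fs P.bot P.V 2).image (fun E => (a E, b E))).card ≤ (P.fs P.bot P.V 2).card :=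
      Finset.card_image_le
    have c5 : ((P.fs P.bot P.V 3).biUnion (fun F => (D F).image (fun Z => (v F, Z)))).card +
        3 * (P.fs P.bot P.V 3).card ≤ ∑ F ∈ P.fs P.bot P.V 3, (P.fs P.bot F 1).card := by
      refine le_trans (Nat.add_le_add_right Finset.card_biUnion_le _) ?_
      rw [mul_comm 3, ← smul_eq_mul, ← Finset.sum_const, ← Finset.sum_add_distrib]
      apply Finset.sum_le_sum
      intro F hF
      rw [mem_fs] at hF
      have h1 : ((D F).image (fun Z => (v F, Z))).card ≤ (D F).card := Finset.card_image_le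
      have h2 := (hvD F hF.1 hF.2.2.2).2.2.2.1
      omega
    omega
  have hmain := rank_count (P := P) hn hW x K (by
    intro φ hφ
    have hself : ∀ X, P.Cl X → dm X = 1 → inner ℝ (φ X) (x X) = 0 := by
      intro X hX dX
      have := hφ (X, X) (by
        rw [hK, Finset.mem_union, Finset.mem_union]
        left; left
        exact Finset.mem_image.2 ⟨X, mem_fs.2 ⟨hX, bot_le hX, hX.sub, dX⟩, rfl⟩)
      simp only at this
      linarith
    have hedge : ∀ X Y E, P.Cl X → P.Cl Y → P.Cl E → dm X = 1 → dm Y = 1 → dm E = 2 → X ⊆ E →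
        Y ⊆ E → inner ℝ (φ X) (x Y) = - inner ℝ (φ Y) (x X) := by
      intro X Y E hX hY hE dX dY dE hXE hYE
      have h1 := hφ (a E, b E) (by
        rw [hK, Finset.mem_union, Finset.mem_union]
        left; right
        exact Finset.mem_image.2 ⟨E, mem_fs.2 ⟨hE, bot_le hE, hE.sub, dE⟩, rfl⟩)
      simp only at h1
      have sX := hself X hX dX
      rcases hab E hE dE X hX dX hXE with h | h <;> rcases hab E hE dE Y hY dY hYE with h' | h'
      · rw [h', ← h, sX, neg_zero]
      · rw [← h, ← h'] at h1; linarith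
      · rw [← h, ← h'] at h1; linarith
      · rw [h', ← h, sX, neg_zero]
    refine ⟨hx, hself, hedge, ?_⟩
    intro F hF dF
    obtain ⟨g1, g2, g3, g4, g5⟩ := hvD F hF dF
    refine ⟨v F, g1, g2, g3, ?_⟩
    intro Z hZ dZ hZF
    rcases g5 Z hZ dZ hZF with h | ⟨E, hE, dE, k1, k2⟩
    · have h1 := hφ (v F, Z) (by
        rw [hK, Finset.mem_union]
        right
        rw [Finset.mem_biUnion]
        exact ⟨F, mem_fs.2 ⟨hF, bot_le hF, hF.sub, dF⟩, Finset.mem_image.2 ⟨Z, h, rfl⟩⟩)
      simp only at h1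
      linarith
    · exact hedge _ _ E g1 hZ hE g2 dZ dE k1 k2)
  omega

/-- `g_2` is nonnegative for intervals of dimension five -/
theorem g2_four {A B : Finset W} (hA : P.Cl A) (hB : P.Cl B) (hAB : A ⊆ B)
    (hd : dm B = dm A + 5) :
    4 * (P.fs A B (dm A + 1)).card + 3 * (P.fs A B (dm A + 3)).card ≤
      (P.fs A B (dm A + 2)).card + ∑ F ∈ P.fs A B (dm A + 3), (P.fs A F (dm A + 1)).card + 10 := by
  classical
  have hf := q_finrank hA hB hAB
  have h := g2_top (P := quo P hA hB hAB) (n := 5) (by norm_num) (by omega)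
  rw [q_bot hA hB hAB, quo_V] at h
  have hl := Finset.Subset.refl A
  have hr := Finset.Subset.refl B
  rw [q_card hA hB hAB hA hl hAB hB hAB hr, q_card hA hB hAB hA hl hAB hB hAB hr,
    q_card hA hB hAB hA hl hAB hB hAB hr] at h
  have h2 : Fintype.card {p : Fin 5 × Fin 5 // p.1 < p.2} = 10 := by decide
  have h3 : ∑ F ∈ (quo P hA hB hAB).fs (qim A B A) (qim A B B) 3,
      ((quo P hA hB hAB).fs (qim A B A) F 1).card =
      ∑ F ∈ P.fs A B (dm A + 3), (P.fs A F (dm A + 1)).card := by
    symm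
    apply Finset.sum_bij (fun X _ => qim A B X)
    · intro X hX
      rw [mem_fs] at hX ⊢
      obtain ⟨h1, h2, h3, h4⟩ := hX
      refine ⟨q_cl hA hB hAB h1 h2 h3, (q_sub hB hA hl hAB h1 h2 h3).2 h2,
        (q_sub hB h1 h2 h3 hB hAB hr).2 h3, ?_⟩
      have := q_dm (A := A) (B := B) (C := X) h2 h3
      omega
    · intro X hX Y hY h
      rw [mem_fs] at hX hY
      exact q_inj hB hX.1 hX.2.1 hX.2.2.1 hY.1 hY.2.1 hY.2.2.1 h
    · intro X' hX'
      rw [mem_fs] at hX'
      obtain ⟨h1, h2, h3, h4⟩ := hX'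
      obtain ⟨X, k1, k2, k3, rfl⟩ := q_surj hA hB hAB h1
      refine ⟨X, mem_fs.2 ⟨k1, k2, k3, ?_⟩, rfl⟩
      have := q_dm (A := A) (B := B) (C := X) k2 k3
      omega
    · intro X hX
      rw [mem_fs] at hX
      rw [q_card hA hB hAB hA hl hAB hX.1 hX.2.1 hX.2.2.1]
  rw [h2, h3] at h
  omega

end Run7.h340
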