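import Pool.Agent.Run7.h340.Flat

set_option autoImplicit false
set_option linter.unusedSectionVars false
set_option linter.unusedVariables false

/-!
# Infinitesimal rigidity of 3-polytopes, with flat faces of any size
-/

namespace Run7.h340

open Finset Pool.Agent.Helper715 Pool.Agent.Helper715.CP

variable {W : Type*} [NormedAddCommGroup W] [InnerProductSpace ℝ W] [FiniteDimensional ℝ W]

/-- dual two-forms in dimension four -/
structure Du (b : OrthonormalBasis (Fin 4) ℝ W) (T S : W →ₗ[ℝ] W) : Prop where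
  sT : Skew T
  sS : Skew S
  e01 : inner ℝ (S (b 0)) (b 1) = inner ℝ (T (b 2)) (b 3)
  e02 : inner ℝ (S (b 0)) (b 2) = - inner ℝ (T (b 1)) (b 3)
  e03 : inner ℝ (S (b 0)) (b 3) = inner ℝ (T (b 1)) (b 2)
  e12 : inner ℝ (S (b 1)) (b 2) = inner ℝ (T (b 0)) (b 3)
  e13 : inner ℝ (S (b 1)) (b 3) = - inner ℝ (T (b 0)) (b 2)
  e23 : inner ℝ (S (b 2)) (b 3) = inner ℝ (T (b 0)) (b 1)

variable {b : OrthonormalBasis (Fin 4) ℝ W}

theorem Du.symm {T S : W →ₗ[ℝ] W} (h : Du b T S) : Du b S T where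
  sT := h.sS
  sS := h.sT
  e01 := h.e23.symm
  e02 := by rw [h.e13]; ring
  e03 := h.e12.symm
  e12 := h.e03.symm
  e13 := by rw [h.e02]; ring
  e23 := h.e01.symm

theorem Du.sub {T S T' S' : W →ₗ[ℝ] W} (h : Du b T S) (h' : Du b T' S') : Du b (T - T') (S - S') where
  sT := h.sT.sub h'.sT
  sS := h.sS.sub h'.sS
  e01 := by simp only [LinearMap.sub_apply, inner_sub_left, h.e01, h'.e01]
  e02 := by simp only [LinearMap.sub_apply, inner_sub_left, h.e02, h'.e02]; ring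
  e03 := by simp only [LinearMap.sub_apply, inner_sub_left, h.e03, h'.e03]
  e12 := by simp only [LinearMap.sub_apply, inner_sub_left, h.e12, h'.e12]
  e13 := by simp only [LinearMap.sub_apply, inner_sub_left, h.e13, h'.e13]; ring
  e23 := by simp only [LinearMap.sub_apply, inner_sub_left, h.e23, h'.e23]

theorem exists_dual {T : W →ₗ[ℝ] W} (hT : Skew T) : ∃ S, Du b T S := by
  have ho : ∀ i j, inner ℝ (b i) (b j) = if i = j then (1 : ℝ) else 0 := fun i j =>
    b.inner_eq_ite i j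
  refine ⟨(inner ℝ (T (b 2)) (b 3) : ℝ) • wd (b 0) (b 1) +
    (- inner ℝ (T (b 1)) (b 3) : ℝ) • wd (b 0) (b 2) +
    (inner ℝ (T (b 1)) (b 2) : ℝ) • wd (b 0) (b 3) +
    (inner ℝ (T (b 0)) (b 3) : ℝ) • wd (b 1) (b 2) +
    (- inner ℝ (T (b 0)) (b 2) : ℝ) • wd (b 1) (b 3) +
    (inner ℝ (T (b 0)) (b 1) : ℝ) • wd (b 2) (b 3), hT, ?_, ?_, ?_, ?_, ?_, ?_, ?_⟩
  · exact ((((((skew_wd _ _).smul _).add ((skew_wd _ _).smul _)).add ((skew_wd _ _).smul _)).add
      ((skew_wd _ _).smul _)).add ((skew_wd _ _).smul _)).add ((skew_wd _ _).smul _)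
  all_goals
    simp only [LinearMap.add_apply, LinearMap.smul_apply, inner_add_left, real_inner_smul_left,
      inner_wd, ho]
    simp

theorem Du.orth {T S : W →ₗ[ℝ] W} (h : Du b T S) {v n n' : W} (hv : T v = 0) (hv0 : v ≠ 0)
    (hn : inner ℝ v n = 0) (hn' : inner ℝ v n' = 0) : inner ℝ (S n) n' = 0 := by
  have hsum : ∀ y : W, y = (inner ℝ (b 0) y : ℝ) • b 0 + (inner ℝ (b 1) y : ℝ) • b 1 +
      (inner ℝ (b 2) y : ℝ) • b 2 + (inner ℝ (b 3) y : ℝ) • b 3 := by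
    intro y
    conv_lhs => rw [← b.sum_repr' y]
    rw [Fin.sum_univ_four]
  have ho : ∀ i j, inner ℝ (b i) (b j) = if i = j then (1 : ℝ) else 0 := fun i j =>
    b.inner_eq_ite i j
  obtain ⟨v0, v1, v2, v3, hve⟩ : ∃ v0 v1 v2 v3 : ℝ, v = v0 • b 0 + v1 • b 1 + v2 • b 2 + v3 • b 3 :=
    ⟨_, _, _, _, hsum v⟩
  obtain ⟨n0, n1, n2, n3, hne⟩ : ∃ v0 v1 v2 v3 : ℝ, n = v0 • b 0 + v1 • b 1 + v2 • b 2 + v3 • b 3 :=
    ⟨_, _, _, _, hsum n⟩
  obtain ⟨m0, m1, m2, m3, hme⟩ : ∃ v0 v1 v2 v3 : ℝ, n' = v0 • b 0 + v1 • b 1 + v2 • b 2 + v3 • b 3 :=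
    ⟨_, _, _, _, hsum n'⟩
  have T00 := h.sT.self (b 0)
  have T11 := h.sT.self (b 1)
  have T22 := h.sT.self (b 2)
  have T33 := h.sT.self (b 3)
  have T10 := h.sT (b 1) (b 0)
  have T20 := h.sT (b 2) (b 0)
  have T30 := h.sT (b 3) (b 0)
  have T21 := h.sT (b 2) (b 1)
  have T31 := h.sT (b 3) (b 1)
  have T32 := h.sT (b 3) (b 2)
  have S00 := h.sS.self (b 0)
  have S11 := h.sS.self (b 1)
  have S22 := h.sS.self (b 2)
  have S33 := h.sS.self (b 3)
  have S10 := h.sS (b 1) (b 0)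
  have S20 := h.sS (b 2) (b 0)
  have S30 := h.sS (b 3) (b 0)
  have S21 := h.sS (b 2) (b 1)
  have S31 := h.sS (b 3) (b 1)
  have S32 := h.sS (b 3) (b 2)
  have r0 : inner ℝ (T v) (b 0) = 0 := by rw [hv, inner_zero_left]
  have r1 : inner ℝ (T v) (b 1) = 0 := by rw [hv, inner_zero_left]
  have r2 : inner ℝ (T v) (b 2) = 0 := by rw [hv, inner_zero_left]
  have r3 : inner ℝ (T v) (b 3) = 0 := by rw [hv, inner_zero_left]
  rw [hve] at r0 r1 r2 r3
  simp only [map_add, map_smul, inner_add_left, real_inner_smul_left] at r0 r1 r2 r3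
  rw [T00, T10, T20, T30] at r0
  rw [T11, T21, T31] at r1
  rw [T22, T32] at r2
  rw [T33] at r3
  have hvn : v0 * n0 + v1 * n1 + v2 * n2 + v3 * n3 = 0 := by
    rw [← hn, hve, hne]
    simp only [inner_add_left, inner_add_right, real_inner_smul_left, real_inner_smul_right, ho]
    simp
    ring
  have hvm : v0 * m0 + v1 * m1 + v2 * m2 + v3 * m3 = 0 := by
    rw [← hn', hve, hme]
    simp only [inner_add_left, inner_add_right, real_inner_smul_left, real_inner_smul_right, ho]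
    simp
    ring
  rw [hne, hme]
  simp only [map_add, map_smul, inner_add_left, inner_add_right, real_inner_smul_left,
    real_inner_smul_right]
  rw [S00, S11, S22, S33, S10, S20, S30, S21, S31, S32, h.e01, h.e02, h.e03, h.e12, h.e13, h.e23]
  generalize inner ℝ (T (b 0)) (b 1) = t01 at *
  generalize inner ℝ (T (b 0)) (b 2) = t02 at *
  generalize inner ℝ (T (b 0)) (b 3) = t03 at *
  generalize inner ℝ (T (b 1)) (b 2) = t12 at *
  generalize inner ℝ (T (b 1)) (b 3) = t13 at *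
  generalize inner ℝ (T (b 2)) (b 3) = t23 at *
  have hne0 : v0 ≠ 0 ∨ v1 ≠ 0 ∨ v2 ≠ 0 ∨ v3 ≠ 0 := by
    by_contra hcon
    push Not at hcon
    obtain ⟨g0, g1, g2, g3⟩ := hcon
    apply hv0
    rw [hve, g0, g1, g2, g3]
    simp
  rcases hne0 with hk | hk | hk | hk
  · apply mul_left_cancel₀ hk
    linear_combination (t23 * m1 - t13 * m2 + t12 * m3) * hvn - (t23 * n1 - t13 * n2 + t12 * n3) * hvm +
      (n1 * m2 - n2 * m1) * r3 - (n1 * m3 - n3 * m1) * r2 + (n2 * m3 - n3 * m2) * r1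
  · apply mul_left_cancel₀ hk
    linear_combination (- t23 * m0 + t03 * m2 - t02 * m3) * hvn + (t23 * n0 - t03 * n2 + t02 * n3) * hvm -
      (n0 * m2 - n2 * m0) * r3 + (n0 * m3 - n3 * m0) * r2 - (n2 * m3 - n3 * m2) * r0
  · apply mul_left_cancel₀ hk
    linear_combination (t13 * m0 - t03 * m1 + t01 * m3) * hvn + (- t13 * n0 + t03 * n1 - t01 * n3) * hvm +
      (n0 * m1 - n1 * m0) * r3 - (n0 * m3 - n3 * m0) * r1 + (n1 * m3 - n3 * m1) * r0
  · apply mul_left_cancel₀ hk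
    linear_combination (- t12 * m0 + t02 * m1 - t01 * m2) * hvn + (t12 * n0 - t02 * n1 + t01 * n2) * hvm -
      (n0 * m1 - n1 * m0) * r2 + (n0 * m2 - n2 * m0) * r1 - (n1 * m2 - n2 * m1) * r0

variable {P : CP W} {x φ : Finset W → W}

theorem gs_ne_zero {F : Finset W} (hF : P.Cl F) (hd : dm F < Module.finrank ℝ W) : P.gs F ≠ 0 := by
  intro h
  have : F = P.V := by
    by_contra hne
    obtain ⟨b, hb, hbF⟩ : ∃ b ∈ P.V, b ∉ F := by
      by_contra hcon
      push Not at hcon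
      exact hne (Finset.Subset.antisymm hF.sub hcon)
    have := gs_pos hF hb hbF
    rw [h, inner_zero_left] at this
    exact lt_irrefl _ this
  rw [this, dm_top] at hd
  omega

/-- a skew operator vanishing on a hyperplane is zero -/
theorem skew_zero {F : Finset W} (hF : P.Cl F) (hd : dm F + 1 = Module.finrank ℝ W) {D : W →ₗ[ℝ] W}
    (hD : Skew D) (h : ∀ y ∈ F, D y = 0) (w : W) : D w = 0 := by
  have h1 : ∀ w, ∃ c : ℝ, D w = c • P.gs F := by
    intro w
    apply normal_unique hF hd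
    intro y hy
    rw [hD, h y hy, inner_zero_left, neg_zero]
  have h2 : D (P.gs F) = 0 := by
    obtain ⟨c, hc⟩ := h1 (P.gs F)
    have h3 := hD.self (P.gs F)
    rw [hc, real_inner_smul_left] at h3
    rcases mul_eq_zero.1 h3 with h4 | h4
    · rw [hc, h4, zero_smul]
    · rw [inner_self_eq_zero] at h4
      rw [h4, map_zero]
  obtain ⟨c, hc⟩ := h1 w
  have h5 : inner ℝ (D w) (D w) = 0 := by
    conv_lhs => rw [hc]
    rw [real_inner_smul_left, real_inner_comm, real_inner_smul_left,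
      ← real_inner_comm, real_inner_comm, ← real_inner_smul_left]
    have := hD w (P.gs F)
    rw [h2, inner_zero_left, neg_zero, hc, real_inner_smul_left] at this
    rw [real_inner_smul_left, this, mul_zero]
  exact inner_self_eq_zero.1 h5

theorem zero_of_two {F F' : Finset W} (hF : P.Cl F) (hF' : P.Cl F')
    (hd : dm F + 1 = Module.finrank ℝ W) (hd' : dm F' = dm F) (hne : F ≠ F') {z : W}
    (h : ∀ y ∈ F, inner ℝ z y = 0) (h' : ∀ y ∈ F', inner ℝ z y = 0) : z = 0 := by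
  obtain ⟨c, hc⟩ := normal_unique hF hd h
  obtain ⟨v, hv, hvF⟩ : ∃ v ∈ F', v ∉ F := by
    by_contra hcon
    push Not at hcon
    exact hne (eq_of_dm_le hF' hF hcon (by rw [hd'])).symm
  have h1 := h' v hv
  rw [hc, real_inner_smul_left] at h1
  rcases mul_eq_zero.1 h1 with h2 | h2
  · rw [hc, h2, zero_smul]
  · exact absurd h2 (gs_pos hF (hF'.sub hv) hvF).ne'

/-- the two facets through an edge -/
theorem two_facets (hW : Module.finrank ℝ W = 4) {E : Finset W} (hE : P.Cl E) (dE : dm E = 2) :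
    ∃ F F', (P.Cl F ∧ dm F = 3 ∧ E ⊆ F) ∧ (P.Cl F' ∧ dm F' = 3 ∧ E ⊆ F') ∧ F ≠ F' := by
  classical
  have h := euler2 hE (top_cl (P := P)) hE.sub (by rw [dm_top, hW, dE])
  rw [dE] at h
  obtain ⟨a, b, hab, hs⟩ := Finset.card_eq_two.1 h
  have ha : a ∈ P.fs E P.V (2 + 1) := by rw [hs]; simp
  have hb : b ∈ P.fs E P.V (2 + 1) := by rw [hs]; simp
  rw [mem_fs] at ha hb
  exact ⟨a, b, ⟨ha.1, ha.2.2.2, ha.2.1⟩, ⟨hb.1, hb.2.2.2, hb.2.1⟩, hab⟩

/-- a frame of a facet at a given atom; all three atoms are on edges with the given one -/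
theorem frame_at {X F : Finset W} (hX : P.Cl X) (dX : dm X = 1) (hF : P.Cl F) (dF : dm F = 3)
    (hXF : X ⊆ F) : ∃ E E' S Y, Frame P F E S X Y ∧ P.Cl E' ∧ dm E' = 2 ∧ X ⊆ E' ∧ S ⊆ E' := by
  classical
  obtain ⟨E, E', hne, ⟨hE, hXE, hEF, dE⟩, ⟨hE', hXE', hE'F, dE'⟩, _⟩ := diamond hX hF hXF
    (by rw [dF, dX])
  rw [dX] at dE dE'
  obtain ⟨Y, hY, dY, hYE, hYX, hYall⟩ := other_atom hX dX hE dE hXE
  obtain ⟨S, hS, dS, hSE', hSX, hSall⟩ := other_atom hX dX hE' dE' hXE'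
  refine ⟨E, E', S, Y, ⟨hF, dF, hE, dE, hEF, hX, dX, hXE, hY, dY, hYE, hS, dS, hSE'.trans hE'F, ?_,
    hYX.symm⟩, hE', dE', hXE', hSE'⟩
  intro hSE
  rcases hYall S hS dS hSE with h | h
  · exact hSX h
  · apply hne
    subst h
    have hI : P.Cl (E ∩ E') := Cl_inter hE hE'
    have h1 : X ⊆ E ∩ E' := Finset.subset_inter hXE hXE'
    have h2 : S ⊆ E ∩ E' := Finset.subset_inter hSE hSE'
    have h3 : X ≠ E ∩ E' := by
      intro h
      rw [← h] at h2
      exact hSX (eq_of_dm_le hS hX h2 (by rw [dS, dX]))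
    have h4 := dm_lt hX hI h1 h3
    have h5 : E ∩ E' = E := eq_of_dm_le hI hE Finset.inter_subset_left (by omega)
    have h6 : E ∩ E' = E' := eq_of_dm_le hI hE' Finset.inter_subset_right (by omega)
    rw [← h5, h6]

theorem rigid3 (hW : Module.finrank ℝ W = 4) (hm : Mot P x φ) :
    ∃ B : W →ₗ[ℝ] W, Skew B ∧ ∀ Z, P.Cl Z → dm Z = 1 → φ Z = B (x Z) := by
  classical
  let b : OrthonormalBasis (Fin 4) ℝ W := (stdOrthonormalBasis ℝ W).reindex (finCongr hW)
  -- operators on faces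
  have hB : ∀ F : Finset W, ∃ B : W →ₗ[ℝ] W, Skew B ∧ (P.Cl F → dm F = 3 →
      ∀ Z, P.Cl Z → dm Z = 1 → Z ⊆ F → φ Z = B (x Z)) := by
    intro F
    by_cases h : P.Cl F ∧ dm F = 3
    · obtain ⟨B, h1, h2⟩ := bend hW hm h.1 h.2
      exact ⟨B, h1, fun _ _ => h2⟩
    · exact ⟨0, fun y z => by simp, fun h1 h2 => absurd ⟨h1, h2⟩ h⟩
  choose B skB hB using hB
  have hB' : ∀ F, ∃ B', Du b (B F) B' := fun F => exists_dual (skB F)
  choose B' hB' using hB'
  -- the dual points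
  have hn : ∀ G : Finset W, ∃ n : W, P.swap.Cl G → dm G = 1 → n ∈ G ∧ n ≠ 0 := by
    intro G
    by_cases h : P.swap.Cl G ∧ dm G = 1
    · have : ∃ n ∈ G, n ≠ 0 := by
        by_contra hcon
        push Not at hcon
        have h1 : Submodule.span ℝ (G : Set W) = ⊥ := by
          rw [Submodule.span_eq_bot]
          intro x hx
          exact hcon x hx
        have h2 := h.2
        rw [dm, h1, finrank_bot] at h2
        omega
      obtain ⟨n, h1, h2⟩ := this
      exact ⟨n, fun _ _ => ⟨h1, h2⟩⟩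
    · exact ⟨0, fun h1 h2 => absurd ⟨h1, h2⟩ h⟩
  choose n hn using hn
  -- faces and dual atoms
  have hdual : ∀ G, P.swap.Cl G → P.Cl (perp P.V G) ∧ perp P.G (perp P.V G) = G ∧
      dm (perp P.V G) + dm G = 4 := by
    intro G hG
    refine ⟨Cl_perpV (P := P) hG.sub, hG, ?_⟩
    have h1 := dm_add (P := P.swap) hG
    rw [hW] at h1
    simp only [swap_G] at h1
    omega
  have hm' : Mot P.swap n (fun G => B' (perp P.V G) (n G)) := by
    refine ⟨fun G hG dG => (hn G hG dG).1, fun G hG dG => (hn G hG dG).2,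
      fun G hG dG => (hB' _).sS.self _, ?_⟩
    intro G₁ G₂ H h1 h2 hH d1 d2 dH s1 s2
    obtain ⟨k1, k2, k3⟩ := hdual G₁ h1
    obtain ⟨l1, l2, l3⟩ := hdual G₂ h2
    obtain ⟨m1, m2, m3⟩ := hdual H hH
    set F₁ := perp P.V G₁ with hF₁
    set F₂ := perp P.V G₂ with hF₂
    set X := perp P.V H with hX
    have sX1 : X ⊆ F₁ := perp_anti s1
    have sX2 : X ⊆ F₂ := perp_anti s2
    have e1 := hB F₁ k1 (by omega) X m1 (by omega) sX1
    have e2 := hB F₂ l1 (by omega) X m1 (by omega) sX2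
    have hx := hm.mem X m1 (by omega)
    have hx0 := hm.nz X m1 (by omega)
    have horth : ∀ G F, n G ∈ G → perp P.V G = F → X ⊆ F → inner ℝ (x X) (n G) = 0 := by
      intro G F hnG hGF hXF
      have := hXF hx
      rw [← hGF, mem_perp] at this
      exact this.2 _ hnG
    have h3 := ((hB' F₁).sub (hB' F₂)).orth (v := x X) (n := n G₁) (n' := n G₂)
      (by rw [LinearMap.sub_apply, ← e1, ← e2, sub_self]) hx0
      (horth G₁ F₁ (hn G₁ h1 d1).1 rfl sX1) (horth G₂ F₂ (hn G₂ h2 d2).1 rfl sX2)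
    rw [LinearMap.sub_apply, inner_sub_left] at h3
    have h4 := (hB' F₂).sS (n G₁) (n G₂)
    linarith
  -- operators at vertices
  have hC : ∀ X : Finset W, ∃ C C' : W →ₗ[ℝ] W, Du b C C' ∧ (P.Cl X → dm X = 1 →
      ∀ F, P.Cl F → dm F = 3 → X ⊆ F → B' F (n (perp P.G F)) = C' (n (perp P.G F))) := by
    intro X
    by_cases h : P.Cl X ∧ dm X = 1
    · have h1 := dm_add h.1
      obtain ⟨C', h2, h3⟩ := bend (P := P.swap) hW hm' (F := perp P.G X) (Cl_perp h.1.sub)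
        (by rw [hW] at h1; omega)
      obtain ⟨C, hC⟩ := exists_dual (b := b) h2
      refine ⟨C, C', hC.symm, fun _ _ F hF dF hXF => ?_⟩
      have h4 := dm_add hF
      have h5 := h3 (perp P.G F) (Cl_perp hF.sub) (by rw [hW] at h4; omega) (perp_anti hXF)
      rw [← h5]
      show _ = B' (perp P.V (perp P.G F)) _
      rw [show perp P.V (perp P.G F) = F from hF]
    · obtain ⟨C', hC'⟩ := exists_dual (b := b) (T := 0) (fun y z => by simp)
      exact ⟨0, C', hC', fun h1 h2 => absurd ⟨h1, h2⟩ h⟩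
  choose C C' hCC hC using hC
  have key : ∀ X F, P.Cl X → dm X = 1 → P.Cl F → dm F = 3 → X ⊆ F → ∀ y ∈ F, ∀ y' ∈ F,
      inner ℝ ((B F - C X) y) y' = 0 := by
    intro X F hX dX hF dF hXF y hy y' hy'
    have h1 := ((hB' F).sub (hCC X)).symm
    have h4 := dm_add hF
    obtain ⟨g1, g2⟩ := hn (perp P.G F) (Cl_perp hF.sub) (by rw [hW] at h4; omega)
    refine h1.orth (v := n (perp P.G F)) ?_ g2 ?_ ?_
    · rw [LinearMap.sub_apply, hC X hX dX F hF dF hXF, sub_self]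
    · exact (mem_perp.1 g1).2 y hy
    · exact (mem_perp.1 g1).2 y' hy'
  -- values at the ends of edges
  have key2 : ∀ X Z E, P.Cl X → dm X = 1 → P.Cl Z → dm Z = 1 → P.Cl E → dm E = 2 → X ⊆ E → Z ⊆ E →
      C X (x Z) = φ Z := by
    intro X Z E hX dX hZ dZ hE dE hXE hZE
    obtain ⟨F, F', ⟨hF, dF, hEF⟩, ⟨hF', dF', hEF'⟩, hne⟩ := two_facets hW hE dE
    have h : ∀ F, P.Cl F → dm F = 3 → E ⊆ F → ∀ y ∈ F, inner ℝ (φ Z - C X (x Z)) y = 0 := by
      intro F hF dF hEF y hy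
      have := key X F hX dX hF dF (hXE.trans hEF) (x Z) (hEF (hZE (hm.mem Z hZ dZ))) y hy
      rwa [LinearMap.sub_apply, ← hB F hF dF Z hZ dZ (hZE.trans hEF)] at this
    have := zero_of_two hF hF' (by rw [dF, hW]) (by rw [dF, dF']) hne (h F hF dF hEF)
      (h F' hF' dF' hEF')
    exact (sub_eq_zero.1 this).symm
  -- equality of the operators
  have key3 : ∀ X F, P.Cl X → dm X = 1 → P.Cl F → dm F = 3 → X ⊆ F → ∀ w, B F w = C X w := by
    intro X F hX dX hF dF hXF w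
    obtain ⟨E, E', S, Y, f, hE', dE', hXE', hSE'⟩ := frame_at hX dX hF dF hXF
    have h0 := skew_zero hF (by rw [dF, hW]) (D := B F - C X) ((skB F).sub (hCC X).sT) (by
      intro y hy
      obtain ⟨α, β, γ, h⟩ := rep3 hm f (v := y) (Submodule.subset_span hy)
      have g1 : (B F - C X) (x S) = 0 := by
        rw [LinearMap.sub_apply, ← hB F hF dF S f.hS f.dS f.hSF,
          key2 X S E' hX dX f.hS f.dS hE' dE' hXE' hSE', sub_self]
      have g2 : (B F - C X) (x X) = 0 := by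
        rw [LinearMap.sub_apply, ← hB F hF dF X hX dX hXF,
          key2 X X E' hX dX hX dX hE' dE' hXE' hXE', sub_self]
      have g3 : (B F - C X) (x Y) = 0 := by
        rw [LinearMap.sub_apply, ← hB F hF dF Y f.hY f.dY (f.hYE.trans f.hEF),
          key2 X Y E hX dX f.hY f.dY f.hE f.dE f.hXE f.hYE, sub_self]
      rw [h, map_add, map_add, map_smul, map_smul, map_smul, g1, g2, g3]
      simp) w
    rw [LinearMap.sub_apply] at h0
    exact sub_eq_zero.1 h0
  -- connectivity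
  obtain ⟨X₀, hX₀, _, _, dX₀⟩ := exists_mid (P := P) bot_cl top_cl (bot_le top_cl) (j := 1)
    (by rw [dm_bot]; omega) (by rw [dm_top, hW]; omega)
  have hcov : ∀ Z, P.Cl Z → dm Z = 1 → P.Cov P.bot P.V Z := fun Z hZ dZ =>
    ⟨hZ, bot_le hZ, hZ.sub, by rw [dm_bot, dZ]⟩
  refine ⟨C X₀, (hCC X₀).sT, ?_⟩
  intro Z hZ dZ
  have hpath := conn bot_cl top_cl (hcov X₀ hX₀ dX₀) (hcov Z hZ dZ)
  have hcon : ∀ w, C Z w = C X₀ w := by
    clear hZ dZ
    induction hpath with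
    | refl => intro w; rfl
    | tail _ h1 ih =>
      intro w
      rw [← ih w]
      obtain ⟨c1, c2, D, hD, g1, g2, g3, g4⟩ := h1
      rw [dm_bot] at g4
      have d1 := c1.dim
      have d2 := c2.dim
      rw [dm_bot] at d1 d2
      obtain ⟨F, F', ⟨hF, dF, hEF⟩, _, _⟩ := two_facets hW hD g4
      rw [← key3 _ F c1.cl d1 hF dF (g1.trans hEF), ← key3 _ F c2.cl d2 hF dF (g2.trans hEF)]
  obtain ⟨E, hE, hZE, _, dE⟩ := exists_mid (P := P) hZ top_cl hZ.sub (j := 2) (by omega)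
    (by rw [dm_top, hW]; omega)
  rw [← hcon, key2 Z Z E hZ dZ hZ dZ hE dE hZE hZE]

end Run7.h340
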