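import Pool.Agent.helper529_fat.Simple

set_option autoImplicit false
set_option linter.unusedSectionVars false
set_option linter.unusedVariables false

/-!
# Pairs of closed sets on the two sides of a functional, and the number of covers
-/

namespace Run7.h340

open Finset Pool.Agent.Helper715 Pool.Agent.Helper715.CP

variable {W : Type*} [NormedAddCommGroup W] [InnerProductSpace ℝ W] [FiniteDimensional ℝ W]
variable {P : CP W}

/-- a point of `B` outside of `A` is avoided by some facet of `B` containing `A` -/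
theorem cocover {A B : Finset W} (hA : P.Cl A) (hB : P.Cl B) (hAB : A ⊆ B) {v : W} (hv : v ∈ B)
    (hvA : v ∉ A) : ∃ K, P.Cl K ∧ A ⊆ K ∧ K ⊆ B ∧ dm K + 1 = dm B ∧ v ∉ K := by
  obtain ⟨g, hg, hgv⟩ := exists_pos hA (hB.sub hv) hvA
  obtain ⟨C, hC, h1, h2, h3, c, hc, hc0⟩ := cover_up (P := P.swap) (A := perp P.G B)
    (B := perp P.G A) (Cl_perp hB.sub) (Cl_perp hA.sub) (perp_anti hAB) (y := v)
    (fun a ha => by rw [real_inner_comm]; exact (mem_perp.1 ha).2 v hv)
    ⟨g, hg, by rw [real_inner_comm]; exact hgv⟩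
  have e1 := dm_add (P := P.swap) hC
  have e2 := dm_add hB
  simp only [swap_G] at e1
  refine ⟨perp P.V C, Cl_perpV hC.sub, ?_, ?_, by omega, ?_⟩
  · intro a ha
    rw [mem_perp]
    exact ⟨hA.sub ha, fun g hg => by rw [real_inner_comm]; exact (mem_perp.1 (h2 hg)).2 a ha⟩
  · have := perp_anti (G := P.V) h1
    rwa [show perp P.V (perp P.G B) = B from hB] at this
  · intro hvK
    have := (mem_perp.1 hvK).2 c hc
    linarith

/-- if a functional takes a nonpositive value on `B` outside of `A`, it does so on a cover -/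
theorem exists_cov_le {A B : Finset W} (hA : P.Cl A) (hB : P.Cl B) (hAB : A ⊆ B) {c : W}
    (hc : ∀ a ∈ A, inner ℝ c a = 0) (hx : ∃ x ∈ B, x ∉ A ∧ inner ℝ c x ≤ 0) :
    ∃ Y, P.Cov A B Y ∧ ∃ x ∈ Y, x ∉ A ∧ inner ℝ c x ≤ 0 := by
  classical
  obtain ⟨x, hx, hxA, hx0⟩ := hx
  have hlt : dm A < dm B := dm_lt hA hB hAB (by rintro rfl; exact hxA hx)
  obtain ⟨M, ⟨b, hb, hbA, hbM⟩, hM⟩ := exists_maxr hA hB hAB hlt (y := -c)
    (fun a ha => by rw [inner_neg_left, hc a ha, neg_zero])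
  have hM0 : 0 ≤ M := by
    by_contra hcon
    push Not at hcon
    have h1 := hM x hx
    have h2 := gs_pos hA (hB.sub hx) hxA
    rw [inner_neg_left] at h1
    nlinarith
  have hz : ∀ v, inner ℝ (M • P.gs A + c) v = M * inner ℝ (P.gs A) v + inner ℝ c v := by
    intro v
    rw [inner_add_left, real_inner_smul_left]
  have hF : P.Cl (B.filter (fun v => inner ℝ (M • P.gs A + c) v = 0)) := by
    refine Cl_filter hB (z := M • P.gs A + c) (fun v hv => ?_) (fun v => by rw [Finset.mem_filter])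
    have := hM v hv
    rw [inner_neg_left] at this
    rw [hz]
    linarith
  have hAF : A ⊆ B.filter (fun v => inner ℝ (M • P.gs A + c) v = 0) := by
    intro a ha
    rw [Finset.mem_filter, hz, gs_zero ha, hc a ha]
    exact ⟨hAB ha, by ring⟩
  have hbF : b ∈ B.filter (fun v => inner ℝ (M • P.gs A + c) v = 0) := by
    rw [Finset.mem_filter, hz]
    rw [inner_neg_left] at hbM
    exact ⟨hb, by linarith⟩
  obtain ⟨Y, hY, h1, h2, h3⟩ := exists_cover hA hF hAF (by intro h; rw [← h] at hbF; exact hbA hbF)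
  have hYB : P.Cov A B Y := ⟨hY, h1, h2.trans (Finset.filter_subset _ _), h3⟩
  obtain ⟨y, hy, hyA⟩ := hYB.exists_nm hA
  refine ⟨Y, hYB, y, hy, hyA, ?_⟩
  have h4 := h2 hy
  rw [Finset.mem_filter, hz] at h4
  have h5 := gs_nonneg (P := P) A (hB.sub h4.1)
  have := mul_nonneg hM0 h5
  linarith [h4.2]

/-- a large closed set on which `c` is nonpositive, and one on which it is positive outside of
`A` -/
theorem two_sides (n : ℕ) : ∀ (A B : Finset W) (c : W), P.Cl A → P.Cl B → A ⊆ B →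
    dm B = dm A + n → (∀ a ∈ A, inner ℝ c a = 0) →
    ∃ D U, (P.Cl D ∧ A ⊆ D ∧ D ⊆ B) ∧ (P.Cl U ∧ A ⊆ U ∧ U ⊆ B) ∧ (∀ x ∈ D, inner ℝ c x ≤ 0) ∧
      (∀ x ∈ U, x ∉ A → 0 < inner ℝ c x) ∧ dm B + dm A ≤ dm D + dm U := by
  classical
  induction n with
  | zero =>
    intro A B c hA hB hAB hd hc
    exact ⟨A, A, ⟨hA, Finset.Subset.refl _, hAB⟩, ⟨hA, Finset.Subset.refl _, hAB⟩,
      fun x hx => (hc x hx).le, fun x hx hx' => absurd hx hx', by omega⟩
  | succ n ih =>
    intro A B c hA hB hAB hd hc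
    by_cases hall : ∀ x ∈ B, x ∉ A → 0 < inner ℝ c x
    · exact ⟨A, B, ⟨hA, Finset.Subset.refl _, hAB⟩, ⟨hB, hAB, Finset.Subset.refl _⟩,
        fun x hx => (hc x hx).le, hall, by omega⟩
    push Not at hall
    obtain ⟨Y0, hY0, hY0x⟩ := exists_cov_le hA hB hAB hc hall
    have hrat : ∀ Y : Finset W, ∃ ρ : ℝ, P.Cov A B Y → ∀ x ∈ Y, inner ℝ c x = ρ * inner ℝ (P.gs A) x := by
      intro Y
      by_cases h : P.Cov A B Y
      · obtain ⟨ρ, hρ⟩ := exists_ratio hA h hc
        exact ⟨ρ, fun _ => hρ⟩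
      · exact ⟨0, fun h' => absurd h' h⟩
    choose ρ hρ using hrat
    set T : Finset (Finset W) := (P.fs A B (dm A + 1)).filter
      (fun Y => ∃ x ∈ Y, x ∉ A ∧ inner ℝ c x ≤ 0) with hT
    have memT : ∀ Y, Y ∈ T ↔ P.Cov A B Y ∧ ∃ x ∈ Y, x ∉ A ∧ inner ℝ c x ≤ 0 := by
      intro Y
      rw [hT, Finset.mem_filter, mem_fs]
      rfl
    obtain ⟨G, hG, hmax⟩ := T.exists_max_image ρ ⟨Y0, (memT Y0).2 ⟨hY0, hY0x⟩⟩
    rw [memT] at hG
    obtain ⟨hGc, x0, hx0, hx0A, hx00⟩ := hG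
    have hρG : ρ G ≤ 0 := by
      rw [hρ G hGc x0 hx0] at hx00
      by_contra hcon
      push Not at hcon
      have := mul_pos hcon (gs_pos hA (hGc.cl.sub hx0) hx0A)
      linarith
    have hc' : ∀ x, inner ℝ (c - ρ G • P.gs A) x = inner ℝ c x - ρ G * inner ℝ (P.gs A) x := by
      intro x
      rw [inner_sub_left, real_inner_smul_left]
    obtain ⟨D, U, ⟨hD, hGD, hDB⟩, ⟨hU, hGU, hUB⟩, h1, h2, h3⟩ := ih G B (c - ρ G • P.gs A) hGc.cl hB
      hGc.ge (by rw [hd, hGc.dim]; ring) (fun a ha => by rw [hc', hρ G hGc a ha, sub_self])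
    obtain ⟨K, hK, hAK, hKU, hdK, hx0K⟩ := cocover hA hU (hGc.le.trans hGU) (hGU hx0) hx0A
    refine ⟨D, K, ⟨hD, hGc.le.trans hGD, hDB⟩, ⟨hK, hAK, hKU.trans hUB⟩, ?_, ?_, ?_⟩
    · intro x hx
      have g1 := h1 x hx
      rw [hc'] at g1
      have g2 := gs_nonneg (P := P) A (hD.sub hx)
      nlinarith
    · intro x hx hxA
      by_contra hcon
      push Not at hcon
      obtain ⟨Y, hY, y, hy, hyA, hy0⟩ := exists_cov_le hA hK hAK hc ⟨x, hx, hxA, hcon⟩
      have hYB : P.Cov A B Y := hY.mono (hKU.trans hUB)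
      have g1 := hmax Y ((memT Y).2 ⟨hYB, y, hy, hyA, hy0⟩)
      have hyG : y ∉ G := by
        intro h
        have := cover_eq hA hGc.cl hYB.cl hGc.le hYB.le hGc.dim hYB.dim h hyA hy
        rw [this] at hx0
        exact hx0K (hY.ge hx0)
      have g2 := h2 y (hKU (hY.ge hy)) hyG
      rw [hc', hρ Y hYB y hy] at g2
      have g3 := gs_nonneg (P := P) A (hYB.cl.sub hy)
      nlinarith
    · have := hGc.dim
      omega

/-- an intermediate closed set of given dimension -/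
theorem exists_mid {A B : Finset W} (hA : P.Cl A) (hB : P.Cl B) (hAB : A ⊆ B) {j : ℕ}
    (h1 : dm A ≤ j) (h2 : j ≤ dm B) : ∃ C, P.Cl C ∧ A ⊆ C ∧ C ⊆ B ∧ dm C = j := by
  induction hn : j - dm A generalizing A with
  | zero => exact ⟨A, hA, Finset.Subset.refl _, hAB, by omega⟩
  | succ n ih =>
    obtain ⟨C, hC, g1, g2, g3⟩ := exists_cover hA hB hAB (by rintro rfl; omega)
    obtain ⟨C', hC', k1, k2, k3⟩ := ih hC g2 (by omega) (by omega)
    exact ⟨C', hC', g1.trans k1, k2, k3⟩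

/-- the number of covers is at most twice the number of closed sets in the upper middle level -/
theorem covers_le {A B : Finset W} (hA : P.Cl A) (hB : P.Cl B) (hAB : A ⊆ B) {m : ℕ}
    (hd : dm B = dm A + 2 * m) :
    (P.fs A B (dm A + 1)).card ≤ 2 * (P.fs A B (dm A + m + 1)).card := by
  classical
  obtain ⟨z, r, hz, hr, _, _, hinj⟩ := exists_perturb hA hB (z := P.gs A) (fun a ha => gs_zero ha)
    (fun Y hY => by
      obtain ⟨x, hx, hxA⟩ := hY.exists_nm hA
      exact ⟨x, hx, (gs_pos hA (hY.cl.sub hx) hxA).ne'⟩)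
  have key : ∀ X, P.Cov A B X → ∃ E, E ∈ P.fs A B (dm A + m + 1) ∧ X ⊆ E ∧
      ((∀ Y, P.Cov A E Y → r Y ≤ r X) ∨ (∀ Y, P.Cov A E Y → r X ≤ r Y)) := by
    intro X hX
    have hcx : ∀ Y, P.Cov A B Y → ∀ x ∈ Y, inner ℝ (z - r X • P.gs A) x =
        (r Y - r X) * inner ℝ (P.gs A) x := by
      intro Y hY x hx
      rw [inner_sub_left, real_inner_smul_left, hr Y hY x hx]
      ring
    obtain ⟨D, U, ⟨hD, hXD, hDB⟩, ⟨hU, hXU, hUB⟩, h1, h2, h3⟩ := two_sides (P := P) (dm B - dm X)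
      X B (z - r X • P.gs A) hX.cl hB hX.ge (by have := dm_mono hX.ge; omega)
      (fun a ha => by rw [hcx X hX a ha, sub_self, zero_mul])
    have hXd := hX.dim
    by_cases hDd : dm A + m + 1 ≤ dm D
    · obtain ⟨E, hE, g1, g2, g3⟩ := exists_mid hX.cl hD hXD (j := dm A + m + 1) (by omega) hDd
      refine ⟨E, mem_fs.2 ⟨hE, hX.le.trans g1, g2.trans hDB, g3⟩, g1, Or.inl ?_⟩
      intro Y hY
      have hYB := hY.mono (g2.trans hDB)
      obtain ⟨y, hy, hyA⟩ := hY.exists_nm hA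
      have k1 := h1 y (g2 (hY.ge hy))
      rw [hcx Y hYB y hy] at k1
      have k2 := gs_pos hA (hYB.cl.sub hy) hyA
      by_contra hcon
      push Not at hcon
      have := mul_pos (sub_pos.2 hcon) k2
      linarith
    · obtain ⟨E, hE, g1, g2, g3⟩ := exists_mid hX.cl hU hXU (j := dm A + m + 1) (by omega)
        (by omega)
      refine ⟨E, mem_fs.2 ⟨hE, hX.le.trans g1, g2.trans hUB, g3⟩, g1, Or.inr ?_⟩
      intro Y hY
      have hYB := hY.mono (g2.trans hUB)
      by_cases hYX : Y = X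
      · rw [hYX]
      obtain ⟨y, hy, hyA⟩ := hY.exists_nm hA
      have hyX : y ∉ X := fun h =>
        hYX (cover_eq hA hY.cl hX.cl hY.le hX.le hY.dim hX.dim hy hyA h)
      have k1 := h2 y (g2 (hY.ge hy)) hyX
      rw [hcx Y hYB y hy] at k1
      have k2 := gs_pos hA (hYB.cl.sub hy) hyA
      by_contra hcon
      push Not at hcon
      nlinarith
  choose! E hE using key
  set S := P.fs A B (dm A + 1) with hS
  have memS : ∀ X, X ∈ S → P.Cov A B X := by
    intro X hX
    rw [hS, mem_fs] at hX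
    exact hX
  have hcovE : ∀ X, P.Cov A B X → P.Cov A (E X) X := fun X hX => ⟨hX.cl, hX.le, (hE X hX).2.1, hX.dim⟩
  have c1 : (S.filter (fun X => ∀ Y, P.Cov A (E X) Y → r Y ≤ r X)).card ≤
      (P.fs A B (dm A + m + 1)).card := by
    apply Finset.card_le_card_of_injOn E
    · intro X hX
      have hX := Finset.mem_filter.1 hX
      exact (hE X (memS X hX.1)).1
    · intro X hX Y hY hXY
      have hX := Finset.mem_filter.1 hX
      have hY := Finset.mem_filter.1 hY
      have hXY : E X = E Y := hXY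
      have g1 := hX.2 Y (by rw [hXY]; exact hcovE Y (memS Y hY.1))
      have g2 := hY.2 X (by rw [← hXY]; exact hcovE X (memS X hX.1))
      exact hinj X Y (memS X hX.1) (memS Y hY.1) (le_antisymm g2 g1)
  have c2 : (S.filter (fun X => ¬ ∀ Y, P.Cov A (E X) Y → r Y ≤ r X)).card ≤
      (P.fs A B (dm A + m + 1)).card := by
    apply Finset.card_le_card_of_injOn E
    · intro X hX
      have hX := Finset.mem_filter.1 hX
      exact (hE X (memS X hX.1)).1
    · intro X hX Y hY hXY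
      have hX := Finset.mem_filter.1 hX
      have hY := Finset.mem_filter.1 hY
      have hXY : E X = E Y := hXY
      have g1 := ((hE X (memS X hX.1)).2.2.resolve_left hX.2) Y
        (by rw [hXY]; exact hcovE Y (memS Y hY.1))
      have g2 := ((hE Y (memS Y hY.1)).2.2.resolve_left hY.2) X
        (by rw [← hXY]; exact hcovE X (memS X hX.1))
      exact hinj X Y (memS X hX.1) (memS Y hY.1) (le_antisymm g1 g2)
  have c3 := Finset.card_filter_add_card_filter_not (s := S)
    (fun X => ∀ Y, P.Cov A (E X) Y → r Y ≤ r X)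
  omega

end Run7.h340
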