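import Pool.Agent.Run7.h340.Mid

set_option autoImplicit false
set_option linter.unusedSectionVars false
set_option linter.unusedVariables false

/-!
# A functional on a polygon changes its sign on at most two sides
-/

namespace Run7.h340

open Finset Pool.Agent.Helper715 Pool.Agent.Helper715.CP

variable {W : Type*} [NormedAddCommGroup W] [InnerProductSpace ℝ W] [FiniteDimensional ℝ W]
variable {P : CP W}

/-- covers with positive value -/
noncomputable def pcv (P : CP W) (A B : Finset W) (r : Finset W → ℝ) : Finset (Finset W) := by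
  classical exact (P.fs A B (dm A + 1)).filter (fun Y => 0 < r Y)

/-- sides both of whose ends are positive -/
noncomputable def psd (P : CP W) (A B : Finset W) (r : Finset W → ℝ) : Finset (Finset W) := by
  classical exact (P.fs A B (dm A + 2)).filter (fun F => ∀ Y ∈ P.fs A F (dm A + 1), 0 < r Y)

theorem mem_pcv {A B Y : Finset W} {r : Finset W → ℝ} :
    Y ∈ pcv P A B r ↔ Y ∈ P.fs A B (dm A + 1) ∧ 0 < r Y := by
  classical
  rw [pcv, Finset.mem_filter]

theorem mem_psd {A B F : Finset W} {r : Finset W → ℝ} :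
    F ∈ psd P A B r ↔ F ∈ P.fs A B (dm A + 2) ∧ ∀ Y ∈ P.fs A F (dm A + 1), 0 < r Y := by
  simp only [psd, Finset.mem_filter]

theorem pos_sides {A B : Finset W} (hA : P.Cl A) (hB : P.Cl B) {z : W} {r : Finset W → ℝ}
    (hz : ∀ a ∈ A, inner ℝ z a = 0)
    (hr : ∀ Y, P.Cov A B Y → ∀ x ∈ Y, inner ℝ z x = r Y * inner ℝ (P.gs A) x)
    (hinj : ∀ Y Y', P.Cov A B Y → P.Cov A B Y' → r Y = r Y' → Y = Y') :
    (pcv P A B r).card ≤ (psd P A B r).card + 1 := by
  classical
  set C := pcv P A B r with hC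
  have memC : ∀ Y, Y ∈ C ↔ P.Cov A B Y ∧ 0 < r Y := by
    intro Y
    rw [hC, mem_pcv, mem_fs]
    rfl
  rcases Finset.eq_empty_or_nonempty C with h0 | hne
  · rw [h0, Finset.card_empty]; omega
  obtain ⟨Y0, hY0, hmax⟩ := C.exists_max_image r hne
  have key : ∀ Y, Y ∈ C.erase Y0 → ∃ F Y', P.Cl F ∧ dm F = dm A + 2 ∧ F ⊆ B ∧ Y ⊆ F ∧ Y' ⊆ F ∧
      P.Cov A B Y' ∧ r Y < r Y' := by
    intro Y hY
    rw [Finset.mem_erase] at hY
    have hYc := ((memC Y).1 hY.2).1
    have hY0c := ((memC Y0).1 hY0).1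
    have hlt : r Y < r Y0 := lt_of_le_of_ne (hmax Y hY.2) (fun h => hY.1 (hinj _ _ hYc hY0c h))
    obtain ⟨x0, hx0, hx0A⟩ := hY0c.exists_nm hA
    have hzz : ∀ x, inner ℝ (z - r Y • P.gs A) x = inner ℝ z x - r Y * inner ℝ (P.gs A) x := by
      intro x
      rw [inner_sub_left, real_inner_smul_left]
    obtain ⟨Y', hadj, w, hw, hw0⟩ := up hA hB hYc (z := z - r Y • P.gs A)
      (fun x hx => by rw [hzz, hr Y hYc x hx, sub_self])
      ⟨x0, hY0c.ge hx0, by
        rw [hzz, hr Y0 hY0c x0 hx0]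
        have := mul_pos (sub_pos.2 hlt) (gs_pos hA (hY0c.cl.sub hx0) hx0A)
        linarith⟩
    obtain ⟨_, hY'c, F, hF, g1, g2, g3, g4⟩ := hadj
    refine ⟨F, Y', hF, g4, g3, g1, g2, hY'c, ?_⟩
    rw [hzz, hr Y' hY'c w hw] at hw0
    have h1 := gs_nonneg (P := P) A (hY'c.cl.sub hw)
    by_contra hcon
    push Not at hcon
    nlinarith
  choose! F Y' hF using key
  have h1 : (C.erase Y0).card ≤ (psd P A B r).card := by
    apply Finset.card_le_card_of_injOn F
    · intro Y hY
      obtain ⟨g1, g2, g3, g4, g5, g6, g7⟩ := hF Y hY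
      have hYC := (memC Y).1 (Finset.mem_erase.1 hY).2
      have hYY : Y ≠ Y' Y := by
        intro h
        rw [← h] at g7
        exact lt_irrefl _ g7
      have hAF : A ⊆ F Y := hYC.1.le.trans g4
      refine Finset.mem_coe.2 (mem_psd.2 ⟨mem_fs.2 ⟨g1, hAF, g3, g2⟩, ?_⟩)
      intro Z hZ
      have h2 := euler2 hA g1 hAF g2
      have hZZ : Z = Y ∨ Z = Y' Y := by
        by_contra hcon
        push Not at hcon
        have hsub : ({Z, Y, Y' Y} : Finset (Finset W)) ⊆ P.fs A (F Y) (dm A + 1) := by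
          intro U hU
          simp only [Finset.mem_insert, Finset.mem_singleton] at hU
          rcases hU with rfl | rfl | rfl
          · exact hZ
          · exact mem_fs.2 ⟨hYC.1.cl, hYC.1.le, g4, hYC.1.dim⟩
          · exact mem_fs.2 ⟨g6.cl, g6.le, g5, g6.dim⟩
        have := Finset.card_le_card hsub
        rw [Finset.card_eq_three.2 ⟨Z, Y, Y' Y, hcon.1, hcon.2, hYY, rfl⟩] at this
        omega
      rcases hZZ with h | h
      · rw [h]; exact hYC.2
      · rw [h]; exact hYC.2.trans g7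
    · intro Y1 h1 Y2 h2 heq
      obtain ⟨g1, g2, g3, g4, g5, g6, g7⟩ := hF Y1 h1
      obtain ⟨k1, k2, k3, k4, k5, k6, k7⟩ := hF Y2 h2
      have heq : F Y1 = F Y2 := heq
      have hY1C := ((memC Y1).1 (Finset.mem_erase.1 h1).2).1
      have hY2C := ((memC Y2).1 (Finset.mem_erase.1 h2).2).1
      by_contra hne
      have hAF : A ⊆ F Y1 := hY1C.le.trans g4
      have h2' := euler2 hA g1 hAF g2
      rw [← heq] at k4 k5
      have hsub : ({Y1, Y2, Y' Y1, Y' Y2} : Finset (Finset W)) ⊆ P.fs A (F Y1) (dm A + 1) := by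
        intro U hU
        simp only [Finset.mem_insert, Finset.mem_singleton] at hU
        rcases hU with rfl | rfl | rfl | rfl
        · exact mem_fs.2 ⟨hY1C.cl, hY1C.le, g4, hY1C.dim⟩
        · exact mem_fs.2 ⟨hY2C.cl, hY2C.le, k4, hY2C.dim⟩
        · exact mem_fs.2 ⟨g6.cl, g6.le, g5, g6.dim⟩
        · exact mem_fs.2 ⟨k6.cl, k6.le, k5, k6.dim⟩
      have hcard := Finset.card_le_card hsub
      rw [h2'] at hcard
      have hthird : ∀ U, U ∈ ({Y1, Y2, Y' Y1, Y' Y2} : Finset (Finset W)) → U = Y1 ∨ U = Y2 := by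
        intro U hU
        by_contra hcon
        push Not at hcon
        have : ({U, Y1, Y2} : Finset (Finset W)) ⊆ ({Y1, Y2, Y' Y1, Y' Y2} : Finset (Finset W)) := by
          intro T hT
          simp only [Finset.mem_insert, Finset.mem_singleton] at hT
          rcases hT with rfl | rfl | rfl
          · exact hU
          · simp
          · simp
        have := Finset.card_le_card this
        rw [Finset.card_eq_three.2 ⟨U, Y1, Y2, hcon.1, hcon.2, hne, rfl⟩] at this
        omega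
      rcases hthird (Y' Y1) (by simp) with e1 | e1
      · rw [e1] at g7; exact lt_irrefl _ g7
      rcases hthird (Y' Y2) (by simp) with e2 | e2
      · rw [e1] at g7; rw [e2] at k7; linarith
      · rw [e2] at k7; exact lt_irrefl _ k7
  have h2 := Finset.card_erase_of_mem hY0
  have h3 := Finset.card_pos.2 hne
  omega

/-- a functional changes its sign on at most two sides of a polygon -/
theorem mixed_le_two {A B : Finset W} (hA : P.Cl A) (hB : P.Cl B) (hAB : A ⊆ B)
    (hd : dm B = dm A + 3) {z : W} (hz : ∀ a ∈ A, inner ℝ z a = 0)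
    (hne : ∀ Y, P.Cov A B Y → ∃ x ∈ Y, inner ℝ z x ≠ 0) (S : Finset (Finset W))
    (hS : ∀ F ∈ S, F ∈ P.fs A B (dm A + 2) ∧ (∃ y ∈ F, 0 < inner ℝ z y) ∧
      (∃ y ∈ F, inner ℝ z y < 0)) : S.card ≤ 2 := by
  classical
  obtain ⟨z', r, hz', hr, hneg, hr0, hinj⟩ := exists_perturb hA hB hz hne
  have h1 := pos_sides hA hB hz' hr hinj
  have h2 := pos_sides (P := P) (A := A) (B := B) hA hB (z := -z') (r := fun Y => -r Y)
    (fun a ha => by rw [inner_neg_left, hz' a ha, neg_zero])
    (fun Y hY x hx => by rw [inner_neg_left, hr Y hY x hx]; ring)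
    (fun Y Y' hY hY' h => hinj Y Y' hY hY' (neg_injective h))
  set D := P.fs A B (dm A + 2) with hD
  set Dp := psd P A B r with hDp
  set Dn := psd P A B (fun Y => -r Y) with hDn
  set C := P.fs A B (dm A + 1) with hC
  have h3 : C.card = D.card := euler3 hA hB hAB hd
  have h4 : C.card = (pcv P A B r).card + (pcv P A B (fun Y => -r Y)).card := by
    rw [← Finset.card_union_of_disjoint]
    · congr 1
      ext Y
      rw [Finset.mem_union, mem_pcv, mem_pcv]
      constructor
      · intro hY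
        have := hr0 Y (mem_fs.1 hY)
        rcases lt_or_gt_of_ne this with h | h
        · right; exact ⟨hY, by linarith⟩
        · left; exact ⟨hY, h⟩
      · rintro (h | h) <;> exact h.1
    · rw [Finset.disjoint_left]
      intro Y h h'
      rw [mem_pcv] at h h'
      linarith [h.2, h'.2]
  -- covers inside of a level two set
  have covF : ∀ F ∈ D, ∀ Y, P.Cov A F Y → P.Cov A B Y := fun F hF Y hY => hY.mono (mem_fs.1 hF).2.2.1
  have hsgn : ∀ Y, P.Cov A B Y → (∃ x ∈ Y, 0 < inner ℝ z x) → 0 < r Y := by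
    rintro Y hY ⟨x, hx, hx0⟩
    rcases lt_or_gt_of_ne (hr0 Y hY) with h | h
    · exfalso
      obtain ⟨w, hw, hw0⟩ := (hneg Y hY).1 h
      obtain ⟨c, hc⟩ := exists_ratio hA hY hz
      rw [hc x hx] at hx0
      rw [hc w hw] at hw0
      have g1 := gs_nonneg (P := P) A (hY.cl.sub hx)
      have g2 := gs_nonneg (P := P) A (hY.cl.sub hw)
      rcases le_or_gt 0 c with hc0 | hc0
      · have := mul_nonneg hc0 g2; linarith
      · nlinarith
    · exact h
  have hdisj1 : Disjoint Dp S := by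
    rw [Finset.disjoint_left]
    intro F hF hFS
    obtain ⟨g1, _, y, hy, hy0⟩ := hS F hFS
    have g1' := mem_fs.1 g1
    obtain ⟨Y, k1, k2, k3, k4, w, hw, hw0⟩ := cover_up hA g1'.1 g1'.2.1 (y := -z)
      (fun a ha => by rw [inner_neg_left, hz a ha, neg_zero])
      ⟨y, hy, by rw [inner_neg_left]; linarith⟩
    rw [inner_neg_left] at hw0
    have hYc : P.Cov A F Y := ⟨k1, k2, k3, k4⟩
    have := (hneg Y (covF F g1 Y hYc)).2 ⟨w, hw, by linarith⟩
    have h5 := (mem_psd.1 hF).2 Y (mem_fs.2 hYc)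
    linarith
  have hdisj2 : Disjoint Dn S := by
    rw [Finset.disjoint_left]
    intro F hF hFS
    obtain ⟨g1, ⟨y, hy, hy0⟩, _⟩ := hS F hFS
    have g1' := mem_fs.1 g1
    obtain ⟨Y, k1, k2, k3, k4, w, hw, hw0⟩ := cover_up hA g1'.1 g1'.2.1 (y := z) hz ⟨y, hy, hy0⟩
    have hYc : P.Cov A F Y := ⟨k1, k2, k3, k4⟩
    have := hsgn Y (covF F g1 Y hYc) ⟨w, hw, hw0⟩
    have h5 := (mem_psd.1 hF).2 Y (mem_fs.2 hYc)
    linarith
  have hdisj3 : Disjoint Dp Dn := by
    rw [Finset.disjoint_left]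
    intro F hF hF'
    have g1 := (mem_psd.1 hF).1
    have g1' := mem_fs.1 g1
    obtain ⟨Y, k1, k2, k3, k4⟩ := exists_cover hA g1'.1 g1'.2.1 (by rintro rfl; omega)
    have h5 := (mem_psd.1 hF).2 Y (mem_fs.2 ⟨k1, k2, k3, k4⟩)
    have h6 := (mem_psd.1 hF').2 Y (mem_fs.2 ⟨k1, k2, k3, k4⟩)
    linarith
  have h5 : (Dp ∪ Dn ∪ S).card ≤ D.card := by
    apply Finset.card_le_card
    intro F hF
    rw [Finset.mem_union, Finset.mem_union] at hF
    rcases hF with (h | h) | h
    · exact (mem_psd.1 h).1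
    · exact (mem_psd.1 h).1
    · exact (hS F h).1
  rw [Finset.card_union_of_disjoint (by rw [Finset.disjoint_union_left]; exact ⟨hdisj1, hdisj2⟩),
    Finset.card_union_of_disjoint hdisj3] at h5
  omega

end Run7.h340
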