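import Pool.Agent.Run7.h340.Hodge

set_option autoImplicit false
set_option linter.unusedSectionVars false
set_option linter.unusedVariables false

/-!
# Intervals of closed sets as the closed sets of a pair of cones
-/

namespace Run7.h340

open Finset Pool.Agent.Helper715 Pool.Agent.Helper715.CP

variable {W : Type*} [NormedAddCommGroup W] [InnerProductSpace ℝ W] [FiniteDimensional ℝ W]

/-- the space of the quotient -/
noncomputable def qsp (A B : Finset W) : Submodule ℝ W :=
  Submodule.span ℝ (B : Set W) ⊓ (Submodule.span ℝ (A : Set W))ᗮ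

/-- the projection onto the space of the quotient -/
noncomputable def qpr (A B : Finset W) : W →ₗ[ℝ] qsp A B :=
  (qsp A B).orthogonalProjectionOnto.toLinearMap

/-- images of finite sets -/
noncomputable def qim (A B S : Finset W) : Finset (qsp A B) := by
  classical exact S.image (qpr A B)

theorem mem_qim {A B S : Finset W} {y : qsp A B} : y ∈ qim A B S ↔ ∃ v ∈ S, qpr A B v = y := by
  classical
  rw [qim, Finset.mem_image]

theorem inner_qpr {A B : Finset W} (y : W) (z : qsp A B) :
    inner ℝ (qpr A B y) z = inner ℝ y (z : W) :=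
  Submodule.inner_orthogonalProjectionOnto_eq_of_mem_right z y

theorem inner_qpr' {A B : Finset W} (y : W) (z : qsp A B) :
    inner ℝ z (qpr A B y) = inner ℝ (z : W) y := by
  rw [real_inner_comm, inner_qpr, real_inner_comm]

theorem qpr_self {A B : Finset W} (z : qsp A B) : qpr A B (z : W) = z :=
  Submodule.orthogonalProjectionOnto_mem_subspace_eq_self z

theorem qpr_zero {A B : Finset W} {y : W} (h : ∀ z ∈ qsp A B, inner ℝ y z = 0) : qpr A B y = 0 := by
  apply ext_inner_right ℝ
  intro z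
  rw [inner_qpr, h z z.2, inner_zero_left]

theorem q1 {A B : Finset W} (hAB : A ⊆ B) {v : W} (hv : v ∈ Submodule.span ℝ (B : Set W)) :
    v - (qpr A B v : W) ∈ Submodule.span ℝ (A : Set W) := by
  set a := (Submodule.span ℝ (A : Set W)).starProjection v with ha
  have ha1 : a ∈ Submodule.span ℝ (A : Set W) := Submodule.starProjection_apply_mem _ _
  have hle : Submodule.span ℝ (A : Set W) ≤ Submodule.span ℝ (B : Set W) :=
    Submodule.span_mono (by exact_mod_cast hAB)
  have h1 : v - a ∈ qsp A B := ⟨Submodule.sub_mem _ hv (hle ha1),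
    Submodule.sub_starProjection_mem_orthogonal _⟩
  have h2 : qpr A B a = 0 := by
    apply qpr_zero
    intro z hz
    rw [real_inner_comm]
    exact (Submodule.mem_orthogonal' _ _).1 hz.2 a ha1
  have h3 : qpr A B v = ⟨v - a, h1⟩ := by
    have h4 := qpr_self (A := A) (B := B) ⟨v - a, h1⟩
    simp only [map_sub, h2, sub_zero] at h4
    exact h4
  rw [h3]
  simpa using ha1

theorem q2 {A B : Finset W} (hAB : A ⊆ B) {g : W} (hg : g ∈ (Submodule.span ℝ (A : Set W))ᗮ) :
    g - (qpr A B g : W) ∈ (Submodule.span ℝ (B : Set W))ᗮ := by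
  set a := (Submodule.span ℝ (B : Set W)).starProjection g with ha
  have ha1 : a ∈ Submodule.span ℝ (B : Set W) := Submodule.starProjection_apply_mem _ _
  have hle : Submodule.span ℝ (A : Set W) ≤ Submodule.span ℝ (B : Set W) :=
    Submodule.span_mono (by exact_mod_cast hAB)
  have h0 : g - a ∈ (Submodule.span ℝ (B : Set W))ᗮ := Submodule.sub_starProjection_mem_orthogonal _
  have h1 : a ∈ qsp A B := by
    refine ⟨ha1, ?_⟩
    have := Submodule.sub_mem _ hg (Submodule.orthogonal_le hle h0)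
    simpa using this
  have h2 : qpr A B (g - a) = 0 := by
    apply qpr_zero
    intro z hz
    exact (Submodule.mem_orthogonal' _ _).1 h0 z hz.1
  have h3 : qpr A B g = ⟨a, h1⟩ := by
    have h4 := qpr_self (A := A) (B := B) ⟨a, h1⟩
    rw [map_sub, sub_eq_zero] at h2
    rw [h2]
    exact h4
  rw [h3]
  exact h0

theorem q_pair {A B : Finset W} (hAB : A ⊆ B) {v g : W} (hv : v ∈ Submodule.span ℝ (B : Set W))
    (hg : g ∈ (Submodule.span ℝ (A : Set W))ᗮ) :
    inner ℝ (qpr A B g) (qpr A B v) = inner ℝ g v := by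
  rw [inner_qpr]
  have h1 := q1 hAB hv
  have h2 := (Submodule.mem_orthogonal' _ _).1 hg _ h1
  rw [inner_sub_right] at h2
  linarith

variable {P : CP W}

theorem mem_span' {B : Finset W} {v : W} (h : v ∈ B) : v ∈ Submodule.span ℝ (B : Set W) :=
  Submodule.subset_span h

theorem perp_orth {A : Finset W} {g : W} (h : g ∈ perp P.G A) :
    g ∈ (Submodule.span ℝ (A : Set W))ᗮ := mem_orth.2 (mem_perp.1 h).2

theorem qpr_mem_cone {A B S : Finset W} {z : W} (hz : z ∈ cone (S : Set W)) :
    qpr A B z ∈ cone (qim A B S : Set (qsp A B)) := by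
  refine Submodule.span_induction (p := fun z _ => qpr A B z ∈ cone (qim A B S : Set (qsp A B)))
    ?_ ?_ ?_ ?_ hz
  · intro v hv
    exact Submodule.subset_span (mem_qim.2 ⟨v, hv, rfl⟩)
  · rw [map_zero]; exact Submodule.zero_mem _
  · intro a b _ _ ha hb
    rw [map_add]
    exact Submodule.add_mem _ ha hb
  · intro c a _ ha
    rw [NNReal.smul_def, map_smul]
    exact cone_smul_mem ha c.2

theorem qpr_span {A B S : Finset W} {z : W} (hz : z ∈ Submodule.span ℝ (S : Set W)) :
    qpr A B z ∈ Submodule.span ℝ (qim A B S : Set (qsp A B)) := by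
  refine Submodule.span_induction
    (p := fun z _ => qpr A B z ∈ Submodule.span ℝ (qim A B S : Set (qsp A B)))
    ?_ ?_ ?_ ?_ hz
  · intro v hv
    exact Submodule.subset_span (mem_qim.2 ⟨v, hv, rfl⟩)
  · rw [map_zero]; exact Submodule.zero_mem _
  · intro a b _ _ ha hb
    rw [map_add]
    exact Submodule.add_mem _ ha hb
  · intro c a _ ha
    rw [map_smul]
    exact Submodule.smul_mem _ c ha

/-- one half of the duality of the quotient -/
theorem q_half {A B : Finset W} (hA : P.Cl A) (hB : P.Cl B) (hAB : A ⊆ B) (x : qsp A B)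
    (h : ∀ g ∈ perp P.G A, 0 ≤ inner ℝ g (x : W)) : x ∈ cone (qim A B B : Set (qsp A B)) := by
  obtain ⟨N, hN0, hN⟩ := exists_large P.G (fun g => inner ℝ g (x : W)) (fun g => inner ℝ g (vs A)) (by
    intro g hg
    by_cases hgA : g ∈ perp P.G A
    · right; exact ⟨vs_zero hgA, h g hgA⟩
    · left; exact vs_pos hA.sub hg hgA)
  have h1 : (x : W) + N • vs A ∈ cone (P.V : Set W) := by
    rw [P.hV]
    intro g hg
    rw [inner_add_right, real_inner_smul_right]
    exact (hN g hg).1
  have h2 : (x : W) + N • vs A ∈ cone (perp P.V (perp P.G B) : Set W) := by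
    apply face_cone (P := P.swap) (A := perp P.G B) (perp_sub _ _) h1
    intro g hg
    rw [real_inner_comm, inner_add_right, real_inner_smul_right, vs_zero (perp_anti hAB hg),
      perp_span hg x.2.1]
    simp
  rw [show perp P.V (perp P.G B) = B from hB] at h2
  have h3 := qpr_mem_cone (A := A) (B := B) h2
  have h4 : qpr A B (vs A) = 0 := by
    apply qpr_zero
    intro z hz
    rw [real_inner_comm]
    exact (Submodule.mem_orthogonal' _ _).1 hz.2 _ (vs_mem_span A)
  rw [map_add, map_smul, h4, smul_zero, add_zero, qpr_self] at h3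
  exact h3

theorem q_half' {A B : Finset W} (hA : P.Cl A) (hB : P.Cl B) (hAB : A ⊆ B) (x : qsp A B)
    (h : ∀ v ∈ B, 0 ≤ inner ℝ v (x : W)) : x ∈ cone (qim A B (perp P.G A) : Set (qsp A B)) := by
  obtain ⟨N, hN0, hN⟩ := exists_large P.V (fun v => inner ℝ v (x : W))
    (fun v => inner ℝ v (P.gs B)) (by
      intro v hv
      by_cases hvB : v ∈ B
      · right
        rw [real_inner_comm]
        exact ⟨gs_zero hvB, h v hvB⟩
      · left
        rw [real_inner_comm]
        exact gs_pos hB hv hvB)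
  have h1 : (x : W) + N • P.gs B ∈ cone (P.G : Set W) := by
    rw [P.hG]
    intro v hv
    rw [inner_add_right, real_inner_smul_right]
    exact (hN v hv).1
  have h2 : (x : W) + N • P.gs B ∈ cone (perp P.G A : Set W) := by
    apply face_cone hA.sub h1
    intro a ha
    rw [inner_add_left, real_inner_smul_left, gs_zero (hAB ha),
      (Submodule.mem_orthogonal' _ _).1 x.2.2 a (Submodule.subset_span ha)]
    simp
  have h3 := qpr_mem_cone (A := A) (B := B) h2
  have h4 : qpr A B (P.gs B) = 0 := by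
    apply qpr_zero
    intro z hz
    rw [gs, sum_inner]
    exact Finset.sum_eq_zero fun g hg => perp_span hg hz.1
  rw [map_add, map_smul, h4, smul_zero, add_zero, qpr_self] at h3
  exact h3

theorem q_top {A B S : Finset W} (h : qsp A B ≤ Submodule.span ℝ (S : Set W)) :
    Submodule.span ℝ (qim A B S : Set (qsp A B)) = ⊤ := by
  rw [eq_top_iff]
  intro x _
  have h1 := qpr_span (A := A) (B := B) (h x.2)
  rwa [qpr_self] at h1

/-- the pair of cones of an interval -/
noncomputable def quo (P : CP W) {A B : Finset W} (hA : P.Cl A) (hB : P.Cl B) (hAB : A ⊆ B) :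
    CP (qsp A B) where
  V := qim A B B
  G := qim A B (perp P.G A)
  hV := by
    intro x
    constructor
    · intro hx g hg
      apply cone_inner_nonneg _ hx
      intro s hs
      obtain ⟨v, hv, rfl⟩ := mem_qim.1 hs
      obtain ⟨g', hg', rfl⟩ := mem_qim.1 hg
      rw [q_pair hAB (mem_span' hv) (perp_orth hg')]
      exact P.nn (hB.sub hv) (perp_sub _ _ hg')
    · intro h
      apply q_half hA hB hAB
      intro g hg
      have := h _ (mem_qim.2 ⟨g, hg, rfl⟩)
      rwa [inner_qpr] at this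
  hG := by
    intro x
    constructor
    · intro hx v hv
      apply cone_inner_nonneg _ hx
      intro s hs
      obtain ⟨v', hv', rfl⟩ := mem_qim.1 hv
      obtain ⟨g', hg', rfl⟩ := mem_qim.1 hs
      rw [real_inner_comm, q_pair hAB (mem_span' hv') (perp_orth hg')]
      exact P.nn (hB.sub hv') (perp_sub _ _ hg')
    · intro h
      apply q_half' hA hB hAB
      intro g hg
      have := h _ (mem_qim.2 ⟨g, hg, rfl⟩)
      rwa [inner_qpr] at this
  sV := q_top inf_le_left
  sG := q_top (by rw [span_perp hA]; exact inf_le_right)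

section
variable {A B : Finset W} (hA : P.Cl A) (hB : P.Cl B) (hAB : A ⊆ B)

theorem quo_V : (quo P hA hB hAB).V = qim A B B := rfl
theorem quo_G : (quo P hA hB hAB).G = qim A B (perp P.G A) := rfl

include hB in
/-- membership in images -/
theorem q_mem {C : Finset W} (hC : P.Cl C) (hAC : A ⊆ C) (hCB : C ⊆ B) {v : W} (hv : v ∈ B) :
    qpr A B v ∈ qim A B C ↔ v ∈ C := by
  rw [mem_qim]
  constructor
  · rintro ⟨c, hc, hce⟩
    have h1 := q1 (A := A) (B := B) (hAC.trans hCB) (mem_span' hv)
    have h2 := q1 (A := A) (B := B) (hAC.trans hCB) (mem_span' (hCB hc))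
    rw [hce] at h2
    have h3 := Submodule.sub_mem _ h1 h2
    have h4 : v - c ∈ Submodule.span ℝ (A : Set W) := by simpa using h3
    have h5 : v ∈ Submodule.span ℝ (C : Set W) := by
      have h6 : Submodule.span ℝ (A : Set W) ≤ Submodule.span ℝ (C : Set W) :=
        Submodule.span_mono (by exact_mod_cast hAC)
      have := Submodule.add_mem _ (h6 h4) (mem_span' hc)
      simpa using this
    exact mem_of_mem_span hC (hB.sub hv) h5
  · intro h
    exact ⟨v, h, rfl⟩

theorem q_cl {C : Finset W} (hC : P.Cl C) (hAC : A ⊆ C) (hCB : C ⊆ B) :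
    (quo P hA hB hAB).Cl (qim A B C) := by
  apply Finset.Subset.antisymm
  · intro y hy
    rw [mem_perp] at hy
    obtain ⟨h1, h2⟩ := hy
    rw [quo_V] at h1
    obtain ⟨v, hv, rfl⟩ := mem_qim.1 h1
    rw [q_mem hB hC hAC hCB hv, mem_Cl hC]
    refine ⟨hB.sub hv, fun g hg => ?_⟩
    have h3 : qpr A B g ∈ perp (quo P hA hB hAB).G (qim A B C) := by
      rw [mem_perp]
      refine ⟨mem_qim.2 ⟨g, perp_anti hAC hg, rfl⟩, ?_⟩
      intro c hc
      obtain ⟨c', hc', rfl⟩ := mem_qim.1 hc
      rw [q_pair hAB (mem_span' (hCB hc')) (perp_orth (perp_anti hAC hg))]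
      exact (mem_perp.1 hg).2 c' hc'
    have h4 := h2 _ h3
    rwa [real_inner_comm, q_pair hAB (mem_span' hv) (perp_orth (perp_anti hAC hg)),
      real_inner_comm] at h4
  · apply le_perp_perp
    intro y hy
    obtain ⟨c, hc, rfl⟩ := mem_qim.1 hy
    rw [quo_V]
    exact mem_qim.2 ⟨c, hCB hc, rfl⟩

theorem q_surj {C' : Finset (qsp A B)} (hC' : (quo P hA hB hAB).Cl C') :
    ∃ C, P.Cl C ∧ A ⊆ C ∧ C ⊆ B ∧ qim A B C = C' := by
  classical
  set C := B.filter (fun v => qpr A B v ∈ C') with hC
  have hAC : A ⊆ C := by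
    intro a ha
    rw [hC, Finset.mem_filter]
    refine ⟨hAB ha, ?_⟩
    rw [mem_Cl hC']
    refine ⟨mem_qim.2 ⟨a, hAB ha, rfl⟩, ?_⟩
    intro g hg
    have h0 : qpr A B a = 0 := by
      apply qpr_zero
      intro z hz
      rw [real_inner_comm]
      exact (Submodule.mem_orthogonal' _ _).1 hz.2 a (mem_span' ha)
    rw [h0, inner_zero_left]
  have hcl : P.Cl C := by
    apply Finset.Subset.antisymm
    · intro v hv
      rw [mem_perp] at hv
      have hvB : v ∈ B := by
        rw [mem_Cl hB]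
        exact ⟨hv.1, fun g hg => hv.2 g (perp_anti (Finset.filter_subset _ _) hg)⟩
      rw [hC, Finset.mem_filter]
      refine ⟨hvB, ?_⟩
      rw [mem_Cl hC']
      refine ⟨mem_qim.2 ⟨v, hvB, rfl⟩, ?_⟩
      intro g' hg'
      have h1 := (mem_perp.1 hg').1
      rw [quo_G] at h1
      obtain ⟨g, hg, rfl⟩ := mem_qim.1 h1
      rw [real_inner_comm, q_pair hAB (mem_span' hvB) (perp_orth hg), real_inner_comm]
      apply hv.2
      rw [mem_perp]
      refine ⟨perp_sub _ _ hg, ?_⟩
      intro c hc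
      rw [Finset.mem_filter] at hc
      have := (mem_perp.1 hg').2 _ hc.2
      rwa [q_pair hAB (mem_span' hc.1) (perp_orth hg)] at this
    · exact le_perp_perp ((Finset.filter_subset _ _).trans hB.sub)
  refine ⟨C, hcl, hAC, Finset.filter_subset _ _, ?_⟩
  ext y
  rw [mem_qim]
  constructor
  · rintro ⟨v, hv, rfl⟩
    exact (Finset.mem_filter.1 hv).2
  · intro hy
    have h1 := hC'.sub hy
    rw [quo_V] at h1
    obtain ⟨v, hv, rfl⟩ := mem_qim.1 h1
    exact ⟨v, Finset.mem_filter.2 ⟨hv, hy⟩, rfl⟩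

include hB in
theorem q_sub {C D : Finset W} (hC : P.Cl C) (hAC : A ⊆ C) (hCB : C ⊆ B) (hD : P.Cl D)
    (hAD : A ⊆ D) (hDB : D ⊆ B) : qim A B C ⊆ qim A B D ↔ C ⊆ D := by
  constructor
  · intro h v hv
    have h1 := h ((q_mem hB hC hAC hCB (hCB hv)).2 hv)
    exact (q_mem hB hD hAD hDB (hCB hv)).1 h1
  · intro h y hy
    obtain ⟨v, hv, rfl⟩ := mem_qim.1 hy
    exact mem_qim.2 ⟨v, h hv, rfl⟩

include hB in
theorem q_inj {C D : Finset W} (hC : P.Cl C) (hAC : A ⊆ C) (hCB : C ⊆ B) (hD : P.Cl D)
    (hAD : A ⊆ D) (hDB : D ⊆ B) (h : qim A B C = qim A B D) : C = D :=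
  Finset.Subset.antisymm ((q_sub hB hC hAC hCB hD hAD hDB).1 (by rw [h]))
    ((q_sub hB hD hAD hDB hC hAC hCB).1 (by rw [h]))

theorem q_dm {C : Finset W} (hAC : A ⊆ C) (hCB : C ⊆ B) : dm (qim A B C) + dm A = dm C := by
  have h1 : Submodule.span ℝ (qim A B C : Set (qsp A B)) =
      LinearMap.range ((qpr A B).domRestrict (Submodule.span ℝ (C : Set W))) := by
    apply le_antisymm
    · rw [Submodule.span_le]
      intro y hy
      obtain ⟨v, hv, rfl⟩ := mem_qim.1 hy
      exact ⟨⟨v, mem_span' hv⟩, rfl⟩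
    · rintro _ ⟨⟨v, hv⟩, rfl⟩
      exact qpr_span hv
  have h2 := LinearMap.finrank_range_add_finrank_ker
    ((qpr A B).domRestrict (Submodule.span ℝ (C : Set W)))
  have hle : Submodule.span ℝ (A : Set W) ≤ Submodule.span ℝ (C : Set W) :=
    Submodule.span_mono (by exact_mod_cast hAC)
  have hle' : Submodule.span ℝ (C : Set W) ≤ Submodule.span ℝ (B : Set W) :=
    Submodule.span_mono (by exact_mod_cast hCB)
  have h3 : LinearMap.ker ((qpr A B).domRestrict (Submodule.span ℝ (C : Set W))) =
      Submodule.comap (Submodule.span ℝ (C : Set W)).subtype (Submodule.span ℝ (A : Set W)) := by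
    ext ⟨v, hv⟩
    rw [LinearMap.mem_ker, LinearMap.domRestrict_apply, Submodule.mem_comap]
    show qpr A B v = 0 ↔ v ∈ _
    constructor
    · intro h
      have := q1 (A := A) (B := B) (hAC.trans hCB) (hle' hv)
      rw [h] at this
      simpa using this
    · intro h
      apply qpr_zero
      intro z hz
      rw [real_inner_comm]
      exact (Submodule.mem_orthogonal' _ _).1 hz.2 v h
  have h4 : Module.finrank ℝ (LinearMap.ker ((qpr A B).domRestrict
      (Submodule.span ℝ (C : Set W)))) = dm A := by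
    rw [h3]
    exact (Submodule.comapSubtypeEquivOfLe hle).finrank_eq
  have h5 : Module.finrank ℝ (LinearMap.range ((qpr A B).domRestrict
      (Submodule.span ℝ (C : Set W)))) = dm (qim A B C) := by
    rw [← h1]
    rfl
  rw [h4, h5] at h2
  exact h2

theorem q_bot : (quo P hA hB hAB).bot = qim A B A := by
  have h1 := q_cl hA hB hAB hA (Finset.Subset.refl _) hAB
  refine eq_of_dm_le bot_cl h1 (bot_le h1) ?_
  have := q_dm (A := A) (B := B) (C := A) (Finset.Subset.refl _) hAB
  omega

include hA hB hAB in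
theorem q_finrank : Module.finrank ℝ (qsp A B) + dm A = dm B := by
  have h1 := q_dm (A := A) (B := B) (C := B) hAB (Finset.Subset.refl _)
  have h2 : dm (qim A B B) = Module.finrank ℝ (qsp A B) := dm_top (P := quo P hA hB hAB)
  rw [← h2]
  exact h1

theorem q_card {C D : Finset W} (hC : P.Cl C) (hAC : A ⊆ C) (hCB : C ⊆ B) (hD : P.Cl D)
    (hAD : A ⊆ D) (hDB : D ⊆ B) (j : ℕ) :
    ((quo P hA hB hAB).fs (qim A B C) (qim A B D) j).card = (P.fs C D (dm A + j)).card := by
  symm
  apply Finset.card_bij (fun X _ => qim A B X)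
  · intro X hX
    rw [mem_fs] at hX ⊢
    obtain ⟨h1, h2, h3, h4⟩ := hX
    refine ⟨q_cl hA hB hAB h1 (hAC.trans h2) (h3.trans hDB),
      (q_sub hB hC hAC hCB h1 (hAC.trans h2) (h3.trans hDB)).2 h2,
      (q_sub hB h1 (hAC.trans h2) (h3.trans hDB) hD hAD hDB).2 h3, ?_⟩
    have := q_dm (A := A) (B := B) (C := X) (hAC.trans h2) (h3.trans hDB)
    omega
  · intro X hX Y hY h
    rw [mem_fs] at hX hY
    exact q_inj hB hX.1 (hAC.trans hX.2.1) (hX.2.2.1.trans hDB) hY.1 (hAC.trans hY.2.1)
      (hY.2.2.1.trans hDB) h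
  · intro X' hX'
    rw [mem_fs] at hX'
    obtain ⟨h1, h2, h3, h4⟩ := hX'
    obtain ⟨X, k1, k2, k3, rfl⟩ := q_surj hA hB hAB h1
    refine ⟨X, mem_fs.2 ⟨k1, (q_sub hB hC hAC hCB k1 k2 k3).1 h2,
      (q_sub hB k1 k2 k3 hD hAD hDB).1 h3, ?_⟩, rfl⟩
    have := q_dm (A := A) (B := B) (C := X) k2 k3
    omega

end

end Run7.h340
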