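import Pool.Agent.Run7.h340.Quo

set_option autoImplicit false
set_option linter.unusedSectionVars false
set_option linter.unusedVariables false

/-!
# Infinitesimal rigidity of polytopes in all dimensions
-/

namespace Run7.h340

open Finset Pool.Agent.Helper715 Pool.Agent.Helper715.CP

variable {W : Type*} [NormedAddCommGroup W] [InnerProductSpace ℝ W] [FiniteDimensional ℝ W]

/-- representatives of the atoms -/
def Rep (P : CP W) (x : Finset W → W) : Prop := ∀ X, P.Cl X → dm X = 1 → x X ∈ X ∧ x X ≠ 0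

/-- a weak form of motions: antisymmetry on the edges, and between one vertex and the others for
each polygon -/
structure Pre (P : CP W) (x φ : Finset W → W) : Prop where
  rep : Rep P x
  self : ∀ X, P.Cl X → dm X = 1 → inner ℝ (φ X) (x X) = 0
  edge : ∀ X Y E, P.Cl X → P.Cl Y → P.Cl E → dm X = 1 → dm Y = 1 → dm E = 2 → X ⊆ E → Y ⊆ E →
    inner ℝ (φ X) (x Y) = - inner ℝ (φ Y) (x X)
  fan : ∀ F, P.Cl F → dm F = 3 → ∃ X, P.Cl X ∧ dm X = 1 ∧ X ⊆ F ∧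
    ∀ Z, P.Cl Z → dm Z = 1 → Z ⊆ F → inner ℝ (φ X) (x Z) = - inner ℝ (φ Z) (x X)

variable {P : CP W} {x φ : Finset W → W}

theorem Rep.mot0 (h : Rep P x) : Mot P x (fun _ => 0) where
  mem := fun X hX dX => (h X hX dX).1
  nz := fun X hX dX => (h X hX dX).2
  self := fun X hX dX => by simp
  anti := fun X Y F _ _ _ _ _ _ _ _ => by simp

theorem Mot.rep (h : Mot P x φ) : Rep P x := fun X hX dX => ⟨h.mem X hX dX, h.nz X hX dX⟩

theorem exists_mot_face (hp : Pre P x φ) {F : Finset W} (hF : P.Cl F) (dF : dm F = 3) :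
    ∀ X Y, P.Cl X → P.Cl Y → dm X = 1 → dm Y = 1 → X ⊆ F → Y ⊆ F →
      inner ℝ (φ X) (x Y) = - inner ℝ (φ Y) (x X) := by
  have hm := hp.rep.mot0
  obtain ⟨X, hX, dX, hXF, hfan⟩ := hp.fan F hF dF
  obtain ⟨E, E', S, Y, f, hE', dE', hXE', hSE'⟩ := frame_at hX dX hF dF hXF
  have hY := f.hY
  have dY := f.dY
  have hYF := f.hYE.trans f.hEF
  obtain ⟨aS, a1, a2, a3⟩ := prescribe hm f 1 0 0
  obtain ⟨aX, b1, b2, b3⟩ := prescribe hm f 0 1 0
  obtain ⟨aY, c1, c2, c3⟩ := prescribe hm f 0 0 1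
  set mXS := inner ℝ (φ X) (x S) with hmXS
  set mYS := inner ℝ (φ Y) (x S) with hmYS
  set mXY := inner ℝ (φ X) (x Y) with hmXY
  set B₀ : W →ₗ[ℝ] W := mXS • wd aX aS + mYS • wd aY aS + mXY • wd aX aY with hB₀
  have skB₀ : Skew B₀ := (((skew_wd _ _).smul _).add ((skew_wd _ _).smul _)).add ((skew_wd _ _).smul _)
  have evB₀ : ∀ y z, inner ℝ (B₀ y) z = mXS * (inner ℝ aX y * inner ℝ aS z - inner ℝ aS y *
      inner ℝ aX z) + mYS * (inner ℝ aY y * inner ℝ aS z - inner ℝ aS y * inner ℝ aY z) +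
      mXY * (inner ℝ aX y * inner ℝ aY z - inner ℝ aY y * inner ℝ aX z) := by
    intro y z
    rw [hB₀]
    simp only [LinearMap.add_apply, LinearMap.smul_apply, inner_add_left, real_inner_smul_left,
      inner_wd]
  have hYX : inner ℝ (φ Y) (x X) = - mXY := by
    have := hfan Y hY dY hYF
    linarith
  have hXX := hp.self X hX dX
  have hYY := hp.self Y hY dY
  set φ₁ : Finset W → W := fun Z => φ Z - B₀ (x Z) with hφ₁
  have evφ₁ : ∀ Z z, inner ℝ (φ₁ Z) z = inner ℝ (φ Z) z - inner ℝ (B₀ (x Z)) z := by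
    intro Z z
    rw [hφ₁]
    simp only
    rw [inner_sub_left]
  have orth3 : ∀ {E S X Y : Finset W}, Frame P F E S X Y → ∀ z : W, inner ℝ z (x S) = 0 →
      inner ℝ z (x X) = 0 → inner ℝ z (x Y) = 0 → ∀ y ∈ F, inner ℝ z y = 0 := by
    intro E S X Y f z h1 h2 h3 y hy
    obtain ⟨α, β, γ, h⟩ := rep3 hm f (v := y) (Submodule.subset_span hy)
    rw [h]
    simp only [inner_add_right, real_inner_smul_right, h1, h2, h3]
    ring
  have oX : ∀ y ∈ F, inner ℝ (φ₁ X) y = 0 := by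
    apply orth3 f
    · rw [evφ₁, evB₀, a1, b1, c1, a2, b2, c2]; ring
    · rw [evφ₁, evB₀, hXX, a2, b2, c2]; ring
    · rw [evφ₁, evB₀, a2, b2, c2, a3, b3, c3]; ring
  have oY : ∀ y ∈ F, inner ℝ (φ₁ Y) y = 0 := by
    apply orth3 f
    · rw [evφ₁, evB₀, a1, b1, c1, a3, b3, c3]; ring
    · rw [evφ₁, evB₀, hYX, a2, b2, c2, a3, b3, c3]; ring
    · rw [evφ₁, evB₀, hYY, a3, b3, c3]; ring
  have cov : ∀ Z, P.Cl Z → dm Z = 1 → Z ⊆ F → P.Cov P.bot F Z := fun Z hZ dZ hZF =>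
    ⟨hZ, bot_le hZ, hZF, by rw [dm_bot, dZ]⟩
  have posX : ∀ Z, P.Cl Z → dm Z = 1 → Z ≠ X → ∃ z ∈ Z, 0 < inner ℝ (P.gs X) z :=
    fun Z hZ dZ hne => ⟨x Z, hm.mem Z hZ dZ, gs_atom_pos hm hX hZ dZ (not_sub_atom hZ dZ hX dX hne)⟩
  have self₁ : ∀ Z, P.Cl Z → dm Z = 1 → inner ℝ (φ₁ Z) (x Z) = 0 := fun Z hZ dZ => by
    rw [evφ₁, hp.self Z hZ dZ, skB₀.self, sub_zero]
  have edge₁ : ∀ Z Z', inner ℝ (φ Z) (x Z') = - inner ℝ (φ Z') (x Z) →
      inner ℝ (φ₁ Z) (x Z') = - inner ℝ (φ₁ Z') (x Z) := by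
    intro Z Z' h
    rw [evφ₁, evφ₁, h, skB₀ (x Z) (x Z')]
    ring
  have key : ∀ Z, P.Cl Z → dm Z = 1 → Z ⊆ F → ∀ y ∈ F, inner ℝ (φ₁ Z) y = 0 := by
    intro Z hZ dZ hZF
    by_cases hZX : Z = X
    · rw [hZX]; exact oX
    have hpath := conn_pos (P := P) bot_cl hF (y := P.gs X) (inner_bot _) (cov Y hY dY hYF)
      (cov Z hZ dZ hZF) (posX Y hY dY f.hXY.symm) (posX Z hZ dZ hZX)
    clear hZ dZ hZF hZX
    induction hpath with
    | refl => exact oY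
    | tail _ h1 ih =>
      rename_i Z Z' _
      obtain ⟨⟨cZ, cZ', D, hD, g1, g2, g3, g4⟩, ⟨p, hp1, hp2⟩, ⟨p', hp1', hp2'⟩⟩ := h1
      rw [dm_bot] at g4
      have dZ := cZ.dim
      have dZ' := cZ'.dim
      rw [dm_bot] at dZ dZ'
      have nX : ∀ Z, (∃ p ∈ Z, 0 < inner ℝ (P.gs X) p) → Z ≠ X := by
        rintro Z ⟨p, hp, hp0⟩ rfl
        rw [gs_zero hp] at hp0
        exact lt_irrefl _ hp0
      have nZ := nX Z ⟨p, hp1, hp2⟩
      have nZ' := nX Z' ⟨p', hp1', hp2'⟩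
      by_cases hZZ : Z = Z'
      · rw [← hZZ]; exact ih
      have hXD : ¬ X ⊆ D := by
        intro h
        obtain ⟨T, _, _, _, _, hall⟩ := other_atom cZ.cl dZ hD (by omega) g1
        rcases hall X hX dX h with h' | h'
        · exact nZ h'.symm
        · rcases hall Z' cZ'.cl dZ' g2 with h'' | h''
          · exact hZZ h''.symm
          · exact nZ' (h''.trans h'.symm)
      have f' : Frame P F D X Z Z' := ⟨hF, dF, hD, by omega, g3, cZ.cl, dZ, g1, cZ'.cl, dZ', g2, hX,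
        dX, hXF, hXD, hZZ⟩
      apply orth3 f'
      · rw [edge₁ Z' X (by have := hfan Z' cZ'.cl dZ' cZ'.ge; linarith),
          oX _ (cZ'.ge (hm.mem Z' cZ'.cl dZ')), neg_zero]
      · rw [edge₁ Z' Z (hp.edge Z' Z D cZ'.cl cZ.cl hD dZ' dZ (by omega) g2 g1),
          ih _ (cZ'.ge (hm.mem Z' cZ'.cl dZ')), neg_zero]
      · exact self₁ Z' cZ'.cl dZ'
  intro Z Z' hZ hZ' dZ dZ' hZF hZF'
  have h1 := key Z hZ dZ hZF _ (hZF' (hm.mem Z' hZ' dZ'))
  have h2 := key Z' hZ' dZ' hZF' _ (hZF (hm.mem Z hZ dZ))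
  rw [evφ₁] at h1 h2
  have h3 := skB₀ (x Z) (x Z')
  linarith

theorem Pre.mot (hp : Pre P x φ) : Mot P x φ where
  mem := fun X hX dX => (hp.rep X hX dX).1
  nz := fun X hX dX => (hp.rep X hX dX).2
  self := hp.self
  anti := fun X Y F hX hY hF dX dY dF hXF hYF => exists_mot_face hp hF dF X Y hX hY dX dY hXF hYF

/-- extension of a skew operator -/
noncomputable def ext (A B : Finset W) (T : qsp A B →ₗ[ℝ] qsp A B) : W →ₗ[ℝ] W :=
  (qsp A B).subtype ∘ₗ T ∘ₗ qpr A B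

theorem ext_apply {A B : Finset W} (T : qsp A B →ₗ[ℝ] qsp A B) (y : W) :
    ext A B T y = (T (qpr A B y) : W) := rfl

theorem inner_ext {A B : Finset W} (T : qsp A B →ₗ[ℝ] qsp A B) (y z : W) :
    inner ℝ (ext A B T y) z = inner ℝ (T (qpr A B y)) (qpr A B z) := by
  rw [ext_apply, inner_qpr']

theorem skew_ext {A B : Finset W} {T : qsp A B →ₗ[ℝ] qsp A B} (hT : Skew T) : Skew (ext A B T) := by
  intro y z
  rw [inner_ext, inner_ext, hT]

theorem orth_bot (y : W) : y ∈ (Submodule.span ℝ (P.bot : Set W))ᗮ := mem_orth.2 (inner_bot y)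

theorem orth_atom {X : Finset W} (hX : P.Cl X) (dX : dm X = 1) (hx : Rep P x) {y : W}
    (h : inner ℝ y (x X) = 0) : y ∈ (Submodule.span ℝ (X : Set W))ᗮ :=
  mem_orth.2 (zero_atom hX dX (hx X hX dX).1 (hx X hX dX).2 h)

/-- rigidity in dimension `n` -/
def Rig (W : Type*) [NormedAddCommGroup W] [InnerProductSpace ℝ W] [FiniteDimensional ℝ W] : Prop :=
  ∀ (P : CP W) (x φ : Finset W → W), Mot P x φ →
    ∃ B : W →ₗ[ℝ] W, Skew B ∧ ∀ Z, P.Cl Z → dm Z = 1 → φ Z = B (x Z)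

/-- rigidity of the faces -/
theorem facet_rigid (hm : Mot P x φ) {G : Finset W} (hG : P.Cl G) (hR : Rig (qsp P.bot G)) :
    ∃ B : W →ₗ[ℝ] W, Skew B ∧ ∀ Z, P.Cl Z → dm Z = 1 → Z ⊆ G → ∀ y ∈ G,
      inner ℝ (φ Z) y = inner ℝ (B (x Z)) y := by
  classical
  have hbG := bot_le hG
  set Q := quo P bot_cl hG hbG with hQ
  have he : ∀ X' : Finset (qsp P.bot G), ∃ X : Finset W, Q.Cl X' →
      P.Cl X ∧ P.bot ⊆ X ∧ X ⊆ G ∧ qim P.bot G X = X' := by
    intro X'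
    by_cases h : Q.Cl X'
    · obtain ⟨X, h1⟩ := q_surj bot_cl hG hbG h
      exact ⟨X, fun _ => h1⟩
    · exact ⟨∅, fun h' => absurd h' h⟩
  choose e he using he
  have de : ∀ X', Q.Cl X' → dm (e X') = dm X' := by
    intro X' h
    obtain ⟨h1, h2, h3, h4⟩ := he X' h
    have := q_dm h2 h3
    rw [h4, dm_bot] at this
    omega
  have pair : ∀ g v : W, v ∈ Submodule.span ℝ (G : Set W) →
      inner ℝ (qpr P.bot G g) (qpr P.bot G v) = inner ℝ g v :=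
    fun g v hv => q_pair hbG hv (orth_bot g)
  have hm' : Mot Q (fun X' => qpr P.bot G (x (e X'))) (fun X' => qpr P.bot G (φ (e X'))) := by
    refine ⟨?_, ?_, ?_, ?_⟩
    · intro X' hX' dX'
      obtain ⟨h1, h2, h3, h4⟩ := he X' hX'
      have := hm.mem (e X') h1 (by rw [de X' hX', dX'])
      have h5 : qpr P.bot G (x (e X')) ∈ qim P.bot G (e X') := mem_qim.2 ⟨_, this, rfl⟩
      rw [h4] at h5
      exact h5
    · intro X' hX' dX' h0
      obtain ⟨h1, h2, h3, h4⟩ := he X' hX'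
      have k1 := hm.mem (e X') h1 (by rw [de X' hX', dX'])
      have k2 := hm.nz (e X') h1 (by rw [de X' hX', dX'])
      have k3 := pair (x (e X')) (x (e X')) (mem_span' (h3 k1))
      rw [h0, inner_zero_left] at k3
      exact k2 (inner_self_eq_zero.1 k3.symm)
    · intro X' hX' dX'
      obtain ⟨h1, h2, h3, h4⟩ := he X' hX'
      have k1 := hm.mem (e X') h1 (by rw [de X' hX', dX'])
      rw [pair _ _ (mem_span' (h3 k1))]
      exact hm.self _ h1 (by rw [de X' hX', dX'])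
    · intro X' Y' F' hX' hY' hF' dX' dY' dF' hXF hYF
      obtain ⟨h1, h2, h3, h4⟩ := he X' hX'
      obtain ⟨k1, k2, k3, k4⟩ := he Y' hY'
      obtain ⟨l1, l2, l3, l4⟩ := he F' hF'
      have m1 := hm.mem (e X') h1 (by rw [de X' hX', dX'])
      have m2 := hm.mem (e Y') k1 (by rw [de Y' hY', dY'])
      rw [pair _ _ (mem_span' (h3 m1)), pair _ _ (mem_span' (k3 m2))]
      apply hm.anti _ _ (e F') h1 k1 l1 (by rw [de X' hX', dX']) (by rw [de Y' hY', dY'])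
        (by rw [de F' hF', dF'])
      · rw [← q_sub hG h1 h2 h3 l1 l2 l3, h4, l4]
        exact hXF
      · rw [← q_sub hG k1 k2 k3 l1 l2 l3, k4, l4]
        exact hYF
  obtain ⟨B, hB, hB'⟩ := hR Q _ _ hm'
  refine ⟨ext P.bot G B, skew_ext hB, ?_⟩
  intro Z hZ dZ hZG y hy
  have hbZ := bot_le hZ
  have c1 := q_cl bot_cl hG hbG hZ hbZ hZG
  have c2 := q_dm hbZ hZG
  rw [dm_bot, dZ] at c2
  obtain ⟨h1, h2, h3, h4⟩ := he _ c1
  have h5 : e (qim P.bot G Z) = Z := q_inj hG h1 h2 h3 hZ hbZ hZG h4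
  have h6 := hB' _ c1 (by omega)
  simp only [h5] at h6
  rw [← pair _ _ (mem_span' hy), h6, inner_ext]

theorem anti4 (hm : Mot P x φ) {G : Finset W} (hG : P.Cl G) (hR : Rig (qsp P.bot G))
    {X Y : Finset W} (hX : P.Cl X) (dX : dm X = 1) (hXG : X ⊆ G) (hY : P.Cl Y) (dY : dm Y = 1)
    (hYG : Y ⊆ G) : inner ℝ (φ X) (x Y) = - inner ℝ (φ Y) (x X) := by
  obtain ⟨B, hB, h⟩ := facet_rigid hm hG hR
  rw [h X hX dX hXG _ (hYG (hm.mem Y hY dY)), h Y hY dY hYG _ (hXG (hm.mem X hX dX)), hB]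

/-- rigidity of the vertex figures -/
theorem vertex_rigid (hm : Mot P x φ) {X₀ : Finset W} (hX₀ : P.Cl X₀) (dX₀ : dm X₀ = 1)
    (hW : 5 ≤ Module.finrank ℝ W)
    (hR : Rig (qsp X₀ P.V)) (hR4 : ∀ G, P.Cl G → dm G = 4 → Rig (qsp P.bot G)) :
    ∃ B : W →ₗ[ℝ] W, Skew B ∧ ∀ E, P.Cl E → dm E = 2 → X₀ ⊆ E →
      ∀ Y, P.Cl Y → dm Y = 1 → Y ⊆ E → B (x Y) = φ Y := by
  classical
  have x0 := hm.nz X₀ hX₀ dX₀
  have x0m := hm.mem X₀ hX₀ dX₀
  have hself := hm.self X₀ hX₀ dX₀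
  set c : ℝ := (inner ℝ (x X₀) (x X₀))⁻¹ with hc
  have hxx : (inner ℝ (x X₀) (x X₀) : ℝ) ≠ 0 := fun h => x0 (inner_self_eq_zero.1 h)
  set S : W →ₗ[ℝ] W := c • wd (x X₀) (φ X₀) with hS
  have skS : Skew S := (skew_wd _ _).smul c
  have Sx : S (x X₀) = φ X₀ := by
    rw [hS, LinearMap.smul_apply, wd_apply, hself, zero_smul, sub_zero, smul_smul, hc,
      inv_mul_cancel₀ hxx, one_smul]
  have hm₁ : Mot P x (fun Z => φ Z + ((-1 : ℝ) • S) (x Z)) := hm.add (skS.smul (-1))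
  set φ₁ : Finset W → W := fun Z => φ Z + ((-1 : ℝ) • S) (x Z) with hφ₁
  have φ₁0 : φ₁ X₀ = 0 := by
    rw [hφ₁]
    simp only
    rw [LinearMap.smul_apply, Sx, neg_smul, one_smul, add_neg_cancel]
  set Q := quo P hX₀ top_cl hX₀.sub with hQ
  have he : ∀ X' : Finset (qsp X₀ P.V), ∃ X : Finset W, Q.Cl X' →
      P.Cl X ∧ X₀ ⊆ X ∧ X ⊆ P.V ∧ qim X₀ P.V X = X' := by
    intro X'
    by_cases h : Q.Cl X'
    · obtain ⟨X, h1⟩ := q_surj hX₀ top_cl hX₀.sub h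
      exact ⟨X, fun _ => h1⟩
    · exact ⟨∅, fun h' => absurd h' h⟩
  choose e he using he
  have de : ∀ X', Q.Cl X' → dm (e X') = dm X' + 1 := by
    intro X' h
    obtain ⟨h1, h2, h3, h4⟩ := he X' h
    have := q_dm h2 h3
    rw [h4, dX₀] at this
    omega
  have ho : ∀ E : Finset W, ∃ Y : Finset W, P.Cl E → dm E = 2 → X₀ ⊆ E →
      P.Cl Y ∧ dm Y = 1 ∧ Y ⊆ E ∧ Y ≠ X₀ ∧ ∀ Z, P.Cl Z → dm Z = 1 → Z ⊆ E → Z = X₀ ∨ Z = Y := by
    intro E
    by_cases h : P.Cl E ∧ dm E = 2 ∧ X₀ ⊆ E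
    · obtain ⟨Y, hY⟩ := other_atom hX₀ dX₀ h.1 h.2.1 h.2.2
      exact ⟨Y, fun _ _ _ => hY⟩
    · exact ⟨∅, fun h1 h2 h3 => absurd ⟨h1, h2, h3⟩ h⟩
  choose o ho using ho
  have spanV : ∀ v : W, v ∈ Submodule.span ℝ (P.V : Set W) := fun v => by rw [P.sV]; trivial
  have pair : ∀ g v : W, g ∈ (Submodule.span ℝ (X₀ : Set W))ᗮ →
      inner ℝ (qpr X₀ P.V g) (qpr X₀ P.V v) = inner ℝ g v :=
    fun g v hg => q_pair hX₀.sub (spanV v) hg
  -- motions at neighbours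
  have nb : ∀ X', Q.Cl X' → dm X' = 1 → P.Cl (o (e X')) ∧ dm (o (e X')) = 1 ∧ o (e X') ⊆ e X' ∧
      o (e X') ≠ X₀ ∧ φ₁ (o (e X')) ∈ (Submodule.span ℝ (X₀ : Set W))ᗮ := by
    intro X' hX' dX'
    obtain ⟨h1, h2, h3, h4⟩ := he X' hX'
    have d1 := de X' hX'
    obtain ⟨k1, k2, k3, k4, _⟩ := ho (e X') h1 (by omega) h2
    refine ⟨k1, k2, k3, k4, ?_⟩
    apply orth_atom hX₀ dX₀ hm.rep
    obtain ⟨F, hF, g1, _, dF⟩ := exists_mid (P := P) h1 top_cl h1.sub (j := 3) (by omega)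
      (by rw [dm_top]; omega)
    rw [hm₁.anti _ X₀ F k1 hX₀ hF k2 dX₀ dF (k3.trans g1) (h2.trans g1)]
    rw [φ₁0, inner_zero_left, neg_zero]
  have hm' : Mot Q (fun X' => qpr X₀ P.V (x (o (e X')))) (fun X' => qpr X₀ P.V (φ₁ (o (e X')))) := by
    refine ⟨?_, ?_, ?_, ?_⟩
    · intro X' hX' dX'
      obtain ⟨h1, h2, h3, h4⟩ := he X' hX'
      obtain ⟨k1, k2, k3, k4, k5⟩ := nb X' hX' dX'
      have h5 : qpr X₀ P.V (x (o (e X'))) ∈ qim X₀ P.V (e X') :=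
        mem_qim.2 ⟨_, k3 (hm.mem _ k1 k2), rfl⟩
      rw [h4] at h5
      exact h5
    · intro X' hX' dX' h0
      obtain ⟨h1, h2, h3, h4⟩ := he X' hX'
      obtain ⟨k1, k2, k3, k4, k5⟩ := nb X' hX' dX'
      have := q1 (A := X₀) (B := P.V) hX₀.sub (spanV (x (o (e X'))))
      rw [h0] at this
      have h5 : x (o (e X')) ∈ X₀ := mem_of_mem_span hX₀ (k1.sub (hm.mem _ k1 k2)) (by simpa using this)
      exact atom_ne k1 k2 hX₀ dX₀ k4 (hm.mem _ k1 k2) (hm.nz _ k1 k2) h5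
    · intro X' hX' dX'
      obtain ⟨k1, k2, k3, k4, k5⟩ := nb X' hX' dX'
      rw [pair _ _ k5]
      exact hm₁.self _ k1 k2
    · intro X' Y' F' hX' hY' hF' dX' dY' dF' hXF hYF
      obtain ⟨h1, h2, h3, h4⟩ := he X' hX'
      obtain ⟨i1, i2, i3, i4⟩ := he Y' hY'
      obtain ⟨l1, l2, l3, l4⟩ := he F' hF'
      obtain ⟨k1, k2, k3, k4, k5⟩ := nb X' hX' dX'
      obtain ⟨j1, j2, j3, j4, j5⟩ := nb Y' hY' dY'
      have dF := de F' hF'
      rw [dF'] at dF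
      rw [pair _ _ k5, pair _ _ j5]
      apply anti4 hm₁ l1 (hR4 _ l1 dF) k1 k2 _ j1 j2
      · refine j3.trans ?_
        rw [← q_sub top_cl i1 i2 i3 l1 l2 l3, i4, l4]
        exact hYF
      · refine k3.trans ?_
        rw [← q_sub top_cl h1 h2 h3 l1 l2 l3, h4, l4]
        exact hXF
  obtain ⟨B, hB, hB'⟩ := hR Q _ _ hm'
  refine ⟨ext X₀ P.V B + S, (skew_ext hB).add skS, ?_⟩
  intro E hE dE hXE Y hY dY hYE
  obtain ⟨k1, k2, k3, k4, k5⟩ := ho E hE dE hXE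
  have hφ₁Y : ∀ Z, φ Z = φ₁ Z + S (x Z) := by
    intro Z
    rw [hφ₁]
    simp only
    rw [LinearMap.smul_apply, neg_smul, one_smul]
    abel
  rw [LinearMap.add_apply, hφ₁Y Y]
  congr 1
  rcases k5 Y hY dY hYE with h | h
  · rw [h, φ₁0, ext_apply]
    have : qpr X₀ P.V (x X₀) = 0 := by
      apply qpr_zero
      intro z hz
      rw [real_inner_comm]
      exact (Submodule.mem_orthogonal' _ _).1 hz.2 _ (mem_span' x0m)
    rw [this, map_zero]
    rfl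
  · have c1 := q_cl hX₀ top_cl hX₀.sub hE hXE hE.sub
    have c2 := q_dm hXE hE.sub
    rw [dX₀, dE] at c2
    obtain ⟨h1, h2, h3, h4⟩ := he _ c1
    have h5 : e (qim X₀ P.V E) = E := q_inj top_cl h1 h2 h3 hE hXE hE.sub h4
    have h6 := hB' _ c1 (by omega)
    have h7 := (nb _ c1 (by omega)).2.2.2.2
    simp only [h5, ← h] at h6 h7
    rw [ext_apply, ← h6]
    have h8 := q2 hX₀.sub h7
    rw [P.sV, Submodule.top_orthogonal_eq_bot, Submodule.mem_bot, sub_eq_zero] at h8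
    exact h8.symm

theorem zero_of_covers {A B : Finset W} (hA : P.Cl A) (hB : P.Cl B) (hAB : A ⊆ B) {z : W}
    (h0 : ∀ a ∈ A, inner ℝ z a = 0) (h : ∀ Y, P.Cov A B Y → ∀ y ∈ Y, inner ℝ z y = 0) :
    ∀ y ∈ B, inner ℝ z y = 0 := by
  have key : ∀ z : W, (∀ a ∈ A, inner ℝ z a = 0) → (∀ Y, P.Cov A B Y → ∀ y ∈ Y, inner ℝ z y = 0) →
      ∀ y ∈ B, inner ℝ z y ≤ 0 := by
    intro z h0 h y hy
    by_contra hcon
    push Not at hcon
    obtain ⟨C, hC, hAC, hCB, dC, c, hc, hc0⟩ := cover_up hA hB hAB h0 ⟨y, hy, hcon⟩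
    rw [h C ⟨hC, hAC, hCB, dC⟩ c hc] at hc0
    exact lt_irrefl _ hc0
  intro y hy
  apply le_antisymm (key z h0 h y hy)
  have := key (-z) (fun a ha => by rw [inner_neg_left, h0 a ha, neg_zero])
    (fun Y hY y hy => by rw [inner_neg_left, h Y hY y hy, neg_zero]) y hy
  rw [inner_neg_left] at this
  linarith

theorem rig_step (hW : 5 ≤ Module.finrank ℝ W)
    (hR : ∀ (P : CP W) (G : Finset W), P.Cl G → 4 ≤ dm G → dm G < Module.finrank ℝ W →
      Rig (qsp P.bot G))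
    (hR' : ∀ (P : CP W) (X : Finset W), P.Cl X → dm X = 1 → Rig (qsp X P.V)) : Rig W := by
  classical
  intro P x φ hm
  -- operators at vertices
  have hB : ∀ X : Finset W, ∃ B : W →ₗ[ℝ] W, Skew B ∧ (P.Cl X → dm X = 1 → ∀ E, P.Cl E → dm E = 2 →
      X ⊆ E → ∀ Y, P.Cl Y → dm Y = 1 → Y ⊆ E → B (x Y) = φ Y) := by
    intro X
    by_cases h : P.Cl X ∧ dm X = 1
    · obtain ⟨B, h1, h2⟩ := vertex_rigid hm h.1 h.2 hW (hR' P X h.1 h.2)
        (fun G hG dG => hR P G hG (by omega) (by omega))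
      exact ⟨B, h1, fun _ _ => h2⟩
    · exact ⟨0, fun y z => by simp, fun h1 h2 => absurd ⟨h1, h2⟩ h⟩
  choose B skB hB using hB
  -- comparison with the operators of faces
  have key : ∀ X G, P.Cl X → dm X = 1 → P.Cl G → 4 ≤ dm G → dm G < Module.finrank ℝ W → X ⊆ G →
      ∃ D : W →ₗ[ℝ] W, (∀ X, P.Cl X → dm X = 1 → X ⊆ G → ∀ y ∈ G, ∀ y' ∈ G,
        inner ℝ ((B X - D) y) y' = 0) := by
    intro X G hX dX hG h4 hlt hXG
    obtain ⟨D, skD, hD⟩ := facet_rigid hm hG (hR P G hG h4 hlt)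
    refine ⟨D, ?_⟩
    intro X hX dX hXG y hy y' hy'
    have sk := (skB X).sub skD
    rw [sk y y', neg_eq_zero]
    have hz : ∀ Z E, P.Cl E → dm E = 2 → X ⊆ E → P.Cl Z → dm Z = 1 → Z ⊆ E → Z ⊆ G →
        inner ℝ ((B X - D) y') (x Z) = 0 := by
      intro Z E hE dE hXE hZ dZ hZE hZG
      rw [sk y' (x Z), LinearMap.sub_apply, inner_sub_left, hB X hX dX E hE dE hXE Z hZ dZ hZE,
        hD Z hZ dZ hZG y' hy']
      ring
    have hcovs : ∀ Y, P.Cov X G Y → ∀ y ∈ Y, inner ℝ ((B X - D) y') y = 0 := by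
      intro E hE
      apply orth_of_atoms hE.cl x
      intro Z hZ dZ hZE
      exact ⟨hm.mem Z hZ dZ, hm.nz Z hZ dZ, hz Z E hE.cl (by rw [hE.dim, dX]) hE.le hZ dZ hZE
        (hZE.trans hE.ge)⟩
    obtain ⟨E, hE, hXE, hEG, dE⟩ := exists_mid hX hG hXG (j := 2) (by omega) (by omega)
    exact zero_of_covers hX hG hXG
      (zero_atom hX dX (hm.mem X hX dX) (hm.nz X hX dX) (hz X E hE dE hXE hX dX hXE hXG)) hcovs y hy
  -- neighbouring vertices
  have nb : ∀ X Y E, P.Cl X → P.Cl Y → P.Cl E → dm X = 1 → dm Y = 1 → dm E = 2 → X ⊆ E → Y ⊆ E →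
      ∀ w, B X w = B Y w := by
    intro X Y E hX hY hE dX dY dE hXE hYE w
    have sk := (skB X).sub (skB Y)
    have h1 : ∀ G, P.Cl G → 4 ≤ dm G → dm G < Module.finrank ℝ W → E ⊆ G → ∀ y ∈ G, ∀ y' ∈ G,
        inner ℝ ((B X - B Y) y) y' = 0 := by
      intro G hG h4 hlt hEG y hy y' hy'
      obtain ⟨D, hD⟩ := key X G hX dX hG h4 hlt (hXE.trans hEG)
      have g1 := hD X hX dX (hXE.trans hEG) y hy y' hy'
      have g2 := hD Y hY dY (hYE.trans hEG) y hy y' hy'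
      rw [LinearMap.sub_apply, inner_sub_left] at g1 g2 ⊢
      linarith
    have h2 : ∀ F, P.Cl F → dm F + 2 = Module.finrank ℝ W → E ⊆ F → ∀ u ∈ F, (B X - B Y) u = 0 := by
      intro F hF dF hEF u hu
      obtain ⟨G, G', hne, ⟨hG, hFG, _, dG⟩, ⟨hG', hFG', _, dG'⟩, _⟩ := diamond hF top_cl hF.sub
        (by rw [dm_top, dF])
      apply zero_of_two hG hG' (by omega) (by omega) hne
      · exact fun y hy => h1 G hG (by omega) (by omega) (hEF.trans hFG) u (hFG hu) y hy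
      · exact fun y hy => h1 G' hG' (by omega) (by omega) (hEF.trans hFG') u (hFG' hu) y hy
    obtain ⟨A, hA, hEA, _, dA⟩ := exists_mid (P := P) hE top_cl hE.sub
      (j := Module.finrank ℝ W - 3) (by omega) (by rw [dm_top]; omega)
    obtain ⟨G, hG, hAG, _, dG⟩ := exists_mid (P := P) hA top_cl hA.sub
      (j := Module.finrank ℝ W - 1) (by omega) (by rw [dm_top]; omega)
    obtain ⟨F, F', hne, ⟨hF, hAF, hFG, dF⟩, ⟨hF', hAF', hFG', dF'⟩, _⟩ := diamond hA hG hAG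
      (by omega)
    obtain ⟨v, hv, hvF⟩ : ∃ v ∈ F', v ∉ F := by
      by_contra hcon
      push Not at hcon
      exact hne (eq_of_dm_le hF' hF hcon (by omega)).symm
    have h3 := span_cover hF hG hFG (by omega) (hFG' hv) hvF
    have h0 := skew_zero hG (by omega) sk (by
      intro y hy
      have hy' : y ∈ Submodule.span ℝ (insert v (F : Set W)) := by
        rw [h3]
        exact mem_span' hy
      refine Submodule.span_induction (p := fun y _ => (B X - B Y) y = 0) ?_ ?_ ?_ ?_ hy'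
      · rintro u (rfl | hu)
        · exact h2 F' hF' (by omega) (hEA.trans hAF') _ hv
        · exact h2 F hF (by omega) (hEA.trans hAF) u hu
      · exact map_zero _
      · intro a b _ _ ha hb
        rw [map_add, ha, hb, add_zero]
      · intro c a _ ha
        rw [map_smul, ha, smul_zero]) w
    rw [LinearMap.sub_apply] at h0
    exact sub_eq_zero.1 h0
  -- connectivity
  obtain ⟨X₀, hX₀, _, _, dX₀⟩ := exists_mid (P := P) bot_cl top_cl (bot_le top_cl) (j := 1)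
    (by rw [dm_bot]; omega) (by rw [dm_top]; omega)
  have hcov : ∀ Z, P.Cl Z → dm Z = 1 → P.Cov P.bot P.V Z := fun Z hZ dZ =>
    ⟨hZ, bot_le hZ, hZ.sub, by rw [dm_bot, dZ]⟩
  refine ⟨B X₀, skB X₀, ?_⟩
  intro Z hZ dZ
  have hpath := conn bot_cl top_cl (hcov X₀ hX₀ dX₀) (hcov Z hZ dZ)
  have hcon : ∀ w, B Z w = B X₀ w := by
    clear hZ dZ
    induction hpath with
    | refl => intro w; rfl
    | tail _ h1 ih =>
      intro w
      rw [← ih w]
      obtain ⟨c1, c2, D, hD, g1, g2, g3, g4⟩ := h1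
      rw [dm_bot] at g4
      have d1 := c1.dim
      have d2 := c2.dim
      rw [dm_bot] at d1 d2
      exact (nb _ _ D c1.cl c2.cl hD d1 d2 g4 g1 g2 w).symm
  obtain ⟨E, hE, hZE, _, dE⟩ := exists_mid (P := P) hZ top_cl hZ.sub (j := 2) (by omega)
    (by rw [dm_top]; omega)
  rw [← hcon, hB Z hZ dZ E hE dE hZE Z hZ dZ hZE]

/-- infinitesimal rigidity of polytopes -/
theorem rigid (n : ℕ) : ∀ (W : Type*) [NormedAddCommGroup W] [InnerProductSpace ℝ W]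
    [FiniteDimensional ℝ W], 4 ≤ n → Module.finrank ℝ W = n → Rig W := by
  induction n using Nat.strong_induction_on with
  | _ n ih =>
    intro W _ _ _ h4 hn
    by_cases h : n = 4
    · intro P x φ hm
      exact rigid3 (by omega) hm
    · apply rig_step (by omega)
      · intro P G hG h1 h2
        have := q_finrank (P := P) bot_cl hG (bot_le hG)
        rw [dm_bot] at this
        exact ih (dm G) (by omega) _ (by omega) (by omega)
      · intro P X hX dX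
        have := q_finrank (P := P) hX top_cl hX.sub
        rw [dm_top, dX] at this
        exact ih (n - 1) (by omega) _ (by omega) (by omega)

end Run7.h340
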