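import Pool.Agent.Run7.h340.Polygon

set_option autoImplicit false
set_option linter.unusedSectionVars false
set_option linter.unusedVariables false

/-!
# The index inequality for infinitesimal motions of 3-polytopes
-/

namespace Run7.h340

open Finset Pool.Agent.Helper715 Pool.Agent.Helper715.CP

variable {W : Type*} [NormedAddCommGroup W] [InnerProductSpace ℝ W] [FiniteDimensional ℝ W]

/-- an infinitesimal motion, in projective form -/
structure Mot (P : CP W) (x φ : Finset W → W) : Prop where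
  mem : ∀ X, P.Cl X → dm X = 1 → x X ∈ X
  nz : ∀ X, P.Cl X → dm X = 1 → x X ≠ 0
  self : ∀ X, P.Cl X → dm X = 1 → inner ℝ (φ X) (x X) = 0
  anti : ∀ X Y F, P.Cl X → P.Cl Y → P.Cl F → dm X = 1 → dm Y = 1 → dm F = 3 → X ⊆ F → Y ⊆ F →
    inner ℝ (φ X) (x Y) = - inner ℝ (φ Y) (x X)

/-- the functional `z` takes both signs on `F` -/
def Mix (z : W) (F : Finset W) : Prop := (∃ y ∈ F, 0 < inner ℝ z y) ∧ (∃ y ∈ F, inner ℝ z y < 0)

variable {P : CP W} {x φ : Finset W → W}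

theorem not_bot {v : W} (h : v ≠ 0) : v ∉ P.bot := fun hv => h (mem_bot hv)

theorem Mot.pos (hm : Mot P x φ) {X : Finset W} (hX : P.Cl X) (hd : dm X = 1) :
    0 < inner ℝ (P.gs P.bot) (x X) :=
  gs_pos bot_cl (hX.sub (hm.mem X hX hd)) (not_bot (hm.nz X hX hd))

theorem atom_cov {X : Finset W} (hX : P.Cl X) (hd : dm X = 1) : P.Cov P.bot X X :=
  ⟨hX, bot_le hX, Finset.Subset.refl _, by rw [dm_bot, hd]⟩

/-- functionals vanishing at a point of an atom vanish on the atom -/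
theorem zero_atom {X : Finset W} (hX : P.Cl X) (hd : dm X = 1) {z v : W} (hv : v ∈ X) (hv0 : v ≠ 0)
    (hz : inner ℝ z v = 0) : ∀ y ∈ X, inner ℝ z y = 0 := by
  obtain ⟨c, hc⟩ := exists_ratio bot_cl (atom_cov hX hd) (inner_bot z)
  have h1 := hc v hv
  rw [hz] at h1
  have h2 := gs_pos (P := P) bot_cl (hX.sub hv) (not_bot hv0)
  have hc0 : c = 0 := by
    rcases mul_eq_zero.1 h1.symm with h | h
    · exact h
    · exact absurd h h2.ne'
  intro y hy
  rw [hc y hy, hc0, zero_mul]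

theorem Mot.zero_on (hm : Mot P x φ) {X : Finset W} (hX : P.Cl X) (hd : dm X = 1) :
    ∀ y ∈ X, inner ℝ (φ X) y = 0 :=
  zero_atom hX hd (hm.mem X hX hd) (hm.nz X hX hd) (hm.self X hX hd)

/-- if an element of an atom lies in a closed set, the atom does -/
theorem atom_sub {X F : Finset W} (hX : P.Cl X) (hd : dm X = 1) (hF : P.Cl F) {v : W} (hv : v ∈ X)
    (hv0 : v ≠ 0) (hvF : v ∈ F) : X ⊆ F :=
  cover_sub bot_cl hX hF (bot_le hX) (bot_le hF) (by rw [dm_bot, hd]) hv (not_bot hv0) hvF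

theorem atom_ne {X Y : Finset W} (hX : P.Cl X) (hdX : dm X = 1) (hY : P.Cl Y) (hdY : dm Y = 1)
    (hne : X ≠ Y) {v : W} (hv : v ∈ X) (hv0 : v ≠ 0) : v ∉ Y := fun h =>
  hne (eq_of_dm_le hX hY (atom_sub hX hdX hY hv hv0 h) (by rw [hdX, hdY]))

/-- at most one vertex of a polygon is a source -/
theorem Mot.source (hm : Mot P x φ) {F : Finset W} (hF : P.Cl F) (hdF : dm F = 3)
    (hne : ∀ X E, P.Cl X → P.Cl E → dm X = 1 → dm E = 2 → X ⊆ E → ∃ y ∈ E, inner ℝ (φ X) y ≠ 0)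
    {σ : ℝ} (hσ : σ ≠ 0) {X Y : Finset W} (hX : P.Cl X) (hdX : dm X = 1) (hXF : X ⊆ F)
    (hY : P.Cl Y) (hdY : dm Y = 1) (hYF : Y ⊆ F) (h1 : ∀ y ∈ F, 0 ≤ σ * inner ℝ (φ X) y)
    (h2 : ∀ y ∈ F, 0 ≤ σ * inner ℝ (φ Y) y) : X = Y := by
  classical
  by_contra hXY
  have a1 := h1 (x Y) (hYF (hm.mem Y hY hdY))
  have a2 := h2 (x X) (hXF (hm.mem X hX hdX))
  have a3 := hm.anti X Y F hX hY hF hdX hdY hdF hXF hYF
  have a4 : inner ℝ (φ X) (x Y) = 0 := by
    rw [a3] at a1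
    have : σ * inner ℝ (φ Y) (x X) = 0 := by linarith
    rcases mul_eq_zero.1 this with h | h
    · exact absurd h hσ
    · rw [a3, h, neg_zero]
  have hZ : P.Cl (F.filter (fun v => inner ℝ (σ • φ X) v = 0)) :=
    Cl_filter hF (z := σ • φ X) (fun v hv => by rw [real_inner_smul_left]; exact h1 v hv)
      (fun v => by rw [Finset.mem_filter])
  set Z := F.filter (fun v => inner ℝ (σ • φ X) v = 0) with hZdef
  have hXZ : X ⊆ Z := by
    intro v hv
    rw [hZdef, Finset.mem_filter, real_inner_smul_left, hm.zero_on hX hdX v hv, mul_zero]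
    exact ⟨hXF hv, rfl⟩
  have hYZ : x Y ∈ Z := by
    rw [hZdef, Finset.mem_filter, real_inner_smul_left, a4, mul_zero]
    exact ⟨hYF (hm.mem Y hY hdY), rfl⟩
  have hne' : X ≠ Z := by
    intro h
    rw [← h] at hYZ
    exact atom_ne hY hdY hX hdX (Ne.symm hXY) (hm.mem Y hY hdY) (hm.nz Y hY hdY) hYZ
  obtain ⟨E, hE, g1, g2, g3⟩ := exists_cover hX hZ hXZ hne'
  obtain ⟨y, hy, hy0⟩ := hne X E hX hE hdX (by rw [g3, hdX]) g1
  have := g2 hy
  rw [hZdef, Finset.mem_filter, real_inner_smul_left] at this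
  rcases mul_eq_zero.1 this.2 with h | h
  · exact hσ h
  · exact hy0 h

theorem not_mix {z : W} {F : Finset W} (h : ¬ Mix z F) :
    (∀ y ∈ F, 0 ≤ 1 * inner ℝ z y) ∨ (∀ y ∈ F, 0 ≤ (-1) * inner ℝ z y) := by
  rw [Mix, not_and_or] at h
  rcases h with h | h
  · right
    intro y hy
    push Not at h
    linarith [h y hy]
  · left
    intro y hy
    push Not at h
    linarith [h y hy]

theorem star (hW : Module.finrank ℝ W = 4) (hm : Mot P x φ)
    (hne : ∀ X E, P.Cl X → P.Cl E → dm X = 1 → dm E = 2 → X ⊆ E → ∃ y ∈ E, inner ℝ (φ X) y ≠ 0)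
    (Ex Ro : Finset (Finset W))
    (hEx : ∀ X ∈ Ex, X ∈ P.fs P.bot P.V 1 ∧ ¬ Mix (φ X) P.V)
    (hRo : ∀ F ∈ Ro, F ∈ P.fs P.bot P.V 3 ∧ ∀ X ∈ P.fs P.bot F 1, Mix (φ X) F) :
    Ex.card + Ro.card ≤ 2 := by
  classical
  have hV : dm P.V = 4 := by rw [dm_top, hW]
  have hb := dm_bot (P := P)
  set Va := P.fs P.bot P.V 1 with hVa
  set Ea := P.fs P.bot P.V 2 with hEa
  set Fa := P.fs P.bot P.V 3 with hFa
  -- Euler
  have e1 : Va.card + Fa.card = Ea.card + 2 := by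
    have := euler4 (P := P) bot_cl top_cl (bot_le top_cl) (by rw [hV, hb])
    rw [hb] at this
    simpa using this
  -- incidences
  have e2 : ∑ F ∈ Fa, (P.fs P.bot F 1).card = 2 * Ea.card := by
    rw [← double_count (P := P) (A := P.bot) (B := P.V) 1 3]
    have h1 : ∀ X ∈ Va, (P.fs X P.V 3).card = (P.fs X P.V 2).card := by
      intro X hX
      rw [hVa, mem_fs] at hX
      have := euler3 hX.1 top_cl hX.2.2.1 (by rw [hV, hX.2.2.2])
      rw [hX.2.2.2] at this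
      simpa using this.symm
    rw [Finset.sum_congr rfl h1, double_count]
    have h2 : ∀ E ∈ Ea, (P.fs P.bot E 1).card = 2 := by
      intro E hE
      rw [hEa, mem_fs] at hE
      exact card_ends hE.1 hE.2.2.2
    rw [Finset.sum_congr rfl h2, Finset.sum_const, smul_eq_mul, mul_comm]
  -- double counting of mixed corners
  have e3 : ∑ X ∈ Va, ((P.fs X P.V 3).filter (fun F => Mix (φ X) F)).card =
      ∑ F ∈ Fa, ((P.fs P.bot F 1).filter (fun X => Mix (φ X) F)).card := by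
    have h := Finset.sum_card_bipartiteAbove_eq_sum_card_bipartiteBelow (s := Va)
      (t := Fa) (fun X F : Finset W => X ⊆ F ∧ Mix (φ X) F)
    have g1 : ∀ X ∈ Va, (Finset.bipartiteAbove (fun X F : Finset W => X ⊆ F ∧ Mix (φ X) F) Fa X) =
        (P.fs X P.V 3).filter (fun F => Mix (φ X) F) := by
      intro X hX
      ext F
      rw [Finset.mem_bipartiteAbove, Finset.mem_filter, hFa, mem_fs, mem_fs]
      rw [hVa, mem_fs] at hX
      constructor
      · rintro ⟨⟨h1, h2, h3, h4⟩, h5, h6⟩; exact ⟨⟨h1, h5, h3, h4⟩, h6⟩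
      · rintro ⟨⟨h1, h2, h3, h4⟩, h5⟩; exact ⟨⟨h1, bot_le h1, h3, h4⟩, h2, h5⟩
    have g2 : ∀ F ∈ Fa, (Finset.bipartiteBelow (fun X F : Finset W => X ⊆ F ∧ Mix (φ X) F) Va F) =
        (P.fs P.bot F 1).filter (fun X => Mix (φ X) F) := by
      intro F hF
      ext X
      rw [Finset.mem_bipartiteBelow, Finset.mem_filter, hVa, mem_fs, mem_fs]
      constructor
      · rintro ⟨⟨h1, h2, h3, h4⟩, h5, h6⟩; exact ⟨⟨h1, h2, h5, h4⟩, h6⟩
      · rintro ⟨⟨h1, h2, h3, h4⟩, h5⟩; exact ⟨⟨h1, h2, h1.sub, h4⟩, h3, h5⟩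
    have k1 : ∑ X ∈ Va, (Finset.bipartiteAbove (fun X F : Finset W => X ⊆ F ∧ Mix (φ X) F) Fa X).card =
        ∑ X ∈ Va, ((P.fs X P.V 3).filter (fun F => Mix (φ X) F)).card :=
      Finset.sum_congr rfl (fun X hX => by rw [g1 X hX])
    have k2 : ∑ F ∈ Fa, (Finset.bipartiteBelow (fun X F : Finset W => X ⊆ F ∧ Mix (φ X) F) Va F).card =
        ∑ F ∈ Fa, ((P.fs P.bot F 1).filter (fun X => Mix (φ X) F)).card :=
      Finset.sum_congr rfl (fun F hF => by rw [g2 F hF])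
    rw [← k1, ← k2]
    exact h
  -- vertices
  have v1 : ∀ X ∈ Va, ((P.fs X P.V 3).filter (fun F => Mix (φ X) F)).card +
      (if X ∈ Ex then 2 else 0) ≤ 2 := by
    intro X hX
    rw [hVa, mem_fs] at hX
    split_ifs with hXE
    · have h0 : (P.fs X P.V 3).filter (fun F => Mix (φ X) F) = ∅ := by
        rw [Finset.filter_eq_empty_iff]
        intro F hF hmix
        apply (hEx X hXE).2
        obtain ⟨⟨y, hy, hy0⟩, ⟨y', hy', hy'0⟩⟩ := hmix
        have := (mem_fs.1 hF).1.sub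
        exact ⟨⟨y, this hy, hy0⟩, ⟨y', this hy', hy'0⟩⟩
      rw [h0, Finset.card_empty]
    · rw [add_zero]
      apply mixed_le_two hX.1 top_cl hX.2.2.1 (by rw [hV, hX.2.2.2]) (z := φ X)
        (hm.zero_on hX.1 hX.2.2.2)
      · intro Y hY
        exact hne X Y hX.1 hY.cl hX.2.2.2 (by rw [hY.dim, hX.2.2.2]) hY.le
      · intro F hF
        rw [Finset.mem_filter] at hF
        rw [hX.2.2.2]
        exact ⟨hF.1, hF.2.1, hF.2.2⟩
  -- faces
  have f1 : ∀ F ∈ Fa, (P.fs P.bot F 1).card + (if F ∈ Ro then 2 else 0) ≤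
      ((P.fs P.bot F 1).filter (fun X => Mix (φ X) F)).card + 2 := by
    intro F hF
    rw [hFa, mem_fs] at hF
    split_ifs with hFR
    · have h0 : (P.fs P.bot F 1).filter (fun X => Mix (φ X) F) = P.fs P.bot F 1 := by
        rw [Finset.filter_eq_self]
        exact fun X hX => (hRo F hFR).2 X hX
      rw [h0]
    · rw [add_zero]
      have h1 := Finset.card_filter_add_card_filter_not (s := P.fs P.bot F 1)
        (fun X => Mix (φ X) F)
      have h2 : ((P.fs P.bot F 1).filter (fun X => ¬ Mix (φ X) F)).card ≤ 2 := by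
        by_contra hcon
        push Not at hcon
        obtain ⟨X, hX, Y, hY, Z, hZ, hXY, hXZ, hYZ⟩ := Finset.two_lt_card.1 hcon
        rw [Finset.mem_filter, mem_fs] at hX hY hZ
        have hsrc : ∀ σ : ℝ, σ ≠ 0 → ∀ X Y : Finset W, P.Cl X → dm X = 1 → X ⊆ F → P.Cl Y →
            dm Y = 1 → Y ⊆ F → (∀ y ∈ F, 0 ≤ σ * inner ℝ (φ X) y) →
            (∀ y ∈ F, 0 ≤ σ * inner ℝ (φ Y) y) → X = Y :=
          fun σ hσ X Y a b c d e f g h => hm.source hF.1 hF.2.2.2 hne hσ a b c d e f g h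
        rcases not_mix hX.2 with a | a <;> rcases not_mix hY.2 with b | b <;>
          rcases not_mix hZ.2 with c | c
        · exact hXY (hsrc 1 one_ne_zero _ _ hX.1.1 hX.1.2.2.2 hX.1.2.2.1 hY.1.1 hY.1.2.2.2 hY.1.2.2.1 a b)
        · exact hXY (hsrc 1 one_ne_zero _ _ hX.1.1 hX.1.2.2.2 hX.1.2.2.1 hY.1.1 hY.1.2.2.2 hY.1.2.2.1 a b)
        · exact hXZ (hsrc 1 one_ne_zero _ _ hX.1.1 hX.1.2.2.2 hX.1.2.2.1 hZ.1.1 hZ.1.2.2.2 hZ.1.2.2.1 a c)
        · exact hYZ (hsrc (-1) (by norm_num) _ _ hY.1.1 hY.1.2.2.2 hY.1.2.2.1 hZ.1.1 hZ.1.2.2.2 hZ.1.2.2.1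
            b c)
        · exact hYZ (hsrc 1 one_ne_zero _ _ hY.1.1 hY.1.2.2.2 hY.1.2.2.1 hZ.1.1 hZ.1.2.2.2 hZ.1.2.2.1 b c)
        · exact hXZ (hsrc (-1) (by norm_num) _ _ hX.1.1 hX.1.2.2.2 hX.1.2.2.1 hZ.1.1 hZ.1.2.2.2 hZ.1.2.2.1
            a c)
        · exact hXY (hsrc (-1) (by norm_num) _ _ hX.1.1 hX.1.2.2.2 hX.1.2.2.1 hY.1.1 hY.1.2.2.2 hY.1.2.2.1
            a b)
        · exact hXY (hsrc (-1) (by norm_num) _ _ hX.1.1 hX.1.2.2.2 hX.1.2.2.1 hY.1.1 hY.1.2.2.2 hY.1.2.2.1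
            a b)
      omega
  have v2 := Finset.sum_le_sum v1
  have f2 := Finset.sum_le_sum f1
  rw [Finset.sum_add_distrib, Finset.sum_const, smul_eq_mul] at v2
  rw [Finset.sum_add_distrib, Finset.sum_add_distrib, Finset.sum_const, smul_eq_mul, e2] at f2
  have v3 : ∑ X ∈ Va, (if X ∈ Ex then 2 else 0) = 2 * Ex.card := by
    rw [Finset.sum_ite, Finset.sum_const, Finset.sum_const_zero, add_zero, smul_eq_mul, mul_comm]
    congr 2
    ext X
    rw [Finset.mem_filter]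
    exact ⟨fun h => h.2, fun h => ⟨(hEx X h).1, h⟩⟩
  have f3 : ∑ F ∈ Fa, (if F ∈ Ro then 2 else 0) = 2 * Ro.card := by
    rw [Finset.sum_ite, Finset.sum_const, Finset.sum_const_zero, add_zero, smul_eq_mul, mul_comm]
    congr 2
    ext F
    rw [Finset.mem_filter]
    exact ⟨fun h => h.2, fun h => ⟨(hRo F h).1, h⟩⟩
  rw [v3, e3] at v2
  rw [f3] at f2
  omega

end Run7.h340
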