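import Pool.Agent.Run7.h340.Chains
import Pool.Agent.Helper715.Sal6

set_option autoImplicit false
set_option linter.unusedSectionVars false
set_option linter.unusedVariables false

/-!
# Combinatorial types of polytopes with few vertices
-/

namespace Run7.h340

open Finset Pool.Agent.Helper715 Pool.Agent.Helper715.CP

section iso

variable {E₁ E₂ : Type*} [NormedAddCommGroup E₁] [NormedSpace ℝ E₁] [NormedAddCommGroup E₂]
  [NormedSpace ℝ E₂]

theorem exp_fwd (ι : E₁ →L[ℝ] E₂) (ψ : E₂ →L[ℝ] E₁) (p : E₂) (F : Set E₂)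
    (h1 : ∀ x, ψ (ι x) = x) (h2 : ∀ x ∈ F, ι (ψ (x - p)) = x - p) {G : Set E₂}
    (hG : IsExposed ℝ F G) :
    IsExposed ℝ ((fun x => ψ (x - p)) '' F) ((fun x => ψ (x - p)) '' G) := by
  rintro ⟨_, x0, hx0, rfl⟩
  obtain ⟨l, hl⟩ := hG ⟨x0, hx0⟩
  have he : ∀ x ∈ F, (l.comp ι) (ψ (x - p)) = l x - l p := by
    intro x hx
    change l (ι (ψ (x - p))) = _
    rw [h2 x hx, map_sub]
  refine ⟨l.comp ι, ?_⟩
  ext y
  constructor
  · rintro ⟨x, hx, rfl⟩
    rw [hl] at hx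
    refine ⟨⟨x, hx.1, rfl⟩, ?_⟩
    rintro _ ⟨w, hw, rfl⟩
    have e1 := he x hx.1
    have e2 := he w hw
    have e3 := hx.2 w hw
    simp only at *
    rw [e1, e2]
    linarith
  · rintro ⟨⟨x, hx, rfl⟩, h⟩
    refine ⟨x, ?_, rfl⟩
    rw [hl]
    refine ⟨hx, fun w hw => ?_⟩
    have e1 := he x hx
    have e2 := he w hw
    have e3 := h _ ⟨w, hw, rfl⟩
    simp only at *
    rw [e1, e2] at e3
    linarith

theorem exp_bwd (ι : E₁ →L[ℝ] E₂) (ψ : E₂ →L[ℝ] E₁) (p : E₂) (F : Set E₂)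
    (h1 : ∀ x, ψ (ι x) = x) (h2 : ∀ x ∈ F, ι (ψ (x - p)) = x - p) {G : Set E₁}
    (hG : IsExposed ℝ ((fun x => ψ (x - p)) '' F) G) :
    IsExposed ℝ F ((fun x => p + ι x) '' G) := by
  rintro ⟨_, x0, hx0, rfl⟩
  obtain ⟨l, hl⟩ := hG ⟨x0, hx0⟩
  have hgf : ∀ x ∈ F, p + ι (ψ (x - p)) = x := by
    intro x hx
    rw [h2 x hx]; abel
  have he : ∀ x, l (ψ (x - p)) = (l.comp ψ) x - (l.comp ψ) p := by
    intro x
    rw [← map_sub]
    rfl
  refine ⟨l.comp ψ, ?_⟩
  ext y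
  constructor
  · rintro ⟨b, hb, rfl⟩
    rw [hl] at hb
    obtain ⟨⟨a, ha, rfl⟩, hb2⟩ := hb
    simp only
    rw [hgf a ha]
    refine ⟨ha, fun w hw => ?_⟩
    have e3 := hb2 _ ⟨w, hw, rfl⟩
    simp only at e3
    rw [he, he] at e3
    linarith
  · rintro ⟨hy, h⟩
    refine ⟨ψ (y - p), ?_, hgf y hy⟩
    rw [hl]
    refine ⟨⟨y, hy, rfl⟩, ?_⟩
    rintro _ ⟨w, hw, rfl⟩
    have e3 := h w hw
    simp only
    rw [he, he]
    linarith

/-- exposed faces are transported by an affine isomorphism -/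
theorem exp_iso (ι : E₁ →L[ℝ] E₂) (ψ : E₂ →L[ℝ] E₁) (p : E₂) (F : Set E₂)
    (h1 : ∀ x, ψ (ι x) = x) (h2 : ∀ x ∈ F, ι (ψ (x - p)) = x - p) :
    Nonempty ({G : Set E₂ | IsExposed ℝ F G} ≃o
      {G : Set E₁ | IsExposed ℝ ((fun x => ψ (x - p)) '' F) G}) := by
  have hgf : ∀ x ∈ F, p + ι (ψ (x - p)) = x := by
    intro x hx
    rw [h2 x hx]; abel
  have hl : ∀ G : Set E₂, G ⊆ F → (fun x => p + ι x) '' ((fun x => ψ (x - p)) '' G) = G := by
    intro G hG
    rw [Set.image_image]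
    ext x
    constructor
    · rintro ⟨y, hy, rfl⟩
      simp only
      rw [hgf y (hG hy)]
      exact hy
    · intro hx
      exact ⟨x, hx, hgf x (hG hx)⟩
  have hr : ∀ G : Set E₁, (fun x => ψ (x - p)) '' ((fun x => p + ι x) '' G) = G := by
    intro G
    rw [Set.image_image]
    have : (fun x => ψ (p + ι x - p)) = id := by
      ext1 x
      rw [add_sub_cancel_left, h1]
      rfl
    rw [this, Set.image_id]
  exact ⟨{
    toFun := fun G => ⟨(fun x => ψ (x - p)) '' G.1, exp_fwd ι ψ p F h1 h2 G.2⟩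
    invFun := fun G => ⟨(fun x => p + ι x) '' G.1, exp_bwd ι ψ p F h1 h2 G.2⟩
    left_inv := fun G => Subtype.ext (hl G.1 (IsExposed.subset G.2))
    right_inv := fun G => Subtype.ext (hr G.1)
    map_rel_iff' := by
      intro G H
      constructor
      · intro h
        change (fun x => ψ (x - p)) '' G.1 ⊆ (fun x => ψ (x - p)) '' H.1 at h
        have h' := Set.image_mono (f := fun x => p + ι x) h
        rw [hl G.1 (IsExposed.subset G.2), hl H.1 (IsExposed.subset H.2)] at h'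
        exact h'
      · intro h
        exact Set.image_mono h }⟩

end iso

/-- every polytope of dimension `k` is affinely isomorphic to one in the Euclidean space of
dimension `k` -/
theorem exists_model {E : Type*} [NormedAddCommGroup E] [InnerProductSpace ℝ E]
    [FiniteDimensional ℝ E] {k : ℕ} {F : Set E} (hF : F.Nonempty)
    (hS : ∃ S : Finset E, F = convexHull ℝ (S : Set E))
    (hk : Module.finrank ℝ (vectorSpan ℝ F) = k) :
    ∃ Q : Set (EuclideanSpace ℝ (Fin k)), (∃ S : Finset (EuclideanSpace ℝ (Fin k)),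
        Q = convexHull ℝ (S : Set (EuclideanSpace ℝ (Fin k)))) ∧
      Module.finrank ℝ (vectorSpan ℝ Q) = k ∧
      Nonempty ({G : Set E | IsExposed ℝ F G} ≃o
        {G : Set (EuclideanSpace ℝ (Fin k)) | IsExposed ℝ Q G}) := by
  classical
  obtain ⟨p, hp⟩ := hF
  obtain ⟨S, hS⟩ := hS
  set V0 := vectorSpan ℝ F with hV0
  have hfr : Module.finrank ℝ V0 = Module.finrank ℝ (EuclideanSpace ℝ (Fin k)) := by
    rw [hk, finrank_euclideanSpace, Fintype.card_fin]
  let L : V0 ≃L[ℝ] EuclideanSpace ℝ (Fin k) := ContinuousLinearEquiv.ofFinrankEq hfr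
  let ι : EuclideanSpace ℝ (Fin k) →L[ℝ] E :=
    V0.subtypeL.comp (L.symm : EuclideanSpace ℝ (Fin k) →L[ℝ] V0)
  let ψ : E →L[ℝ] EuclideanSpace ℝ (Fin k) :=
    (L : V0 →L[ℝ] EuclideanSpace ℝ (Fin k)).comp V0.orthogonalProjection
  have h1 : ∀ x, ψ (ι x) = x := by
    intro x
    change L (V0.orthogonalProjection ((L.symm x : V0) : E)) = x
    rw [Submodule.orthogonalProjection_mem_subspace_eq_self, L.apply_symm_apply]
  have h2 : ∀ x ∈ F, ι (ψ (x - p)) = x - p := by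
    intro x hx
    have hmem : x - p ∈ V0 := vsub_mem_vectorSpan ℝ hx hp
    change ((L.symm (L (V0.orthogonalProjection (x - p))) : V0) : E) = x - p
    rw [L.symm_apply_apply]
    have := V0.orthogonalProjection_mem_subspace_eq_self ⟨x - p, hmem⟩
    exact congrArg Subtype.val this
  let f : E →ᵃ[ℝ] EuclideanSpace ℝ (Fin k) :=
    { toFun := fun x => ψ (x - p)
      linear := ψ.toLinearMap
      map_vadd' := by
        intro x v
        simp only [vadd_eq_add]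
        rw [add_sub_assoc, map_add]
        rfl }
  have hf : (fun x => ψ (x - p)) = f := rfl
  refine ⟨(fun x => ψ (x - p)) '' F, ⟨S.image f, ?_⟩, ?_, exp_iso ι ψ p F h1 h2⟩
  · rw [hf, hS, Finset.coe_image, AffineMap.image_convexHull]
  · rw [hf, ← AffineMap.vectorSpan_image_eq_submodule_map]
    have : Submodule.map f.linear (vectorSpan ℝ F) = ⊤ := by
      rw [eq_top_iff]
      intro y _
      refine ⟨ι y, ?_, h1 y⟩
      exact (L.symm y).2
    rw [this, finrank_top, finrank_euclideanSpace, Fintype.card_fin]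

/-- there are finitely many combinatorial types with a bounded number of faces -/
theorem finite_types (k N : ℕ) : ∃ (m : ℕ) (Q : Fin m → Set (EuclideanSpace ℝ (Fin k))),
    (∀ i, (∃ S : Finset (EuclideanSpace ℝ (Fin k)),
        Q i = convexHull ℝ (S : Set (EuclideanSpace ℝ (Fin k)))) ∧
      Module.finrank ℝ (vectorSpan ℝ (Q i)) = k) ∧
    ∀ Q' : Set (EuclideanSpace ℝ (Fin k)), (∃ S : Finset (EuclideanSpace ℝ (Fin k)),
        Q' = convexHull ℝ (S : Set (EuclideanSpace ℝ (Fin k)))) →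
      Module.finrank ℝ (vectorSpan ℝ Q') = k →
      Finite {G : Set (EuclideanSpace ℝ (Fin k)) | IsExposed ℝ Q' G} →
      Nat.card {G : Set (EuclideanSpace ℝ (Fin k)) | IsExposed ℝ Q' G} ≤ N →
      ∃ i, Nonempty ({G : Set (EuclideanSpace ℝ (Fin k)) | IsExposed ℝ Q' G} ≃o
        {G : Set (EuclideanSpace ℝ (Fin k)) | IsExposed ℝ (Q i) G}) := by
  classical
  let X : Type := (n : Fin (N + 1)) × (Fin n.1 → Fin n.1 → Prop)
  let good : X → Set (EuclideanSpace ℝ (Fin k)) → Prop := fun x Q =>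
    (∃ S : Finset (EuclideanSpace ℝ (Fin k)),
        Q = convexHull ℝ (S : Set (EuclideanSpace ℝ (Fin k)))) ∧
      Module.finrank ℝ (vectorSpan ℝ Q) = k ∧
      Nonempty (x.2 ≃r (fun G H : {G : Set (EuclideanSpace ℝ (Fin k)) | IsExposed ℝ Q G} => G ≤ H))
  let I : Type := {x : X // ∃ Q, good x Q}
  haveI : Finite I := inferInstance
  choose Q hQ using fun i : I => i.2
  let e : I ≃ Fin (Nat.card I) := Finite.equivFin I
  refine ⟨Nat.card I, fun j => Q (e.symm j), fun j => ⟨(hQ _).1, (hQ _).2.1⟩, ?_⟩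
  intro Q' hS hk hfin hcard
  set n := Nat.card {G : Set (EuclideanSpace ℝ (Fin k)) | IsExposed ℝ Q' G} with hn
  let e' : {G : Set (EuclideanSpace ℝ (Fin k)) | IsExposed ℝ Q' G} ≃ Fin n :=
    Finite.equivFinOfCardEq hn.symm
  let x : X := ⟨⟨n, by omega⟩, fun a b => e'.symm a ≤ e'.symm b⟩
  let ρ : x.2 ≃r (fun G H : {G : Set (EuclideanSpace ℝ (Fin k)) | IsExposed ℝ Q' G} => G ≤ H) :=
    { toEquiv := e'.symm, map_rel_iff' := Iff.rfl }
  have hx : ∃ Q, good x Q := ⟨Q', hS, hk, ⟨ρ⟩⟩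
  obtain ⟨σ⟩ := (hQ ⟨x, hx⟩).2.2
  refine ⟨e ⟨x, hx⟩, ?_⟩
  have h : (fun j => Q (e.symm j)) (e ⟨x, hx⟩) = Q ⟨x, hx⟩ :=
    congrArg Q (e.symm_apply_apply ⟨x, hx⟩)
  rw [h]
  exact ⟨ρ.symm.trans σ⟩

end Run7.h340
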